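import Pool.Agent.H261R2.CM.Defs

/-!
# Blueprint (statements only; every `sorry` is a task of table `h261_tasks`)
-/

set_option autoImplicit false

namespace Pool.Agent.H261R2.CM

open Polynomial Filter MeasureTheory Matrix
open scoped ComplexOrder

noncomputable section

/-! ## Task A: linear algebra (file `A.lean`) -/

/-- A1: AM-GM for Gram determinants with scaled columns. -/
theorem det_gram_scaled {ι κ : Type*} [Fintype ι] [Fintype κ] [DecidableEq κ] [Nonempty κ]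
    (W : Matrix ι κ ℂ) (lam : κ → ℝ) (hlam : ∀ j, 0 < lam j) :
    (∏ j, lam j ^ 2) * (Wᴴ * W).det.re ≤
      ((∑ j, ∑ i, lam j ^ 2 * ‖W i j‖ ^ 2) / Fintype.card κ) ^ (Fintype.card κ) := by sorry

/-- A2: determinants are monotone: `A ≥ Q Qᴴ` implies `det A ≥ |det Q|²`. -/
theorem det_ge_of_posSemidef_sub {κ : Type*} [Fintype κ] [DecidableEq κ] (A Q : Matrix κ κ ℂ)
    (h : (A - Q * Qᴴ).PosSemidef) : ‖Q.det‖ ^ 2 ≤ A.det.re := by sorry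

/-- A3: the Gram determinant of linearly independent integer columns is a positive integer. -/
theorem one_le_int_gram {ι κ : Type*} [Fintype ι] [Fintype κ] [DecidableEq κ] (E : Matrix ι κ ℤ)
    (h : LinearIndependent ℂ (fun (j : κ) (i : ι) => ((E i j : ℤ) : ℂ))) :
    1 ≤ (Eᵀ * E).det := by sorry

/-! ## Task B: pivots (file `B.lean`) -/

/-- B3: for an integer family `E` (rank `r` over `ℂ`) there are `r` pivots such that the Gram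
determinants of all initial blocks of pivot columns of the sequences `p * E b` are at least
`|p(0)|^(2 i)`. -/
theorem level_gram {ι : Type*} [Fintype ι] (E : ι → ℤ → ℤ) (m : ℤ)
    (hm : ∀ i, ∀ γ < m, E i γ = 0) (r : ℕ)
    (hr : Module.finrank ℂ (Submodule.span ℂ (Set.range fun i => fun γ => ((E i γ : ℤ) : ℂ))) = r)
    (p : ℂ[X]) :
    ∃ N : Fin r → ℤ, StrictMono N ∧ (∀ j, m ≤ N j) ∧
      (∀ v ∈ Submodule.span ℂ (Set.range fun i => fun γ => ((E i γ : ℤ) : ℂ)),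
        (∀ j, v (N j) = 0) → v = 0) ∧
      (∃ T : Matrix (Fin r) (Fin r) ℂ, T.det = p.coeff 0 ^ r ∧
        ∀ v ∈ Submodule.span ℂ (Set.range fun i => fun γ => ((E i γ : ℤ) : ℂ)),
          ∀ j, conv p v (N j) = ∑ i, v (N i) * T i j) ∧
      ∀ (i : ℕ) (hi : i ≤ r),
        ‖p.coeff 0‖ ^ (2 * i) ≤
          (((Matrix.of fun (b : ι) (j : Fin i) =>
              conv p (fun γ => ((E b γ : ℤ) : ℂ)) (N (Fin.castLE hi j)))ᴴ *
            (Matrix.of fun (b : ι) (j : Fin i) =>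
              conv p (fun γ => ((E b γ : ℤ) : ℂ)) (N (Fin.castLE hi j)))).det).re := by sorry

/-- B4: `conv` of a shifted coefficient sequence. -/
theorem conv_zc (p A : ℂ[X]) (m N : ℤ) :
    conv p (fun γ => zc A (γ - m)) N = zc (p * A) (N - m) := by sorry

/-! ## Task C: the chain argument and the relation (file `C.lean`) -/

/-- C: there is a nonzero relation with bounded (standard) support and coefficients. -/
theorem relation_exists (A B : ℕ → ℤ[X]) (p : ℕ → ℂ[X]) (c : ℝ) (hc : 0 < c)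
    (hp : ∀ n, c ≤ ‖(p n).coeff 0‖) (hpA : ∀ n, l2le (p n * toC (A n)))
    (hpB : ∀ n, l2le (p n * toC (B n))) :
    ∃ (F : Finset Gam) (x : Gam → Bool → ℤ), (∃ γ ∈ F, ∃ b, x γ b ≠ 0) ∧
      ∀ᶠ n in (hyperfilter ℕ : Filter ℕ), ∀ N : ℤ,
        ∑ γ ∈ F, (x γ true * zc (A n) (N - rep γ n) + x γ false * zc (B n) (N - rep γ n)) = 0 := by
  sorry

/-! ## Task D: analysis on the circle (file `D.lean`) -/

/-- D1: the exponential of (the analytic completion of) a continuous function is uniformly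
approximated by polynomials. -/
theorem exp_poly_approx (ψ : ℝ → ℝ) (hψ : Continuous ψ) (hper : Function.Periodic ψ 1)
    (ε : ℝ) (hε : 0 < ε) :
    ∃ q : ℂ[X], (∀ t : ℝ, Real.exp (ψ t - ε) ≤ ‖q.eval (ez t)‖ ∧
        ‖q.eval (ez t)‖ ≤ Real.exp (ψ t + ε)) ∧
      Real.exp ((∫ t in (0:ℝ)..1, ψ t) - ε) ≤ ‖q.coeff 0‖ := by sorry

/-- D2: Parseval. -/
theorem parseval (A : ℂ[X]) :
    ∑ j ∈ A.support, ‖A.coeff j‖ ^ 2 = ∫ t in (0:ℝ)..1, ‖A.eval (ez t)‖ ^ 2 := by sorry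

/-- D3: one-variable Mahler measure as an integral, and `δ`-regularisation. -/
theorem m1_lower (A : ℤ[X]) (hA : A ≠ 0) (δ : ℝ) (hδ : 0 < δ) :
    2 * Real.log (m1 A) ≤ ∫ t in (0:ℝ)..1, Real.log (‖ev1 A t‖ ^ 2 + δ) := by sorry

theorem m1_upper (A : ℤ[X]) (hA : A ≠ 0) (x : ℝ) (hx : 2 * Real.log (m1 A) < x) :
    ∃ δ > 0, ∫ t in (0:ℝ)..1, Real.log (‖ev1 A t‖ ^ 2 + δ) < x := by sorry

/-- D4: outer function approximation. -/
theorem outer_approx (A : ℤ[X]) (hA : A ≠ 0) (c : ℝ) (hc : c * m1 A < 1) :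
    ∃ p : ℂ[X], (∀ t : ℝ, ‖(p * toC A).eval (ez t)‖ ≤ 1) ∧ c ≤ ‖p.coeff 0‖ := by sorry

/-! ## Task E: lower bound for Toeplitz determinants (file `E.lean`) -/

theorem toeplitz_lower {τ : Type*} [Fintype τ] [DecidableEq τ] (m : τ → ℤ)
    (hm : Function.Injective m) (w : ℝ → ℝ) (hw : Continuous w) (hper : Function.Periodic w 1)
    (hpos : ∀ t, 0 < w t) (M : Matrix τ τ ℂ)
    (hM : ∀ s t, M s t = ∫ u in (0:ℝ)..1, (w u : ℂ) * ez (((m s - m t : ℤ) : ℝ) * u)) :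
    Real.exp (Fintype.card τ * ∫ u in (0:ℝ)..1, Real.log (w u)) ≤ M.det.re := by sorry

/-! ## Task F: torus (file `F.lean`) -/

theorem equidist_log {k : ℕ} (𝓕 : Filter ℕ) (e : ℕ → Fin k → ℕ) (he : AsympIndep 𝓕 e)
    (C D : MvPolynomial (Fin k) ℤ) (δ : ℝ) (hδ : 0 < δ) :
    Tendsto (fun n => ∫ t in (0:ℝ)..1,
        Real.log (‖ev1 (spec (e n) C) t‖ ^ 2 + ‖ev1 (spec (e n) D) t‖ ^ 2 + δ)) 𝓕
      (nhds (∫ t in Set.Icc (0 : Fin k → ℝ) 1,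
        Real.log (‖tv C t‖ ^ 2 + ‖tv D t‖ ^ 2 + δ))) := by sorry

theorem norm_eq_of_spec {k : ℕ} (𝓕 : Filter ℕ) [𝓕.NeBot] (e : ℕ → Fin k → ℕ)
    (he : AsympIndep 𝓕 e) (C D : MvPolynomial (Fin k) ℤ)
    (h : ∀ᶠ n in 𝓕, ∀ t : ℝ, ‖ev1 (spec (e n) C) t‖ = ‖ev1 (spec (e n) D) t‖) :
    ∀ t : Fin k → ℝ, ‖tv C t‖ = ‖tv D t‖ := by sorry

theorem spec_ne_zero {k : ℕ} (𝓕 : Filter ℕ) (e : ℕ → Fin k → ℕ)
    (he : AsympIndep 𝓕 e) (C : MvPolynomial (Fin k) ℤ) (hC : C ≠ 0) :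
    ∀ᶠ n in 𝓕, spec (e n) C ≠ 0 := by sorry

theorem asympIndep_pow (k : ℕ) : AsympIndep Filter.atTop (fun (n : ℕ) (i : Fin k) => n ^ (i : ℕ)) := by
  sorry

theorem mM_lower {k : ℕ} (C : MvPolynomial (Fin k) ℤ) (hC : C ≠ 0) (δ : ℝ) (hδ : 0 < δ) :
    2 * Real.log (mM C) ≤ ∫ t in Set.Icc (0 : Fin k → ℝ) 1, Real.log (‖tv C t‖ ^ 2 + δ) := by sorry

theorem mM_upper {k : ℕ} (C : MvPolynomial (Fin k) ℤ) (hC : C ≠ 0) (x : ℝ)
    (hx : 2 * Real.log (mM C) < x) :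
    ∃ δ > 0, ∫ t in Set.Icc (0 : Fin k → ℝ) 1, Real.log (‖tv C t‖ ^ 2 + δ) < x := by sorry

theorem one_le_mM {k : ℕ} (C : MvPolynomial (Fin k) ℤ) (hC : C ≠ 0) : 1 ≤ mM C := by sorry

theorem mM_mul {k : ℕ} (C D : MvPolynomial (Fin k) ℤ) (hC : C ≠ 0) (hD : D ≠ 0) :
    mM (C * D) = mM C * mM D := by sorry

/-! ## Task G: from the relation to a coprime pair in `k` variables (file `G.lean`) -/

theorem structure_of_relation (A B : ℕ → ℤ[X]) (hA : ∀ n, A n ≠ 0) (hB : ∀ n, B n ≠ 0)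
    (F : Finset Gam) (x : Gam → Bool → ℤ) (hx : ∃ γ ∈ F, ∃ b, x γ b ≠ 0)
    (hrel : ∀ᶠ n in (hyperfilter ℕ : Filter ℕ), ∀ N : ℤ,
      ∑ γ ∈ F, (x γ true * zc (A n) (N - rep γ n) + x γ false * zc (B n) (N - rep γ n)) = 0) :
    ∃ (k : ℕ) (e : ℕ → Fin k → ℕ) (C D : MvPolynomial (Fin k) ℤ), 1 ≤ k ∧ C ≠ 0 ∧ D ≠ 0 ∧
      IsRelPrime C D ∧ AsympIndep (hyperfilter ℕ : Filter ℕ) e ∧
      ∀ᶠ n in (hyperfilter ℕ : Filter ℕ), spec (e n) D * A n = spec (e n) C * B n := by sorry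

/-! ## Task H: the final inequality (files `H1.lean`, `H2.lean`) -/

/-- autocorrelation of an integer polynomial -/
def acorr {k : ℕ} (P : MvPolynomial (Fin k) ℤ) (v : Fin k → ℤ) : ℤ :=
  ∑ a ∈ P.support, ∑ b ∈ P.support,
    if (∀ i, (a i : ℤ) - (b i : ℤ) = v i) then P.coeff a * P.coeff b else 0

/-- `max (deg_i C) (deg_i D)` -/
def dm {k : ℕ} (C D : MvPolynomial (Fin k) ℤ) (i : Fin k) : ℕ :=
  max (C.degreeOf i) (D.degreeOf i)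

/-- the box of exponents `t` with `t_i + max (deg_i C) (deg_i D) < R` -/
abbrev Box {k : ℕ} (C D : MvPolynomial (Fin k) ℤ) (R : ℕ) : Type := (i : Fin k) → Fin (R - dm C D i)

/-- Gram matrix of the vectors `X^t (C, D)`, `t` in the box. -/
def gramY {k : ℕ} (C D : MvPolynomial (Fin k) ℤ) (R : ℕ) : Matrix (Box C D R) (Box C D R) ℝ :=
  Matrix.of fun s t =>
    ((acorr C (fun i => ((s i : ℕ) : ℤ) - ((t i : ℕ) : ℤ)) +
      acorr D (fun i => ((s i : ℕ) : ℤ) - ((t i : ℕ) : ℤ)) : ℤ) : ℝ)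

/-- H1: upper bound. -/
theorem gram_upper {k : ℕ} (C D : MvPolynomial (Fin k) ℤ) (hC : C ≠ 0) (hD : D ≠ 0)
    (hCD : IsRelPrime C D) (R : ℕ) (hR : ∀ i, dm C D i < R) (e : Fin k → ℕ)
    (he : ∀ s : Fin k → ℤ, (∀ i, |s i| ≤ 4 * R) → s ≠ 0 → ∑ i, s i * (e i : ℤ) ≠ 0)
    (A B : ℤ[X]) (hA : A ≠ 0) (hB : B ≠ 0) (hrel : spec e D * A = spec e C * B)
    (p : ℂ[X]) (c : ℝ) (hc : 0 < c) (hp : c ≤ ‖p.coeff 0‖) (hpA : l2le (p * toC A))
    (hpB : l2le (p * toC B)) (r : ℕ) (hr : r + ∏ i, (R - dm C D i) = 2 * R ^ k) :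
    (gramY C D R).det ≤ ((2 * (R : ℝ) ^ k) / (c ^ 2 * r)) ^ r := by sorry

/-- H2: lower bound. -/
theorem gram_lower {k : ℕ} (C D : MvPolynomial (Fin k) ℤ) (hC : C ≠ 0) (R : ℕ) (ℓ : ℝ)
    (hℓ : ∀ δ > 0, ℓ ≤ ∫ t in Set.Icc (0 : Fin k → ℝ) 1,
      Real.log (‖tv C t‖ ^ 2 + ‖tv D t‖ ^ 2 + δ)) :
    Real.exp ((∏ i, ((R - dm C D i : ℕ) : ℝ)) * ℓ) ≤ (gramY C D R).det := by sorry

/-- H3: the final inequality. -/
theorem final_ineq {k : ℕ} (C D : MvPolynomial (Fin k) ℤ) (hC : C ≠ 0) (hD : D ≠ 0)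
    (hCD : IsRelPrime C D) (𝓕 : Filter ℕ) [𝓕.NeBot] (e : ℕ → Fin k → ℕ) (he : AsympIndep 𝓕 e)
    (A B : ℕ → ℤ[X]) (hA : ∀ n, A n ≠ 0) (hB : ∀ n, B n ≠ 0)
    (hrel : ∀ᶠ n in 𝓕, spec (e n) D * A n = spec (e n) C * B n)
    (p : ℕ → ℂ[X]) (c : ℝ) (hc : 0 < c) (hp : ∀ᶠ n in 𝓕, c ≤ ‖(p n).coeff 0‖)
    (hpA : ∀ n, l2le (p n * toC (A n))) (hpB : ∀ n, l2le (p n * toC (B n))) (ℓ : ℝ)
    (hℓ : ∀ δ > 0, ℓ ≤ ∫ t in Set.Icc (0 : Fin k → ℝ) 1,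
      Real.log (‖tv C t‖ ^ 2 + ‖tv D t‖ ^ 2 + δ)) :
    ℓ ≤ Real.log 2 - 2 * Real.log c := by sorry

/-! ## Task I: limit theorem, approximation, closedness (file `I.lean`) -/

theorem limit_thm {k : ℕ} (C D : MvPolynomial (Fin k) ℤ) (hC : C ≠ 0) (hD : D ≠ 0)
    (hCD : IsRelPrime C D) (𝒰 : Ultrafilter ℕ) (e : ℕ → Fin k → ℕ)
    (he : AsympIndep (𝒰 : Filter ℕ) e) (A B : ℕ → ℤ[X]) (hAB : ∀ n, Pair1 (A n) (B n))
    (hrel : ∀ᶠ n in (𝒰 : Filter ℕ), spec (e n) D * A n = spec (e n) C * B n) :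
    PairK C D ∧ Tendsto (fun n => m1 (A n)) (𝒰 : Filter ℕ) (nhds (mM C)) := by sorry

theorem approx_one_var {k : ℕ} (C D : MvPolynomial (Fin k) ℤ) (h : PairK C D) (ε : ℝ) (hε : 0 < ε) :
    ∃ A B : ℤ[X], Pair1 A B ∧ |m1 A - mM C| < ε := by sorry

theorem closed_pairs :
    IsClosed {x : ℝ | ∃ k : ℕ, 1 ≤ k ∧ ∃ C D : MvPolynomial (Fin k) ℤ, PairK C D ∧ x = mM C} := by
  sorry

/-! ## Task J: reciprocal polynomials (file `J.lean`) -/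

/-- The reciprocal polynomial `∏ X_i ^ (deg_i P) * P (1/X_1, …, 1/X_k)`. -/
def recip {k : ℕ} (P : MvPolynomial (Fin k) ℤ) : MvPolynomial (Fin k) ℤ :=
  ∑ s ∈ P.support, MvPolynomial.monomial
    (Finsupp.equivFunOnFinite.symm fun i => P.degreeOf i - s i) (P.coeff s)

/-- J1 -/
theorem pair_iff {k : ℕ} (C : MvPolynomial (Fin k) ℤ) :
    (∃ D, PairK C D) ↔ (C ≠ 0 ∧ IsRelPrime C (recip C)) := by sorry

/-- J2: every polynomial without reciprocal nonconstant irreducible factor of Mahler measure `> 1`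
has the Mahler measure of a polynomial coprime to its reciprocal. -/
theorem exists_coprime_recip {k : ℕ} (P : MvPolynomial (Fin k) ℤ) (hP : P ≠ 0)
    (h : ∀ Q : MvPolynomial (Fin k) ℤ, Irreducible Q → Q ∣ P →
      Q.totalDegree = 0 ∨ mM Q = 1 ∨ ¬ Associated (recip Q) Q) :
    ∃ P' : MvPolynomial (Fin (k + 1)) ℤ, P' ≠ 0 ∧ IsRelPrime P' (recip P') ∧ mM P' = mM P := by
  sorry

/-- J3 -/
theorem not_associated_of_isRelPrime {k : ℕ} (P : MvPolynomial (Fin k) ℤ) (hP : P ≠ 0)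
    (h : IsRelPrime P (recip P)) (Q : MvPolynomial (Fin k) ℤ) (hQ : Irreducible Q) (hQP : Q ∣ P) :
    ¬ Associated (recip Q) Q := by sorry

end

end Pool.Agent.H261R2.CM
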