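import Pool.Agent.H261R2.CM.Defs2
import Pool.Agent.H261R2.CM.JDefs
import Pool.Agent.H261R2.CM.HDefs
import Pool.Agent.H338R2.AS.Defs

/-!
# Blueprint 2 (statements only, never import in a final file)
-/

set_option autoImplicit false

namespace Pool.Agent.H261R2.CM

open Polynomial Filter MeasureTheory Matrix Topology
open Pool.Agent.H338R2.AS (es)

noncomputable section

/-- K2a (file K2a.lean; uses `Pool.Agent.H338R2.AS.small_values`, file H338R2/AS/T2.lean) -/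
theorem log_defect (r : ℕ) : ∃ η : ℝ → ℝ, Tendsto η (𝓝[>] 0) (𝓝 0) ∧
    ∀ (c : Fin (r + 1) → ℂ) (a : Fin (r + 1) → ℤ), Function.Injective a → (∃ j, 1 ≤ ‖c j‖) →
      ∀ δ > 0, IntervalIntegrable (fun t => Real.log (1 + δ / ‖es c a t‖ ^ 2)) volume 0 1 ∧
        ∫ t in (0:ℝ)..1, Real.log (1 + δ / ‖es c a t‖ ^ 2) ≤ η δ := by sorry

/-- K2b (file K2b.lean; uses K2a) -/
theorem spec_log_defect {k : ℕ} (C : MvPolynomial (Fin k) ℤ) (hC : C ≠ 0) :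
    ∃ η : ℝ → ℝ, Tendsto η (𝓝[>] 0) (𝓝 0) ∧ ∀ e : Fin k → ℕ,
      Set.InjOn (fun s : Fin k →₀ ℕ => ∑ i, s i * e i) (C.support : Set (Fin k →₀ ℕ)) →
      ∀ δ > 0, IntervalIntegrable (fun t => Real.log (‖ev1 (spec e C) t‖ ^ 2 + δ) -
          2 * Real.log ‖ev1 (spec e C) t‖) volume 0 1 ∧
        ∫ t in (0:ℝ)..1, (Real.log (‖ev1 (spec e C) t‖ ^ 2 + δ) -
          2 * Real.log ‖ev1 (spec e C) t‖) ≤ η δ := by sorry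

/-- K2c (file K2c.lean; uses K2b and F) -/
theorem lim_theta {k : ℕ} (𝓕 : Filter ℕ) (e : ℕ → Fin k → ℕ) (he : AsympIndep 𝓕 e)
    (θ : ℝ → ℝ → ℝ) (hθ : Continuous fun q : ℝ × ℝ => θ q.1 q.2) (hge : ∀ x y, x ^ 2 ≤ θ x y)
    (C D : MvPolynomial (Fin k) ℤ) (hC : C ≠ 0) :
    Tendsto (fun n => ∫ t in (0:ℝ)..1,
        Real.log (θ ‖ev1 (spec (e n) C) t‖ ‖ev1 (spec (e n) D) t‖)) 𝓕
      (𝓝 (∫ t in Set.Icc (0 : Fin k → ℝ) 1, Real.log (θ ‖tv C t‖ ‖tv D t‖))) := by sorry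

/-- K3 (file K3.lean; uses D) -/
theorem outer_approx_pair (A B : ℤ[X]) (hA : A ≠ 0) (κ : ℝ) (hκ : N21 A B < κ) :
    ∃ p : ℂ[X], mass (p * toC A) + mass (p * toC B) ≤ 2 ∧
      Real.exp ((Real.log 2 - κ) / 2) ≤ ‖p.coeff 0‖ := by sorry

/-- K1 (file K1.lean; helper261) -/
theorem final_ineq_mass {k : ℕ} (C D : MvPolynomial (Fin k) ℤ) (hC : C ≠ 0) (hD : D ≠ 0)
    (hCD : IsRelPrime C D) (𝓕 : Filter ℕ) [𝓕.NeBot] (e : ℕ → Fin k → ℕ) (he : AsympIndep 𝓕 e)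
    (A B : ℕ → ℤ[X]) (hA : ∀ n, A n ≠ 0) (hB : ∀ n, B n ≠ 0)
    (hrel : ∀ᶠ n in 𝓕, spec (e n) D * A n = spec (e n) C * B n)
    (p : ℕ → ℂ[X]) (c : ℝ) (hc : 0 < c) (hp : ∀ᶠ n in 𝓕, c ≤ ‖(p n).coeff 0‖)
    (hm : ∀ n, mass (p n * toC (A n)) + mass (p n * toC (B n)) ≤ 2) (ℓ : ℝ)
    (hℓ : ∀ δ > 0, ℓ ≤ ∫ t in Set.Icc (0 : Fin k → ℝ) 1,
      Real.log (‖tv C t‖ ^ 2 + ‖tv D t‖ ^ 2 + δ)) :
    ℓ ≤ Real.log 2 - 2 * Real.log c := by sorry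

/-- K8 (file K8.lean): bounded degree in one variable -/
theorem width_pair {k : ℕ} (F : MvPolynomial (Fin k) ℤ) (hF : F ≠ 0) (i : Fin k) (m : ℕ)
    (hm : F.degreeOf i ≤ m) (hX : ¬ MvPolynomial.X i ∣ F)
    (hprim : ∀ Q, Q ∣ F → Q.degreeOf i = 0 → IsUnit Q) :
    ∃ F' G' : MvPolynomial (Fin (k + 1)) ℤ, F' ≠ 0 ∧ G' ≠ 0 ∧ IsRelPrime F' G' ∧
      mM F' = mM F ∧ mx F' G' ≤ Real.log (mM F) + m * Real.log 2 := by sorry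

/-- J5 (file J5.lean) -/
theorem boyd_iff_reciprocal :
    IsClosed {x : ℝ | ∃ k : ℕ, 1 ≤ k ∧ ∃ F : MvPolynomial (Fin k) ℤ, F ≠ 0 ∧ x = mM F} ↔
    closure {x : ℝ | ∃ k : ℕ, 1 ≤ k ∧ ∃ R : MvPolynomial (Fin k) ℤ, R ≠ 0 ∧
        Associated (recip R) R ∧ x = mM R} ⊆
      {x : ℝ | ∃ k : ℕ, 1 ≤ k ∧ ∃ F : MvPolynomial (Fin k) ℤ, F ≠ 0 ∧ x = mM F} := by sorry

end

end Pool.Agent.H261R2.CM
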