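import Pool.Agent.H261R2.CM.B
import Pool.Agent.H261R2.CM.C1

set_option autoImplicit false

namespace Pool.Agent.H261R2.CM

open Polynomial Filter MeasureTheory Matrix Topology
open scoped Pointwise

noncomputable section

theorem sumset_growth {G : Type*} [AddCommGroup G] [DecidableEq G] (S : Finset G) :
    ∃ F : Finset G, F.Nonempty ∧ (∀ x ∈ F, x ∈ AddSubgroup.closure (S : Set G)) ∧
      4 * (F + S).card ≤ 5 * F.card := by
  classical
  let Fr : ℕ → Finset G := fun R =>
    Finset.image (fun f : S → Fin (R + 1) => ∑ s : S, ((f s : ℕ)) • (s : G)) Finset.univ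
  have hne : ∀ R, (Fr R).Nonempty := fun R =>
    Finset.Nonempty.image Finset.univ_nonempty _
  have hcl : ∀ R, ∀ x ∈ Fr R, x ∈ AddSubgroup.closure (S : Set G) := by
    intro R x hx
    simp only [Fr, Finset.mem_image, Finset.mem_univ, true_and] at hx
    obtain ⟨f, rfl⟩ := hx
    refine AddSubgroup.sum_mem _ fun s _ => ?_
    exact AddSubgroup.nsmul_mem _ (AddSubgroup.subset_closure s.2) _
  have hsub : ∀ R, Fr R + S ⊆ Fr (R + 1) := by
    intro R x hx
    rw [Finset.mem_add] at hx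
    obtain ⟨y, hy, s0, hs0, rfl⟩ := hx
    simp only [Fr, Finset.mem_image, Finset.mem_univ, true_and] at hy
    obtain ⟨f, rfl⟩ := hy
    simp only [Fr, Finset.mem_image, Finset.mem_univ, true_and]
    refine ⟨fun s => ⟨(f s : ℕ) + (if s = ⟨s0, hs0⟩ then 1 else 0), ?_⟩, ?_⟩
    · have := (f s).2
      split_ifs <;> omega
    · simp only [add_smul, Finset.sum_add_distrib]
      congr 1
      rw [Finset.sum_eq_single ⟨s0, hs0⟩]
      · simp
      · intro b _ hb
        rw [if_neg hb, zero_smul]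
      · intro h; exact absurd (Finset.mem_univ _) h
  have hcard : ∀ R, (Fr R).card ≤ (R + 1) ^ S.card := by
    intro R
    refine le_trans Finset.card_image_le ?_
    simp
  by_contra hcon
  push Not at hcon
  have hgrow : ∀ R, 5 ^ R ≤ 4 ^ R * (Fr R).card := by
    intro R
    induction R with
    | zero =>
      have := Finset.card_pos.mpr (hne 0)
      simpa using this
    | succ R ih =>
      have h1 := hcon (Fr R) (hne R) (hcl R)
      have h2 := Finset.card_le_card (hsub R)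
      calc 5 ^ (R + 1) = 5 * 5 ^ R := by ring
        _ ≤ 5 * (4 ^ R * (Fr R).card) := by gcongr
        _ = 4 ^ R * (5 * (Fr R).card) := by ring
        _ ≤ 4 ^ R * (4 * (Fr (R + 1)).card) := by
            gcongr 4 ^ R * ?_
            omega
        _ = 4 ^ (R + 1) * (Fr (R + 1)).card := by ring
  have hlim := tendsto_pow_const_mul_const_pow_of_abs_lt_one S.card
    (r := (4 / 5 : ℝ)) (by rw [abs_of_pos (by norm_num)]; norm_num)
  have hev : ∀ᶠ n : ℕ in atTop, (n : ℝ) ^ S.card * (4 / 5 : ℝ) ^ n < 4 / 5 :=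
    hlim.eventually (gt_mem_nhds (by norm_num))
  obtain ⟨n, hn⟩ := (hev.and (eventually_ge_atTop 1)).exists
  obtain ⟨R, rfl⟩ : ∃ R, n = R + 1 := ⟨n - 1, by omega⟩
  have h3 : (5 : ℝ) ^ R ≤ 4 ^ R * ((R : ℝ) + 1) ^ S.card := by
    have h4 : 5 ^ R ≤ 4 ^ R * (R + 1) ^ S.card :=
      le_trans (hgrow R) (Nat.mul_le_mul_left _ (hcard R))
    exact_mod_cast h4
  have h5 := hn.1
  push_cast at h5
  rw [pow_succ, div_pow] at h5
  have h6 : (0 : ℝ) < 5 ^ R := by positivity
  have h7 : ((R : ℝ) + 1) ^ S.card * (4 ^ R / 5 ^ R) < 1 := by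
    nlinarith
  rw [← mul_div_assoc, div_lt_one h6] at h7
  linarith [mul_comm ((R : ℝ) + 1) (4 ^ R), mul_comm (((R : ℝ) + 1) ^ S.card) (4 ^ R)]

section

variable (A B : ℕ → ℤ[X]) (p : ℕ → ℂ[X])

/-- The Gram bound at the level of the ultraproduct. -/
theorem gram_limit (hpA : ∀ n, l2le (p n * toC (A n)))
    (hpB : ∀ n, l2le (p n * toC (B n))) (c : ℝ) (hc : 0 < c) (hp : ∀ n, c ≤ ‖(p n).coeff 0‖)
    (F : Finset Gam) (hF : F.Nonempty)
    (hind : ∀ᶠ n in UU, LinearIndependent ℂ
      (fun (β : F × Bool) (γ : ℤ) => ((Ev A B n ((β.1 : Gam), β.2) γ : ℤ) : ℂ))) :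
    ∃ N : Fin (Fintype.card (F × Bool)) → Gam, StrictMono N ∧ (∀ j, F.min' hF ≤ N j) ∧
      ∀ (i : ℕ) (hi : i ≤ Fintype.card (F × Bool)), c ^ (2 * i) ≤
        (((Matrix.of fun (b : F × Bool) (j : Fin i) =>
            GG A B p b.2 (N (Fin.castLE hi j) - b.1))ᴴ *
          (Matrix.of fun (b : F × Bool) (j : Fin i) =>
            GG A B p b.2 (N (Fin.castLE hi j) - b.1))).det).re := by
  classical
  set k := Fintype.card (F × Bool) with hk
  have hmin : ∀ᶠ n in UU, ∀ γ ∈ F, rep (F.min' hF) n ≤ rep γ n := by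
    rw [Filter.eventually_all_finset]
    intro γ hγ
    have h1 : F.min' hF ≤ γ := Finset.min'_le F γ hγ
    rw [← rep_eq (F.min' hF), ← rep_eq γ] at h1
    exact Germ.coe_le.mp h1
  have hlev : ∀ᶠ n in UU, ∃ N : Fin k → ℤ, StrictMono N ∧ (∀ j, rep (F.min' hF) n ≤ N j) ∧
      ∀ (i : ℕ) (hi : i ≤ k),
        ‖(p n).coeff 0‖ ^ (2 * i) ≤
          (((Matrix.of fun (b : F × Bool) (j : Fin i) =>
              conv (p n) (fun γ => ((Ev A B n ((b.1 : Gam), b.2) γ : ℤ) : ℂ)) (N (Fin.castLE hi j)))ᴴ *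
            (Matrix.of fun (b : F × Bool) (j : Fin i) =>
              conv (p n) (fun γ => ((Ev A B n ((b.1 : Gam), b.2) γ : ℤ) : ℂ))
                (N (Fin.castLE hi j)))).det).re := by
    filter_upwards [hind, hmin] with n hn hmn
    obtain ⟨N, h1, h2, _, _, h5⟩ := level_gram
      (fun (b : F × Bool) => Ev A B n ((b.1 : Gam), b.2)) (rep (F.min' hF) n) (by
        intro b γ hγ
        unfold Ev zc
        have := hmn b.1 b.1.2
        rw [if_neg (by simp only; omega)]) k
      (by rw [finrank_span_eq_card hn]) (p n)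
    exact ⟨N, h1, h2, h5⟩
  obtain ⟨Nn, hNn⟩ := Filter.skolem.mp hlev
  refine ⟨fun j => ((fun n => Nn n j : ℕ → ℤ) : Gam), ?_, ?_, ?_⟩
  · intro i j hij
    show ((fun n => Nn n i : ℕ → ℤ) : Gam) < ((fun n => Nn n j : ℕ → ℤ) : Gam)
    rw [Germ.coe_lt]
    filter_upwards [hNn] with n hn
    exact hn.1 hij
  · intro j
    show F.min' hF ≤ ((fun n => Nn n j : ℕ → ℤ) : Gam)
    rw [← rep_eq (F.min' hF), Germ.coe_le]
    filter_upwards [hNn] with n hn
    exact hn.2.1 j
  · intro i hi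
    have hentry : ∀ (b : F × Bool) (j : Fin i),
        Tendsto (fun n => conv (p n) (fun γ => ((Ev A B n ((b.1 : Gam), b.2) γ : ℤ) : ℂ))
          (Nn n (Fin.castLE hi j))) UU
          (𝓝 (GG A B p b.2 (((fun n => Nn n (Fin.castLE hi j) : ℕ → ℤ) : Gam) - b.1))) := by
      intro b j
      have h1 : ∀ n, conv (p n) (fun γ => ((Ev A B n ((b.1 : Gam), b.2) γ : ℤ) : ℂ))
          (Nn n (Fin.castLE hi j)) = uu A B p b.2 n (Nn n (Fin.castLE hi j) - rep b.1 n) := by
        intro n
        unfold uu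
        rw [← conv_zc]
        congr 1
        funext γ
        unfold Ev
        rw [zc_toC]
      simp only [h1]
      refine GG_tendsto A B p hpA hpB b.2 _ _ ?_
      conv_rhs => rw [← rep_eq (b.1 : Gam)]
      rfl
    have hmat : Tendsto (fun n => (Matrix.of fun (b : F × Bool) (j : Fin i) =>
        conv (p n) (fun γ => ((Ev A B n ((b.1 : Gam), b.2) γ : ℤ) : ℂ))
          (Nn n (Fin.castLE hi j)))) UU
        (𝓝 (Matrix.of fun (b : F × Bool) (j : Fin i) =>
          GG A B p b.2 (((fun n => Nn n (Fin.castLE hi j) : ℕ → ℤ) : Gam) - b.1))) := by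
      exact tendsto_pi_nhds.mpr fun b => tendsto_pi_nhds.mpr fun j => hentry b j
    have hcont : Continuous (fun W : Matrix (F × Bool) (Fin i) ℂ => ((Wᴴ * W).det).re) :=
      Complex.continuous_re.comp
        ((continuous_id.matrix_conjTranspose.matrix_mul continuous_id).matrix_det)
    have hdet := (hcont.tendsto _).comp hmat
    refine ge_of_tendsto hdet ?_
    filter_upwards [hNn] with n hn
    refine le_trans ?_ (hn.2.2 i hi)
    exact pow_le_pow_left₀ hc.le (hp n) _

end

end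

end Pool.Agent.H261R2.CM
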