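import Pool.Agent.H261R2.CM.A
import Pool.Agent.H261R2.CM.D

/-!
# Task E: lower bound for Toeplitz determinants
-/

set_option autoImplicit false

namespace Pool.Agent.H261R2.CM

open Polynomial Filter MeasureTheory Matrix
open scoped ComplexOrder

noncomputable section

theorem E_ez_sub (a b : ℤ) (k l : ℕ) (h : a - b = (k : ℤ) - (l : ℤ)) (u : ℝ) :
    ez (((a - b : ℤ) : ℝ) * u) = ez u ^ k * (starRingEnd ℂ) (ez u ^ l) := by
  have h1 : (starRingEnd ℂ) (ez u ^ l) = Complex.exp (-((l : ℂ) * (2 * (Real.pi : ℂ) *
      Complex.I * (u : ℂ)))) := by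
    rw [ez, ← Complex.exp_nat_mul, ← Complex.exp_conj]
    congr 1
    simp only [map_mul, Complex.conj_I, Complex.conj_ofReal, map_natCast, map_ofNat]
    ring
  rw [h1, h, ez, ez, ← Complex.exp_nat_mul, ← Complex.exp_add]
  congr 1
  push_cast
  ring

/-- determinant of a triangular Toeplitz block -/
theorem E_det {τ : Type*} [Fintype τ] [DecidableEq τ] (m : τ → ℤ)
    (hm : Function.Injective m) (q : ℂ[X]) :
    (Matrix.of fun s t : τ => zc q (m t - m s)).det = q.coeff 0 ^ Fintype.card τ := by
  let _ : LinearOrder τ := LinearOrder.lift' m hm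
  rw [det_of_isUpperTriangular]
  · simp [zc]
  · intro i j hij
    have h1 : m j < m i := hij
    simp only [of_apply, zc]
    rw [if_neg (by omega)]

theorem toeplitz_lower {τ : Type*} [Fintype τ] [DecidableEq τ] (m : τ → ℤ)
    (hm : Function.Injective m) (w : ℝ → ℝ) (hw : Continuous w) (hper : Function.Periodic w 1)
    (hpos : ∀ t, 0 < w t) (M : Matrix τ τ ℂ)
    (hM : ∀ s t, M s t = ∫ u in (0:ℝ)..1, (w u : ℂ) * ez (((m s - m t : ℤ) : ℝ) * u)) :
    Real.exp (Fintype.card τ * ∫ u in (0:ℝ)..1, Real.log (w u)) ≤ M.det.re := by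
  -- natural exponents
  obtain ⟨a, ha⟩ : ∃ a : τ → ℕ, ∀ s t, m s - m t = (a s : ℤ) - (a t : ℤ) := by
    obtain ⟨K, hK⟩ : ∃ K : ℤ, ∀ s, 0 ≤ m s + K := by
      refine ⟨∑ s, |m s|, fun s => ?_⟩
      have h1 : |m s| ≤ ∑ s, |m s| :=
        Finset.single_le_sum (f := fun s => |m s|) (fun i _ => abs_nonneg _) (Finset.mem_univ s)
      have h2 := neg_abs_le (m s)
      linarith
    refine ⟨fun s => (m s + K).toNat, fun s t => ?_⟩
    rw [Int.toNat_of_nonneg (hK s), Int.toNat_of_nonneg (hK t)]
    ring
  have hainj : Function.Injective a := by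
    intro s t h
    apply hm
    have := ha s t
    rw [h] at this
    linarith
  -- the quadratic form of M
  have hwi : ∀ {g : ℝ → ℂ}, Continuous g →
      IntervalIntegrable (fun u => (w u : ℂ) * g u) volume 0 1 := fun hg =>
    ((Complex.continuous_ofReal.comp hw).mul hg).intervalIntegrable _ _
  have hMform : ∀ x : τ → ℂ, star x ⬝ᵥ (M *ᵥ x) =
      ((∫ u in (0:ℝ)..1, w u * ‖∑ s, (starRingEnd ℂ) (x s) * ez u ^ a s‖ ^ 2 : ℝ) : ℂ) := by
    intro x
    have h1 : star x ⬝ᵥ (M *ᵥ x) = ∑ s, ∑ t, ∫ u in (0:ℝ)..1, (w u : ℂ) *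
        ((starRingEnd ℂ) (x s) * ez u ^ a s * (x t * (starRingEnd ℂ) (ez u ^ a t))) := by
      simp only [dotProduct, mulVec, Finset.mul_sum]
      refine Finset.sum_congr rfl fun s _ => Finset.sum_congr rfl fun t _ => ?_
      rw [hM, Pi.star_apply, ← intervalIntegral.integral_mul_const,
        ← intervalIntegral.integral_const_mul]
      refine intervalIntegral.integral_congr fun u _ => ?_
      simp only [E_ez_sub _ _ _ _ (ha s t)]
      rw [RCLike.star_def]
      ring
    rw [h1, ← intervalIntegral.integral_ofReal]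
    have h2 : ∀ u : ℝ, ((w u * ‖∑ s, (starRingEnd ℂ) (x s) * ez u ^ a s‖ ^ 2 : ℝ) : ℂ) =
        ∑ s, ∑ t, (w u : ℂ) *
        ((starRingEnd ℂ) (x s) * ez u ^ a s * (x t * (starRingEnd ℂ) (ez u ^ a t))) := by
      intro u
      push_cast
      rw [← Complex.mul_conj', map_sum, Finset.sum_mul_sum, Finset.mul_sum]
      refine Finset.sum_congr rfl fun s _ => ?_
      rw [Finset.mul_sum]
      refine Finset.sum_congr rfl fun t _ => ?_
      rw [map_mul, Complex.conj_conj]
    have hci : ∀ s t : τ, IntervalIntegrable (fun u : ℝ => (w u : ℂ) *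
        ((starRingEnd ℂ) (x s) * ez u ^ a s * (x t * (starRingEnd ℂ) (ez u ^ a t))))
        volume 0 1 := fun s t => hwi
      ((continuous_const.mul (D_continuous_ez.pow _)).mul
        (continuous_const.mul (Complex.continuous_conj.comp (D_continuous_ez.pow _))))
    simp_rw [h2]
    rw [intervalIntegral.integral_finsetSum]
    · refine Finset.sum_congr rfl fun s _ => ?_
      rw [intervalIntegral.integral_finsetSum fun t _ => hci s t]
    · intro s _
      have := IntervalIntegrable.sum (Finset.univ : Finset τ) fun t _ => hci s t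
      simpa only [Finset.sum_fn, Finset.sum_apply] using this
  -- the key inequality for each ε
  have hkey : ∀ ε : ℝ, 0 < ε →
      Real.exp (Fintype.card τ * (∫ u in (0:ℝ)..1, Real.log (w u)) - 4 * Fintype.card τ * ε)
        ≤ M.det.re := by
    intro ε hε
    have hlogc : Continuous fun t => Real.log (w t) := hw.log fun t => (hpos t).ne'
    set ψ : ℝ → ℝ := fun t => (1 / 2) * Real.log (w t) - ε with hψ
    have hψc : Continuous ψ := (hlogc.const_mul _).sub continuous_const
    have hψp : Function.Periodic ψ 1 := fun t => by simp only [hψ, hper t]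
    obtain ⟨q, hq1, hq2⟩ := exp_poly_approx ψ hψc hψp ε hε
    have hqw : ∀ t : ℝ, ‖q.eval (ez t)‖ ^ 2 ≤ w t := by
      intro t
      have h1 := (hq1 t).2
      have h2 : Real.exp (ψ t + ε) ^ 2 = w t := by
        rw [← Real.exp_nat_mul]
        simp only [hψ]
        have : ((2 : ℕ) : ℝ) * (1 / 2 * Real.log (w t) - ε + ε) = Real.log (w t) := by
          push_cast; ring
        rw [this, Real.exp_log (hpos t)]
      rw [← h2]
      exact pow_le_pow_left₀ (norm_nonneg _) h1 2
    set Q : Matrix τ τ ℂ := Matrix.of fun s t : τ => zc q (m t - m s) with hQ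
    have hQdet : Q.det = q.coeff 0 ^ Fintype.card τ := E_det m hm q
    -- quadratic form of Q Qᴴ
    have hQform : ∀ x : τ → ℂ, star x ⬝ᵥ ((Q * Qᴴ) *ᵥ x) =
        ((∑ s, ‖∑ t, (starRingEnd ℂ) (x t) * zc q (m s - m t)‖ ^ 2 : ℝ) : ℂ) := by
      intro x
      rw [← mulVec_mulVec, dotProduct_mulVec]
      have h1 : star x ᵥ* Q = star (Qᴴ *ᵥ x) := by
        rw [star_mulVec, conjTranspose_conjTranspose]
      rw [h1, dotProduct]
      push_cast
      refine Finset.sum_congr rfl fun s _ => ?_
      have h2 : (Qᴴ *ᵥ x) s = (starRingEnd ℂ)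
          (∑ t, (starRingEnd ℂ) (x t) * zc q (m s - m t)) := by
        rw [map_sum]
        simp only [mulVec, dotProduct, conjTranspose_apply, hQ, of_apply]
        refine Finset.sum_congr rfl fun t _ => ?_
        rw [map_mul, Complex.conj_conj, RCLike.star_def, mul_comm]
      rw [Pi.star_apply, h2, RCLike.star_def, Complex.conj_conj, Complex.mul_conj']
    have hpsd : (M - Q * Qᴴ).PosSemidef := by
      have hform : ∀ x : τ → ℂ, star x ⬝ᵥ ((M - Q * Qᴴ) *ᵥ x) =
          (((∫ u in (0:ℝ)..1, w u * ‖∑ s, (starRingEnd ℂ) (x s) * ez u ^ a s‖ ^ 2)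
            - ∑ s, ‖∑ t, (starRingEnd ℂ) (x t) * zc q (m s - m t)‖ ^ 2 : ℝ) : ℂ) := by
        intro x
        rw [sub_mulVec, dotProduct_sub, hMform, hQform]
        push_cast
        rfl
      refine PosSemidef.of_dotProduct_mulVec_nonneg ?_ ?_
      · -- Hermitian
        have hMh : M.IsHermitian := by
          ext s t
          rw [conjTranspose_apply, hM, hM, RCLike.star_def, ← intervalIntegral.intervalIntegral_conj]
          refine intervalIntegral.integral_congr fun u _ => ?_
          simp only [E_ez_sub _ _ _ _ (ha s t), E_ez_sub _ _ _ _ (ha t s), map_mul,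
            Complex.conj_ofReal, Complex.conj_conj]
          ring
        exact hMh.sub (isHermitian_mul_conjTranspose_self Q)
      · intro x
        rw [hform]
        have hnn : 0 ≤ (∫ u in (0:ℝ)..1, w u * ‖∑ s, (starRingEnd ℂ) (x s) * ez u ^ a s‖ ^ 2)
            - ∑ s, ‖∑ t, (starRingEnd ℂ) (x t) * zc q (m s - m t)‖ ^ 2 := by
          set G : ℂ[X] := q * ∑ t, C ((starRingEnd ℂ) (x t)) * X ^ a t with hG
          have hGc : ∀ s, G.coeff (a s) = ∑ t, (starRingEnd ℂ) (x t) * zc q (m s - m t) := by
            intro s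
            rw [hG, Finset.mul_sum, finsetSum_coeff]
            refine Finset.sum_congr rfl fun t _ => ?_
            rw [mul_left_comm, coeff_C_mul, coeff_mul_X_pow', zc]
            congr 1
            by_cases h : a t ≤ a s
            · rw [if_pos h, if_pos (by rw [ha s t]; omega)]
              congr 1
              rw [ha s t]
              omega
            · rw [if_neg h, if_neg (by rw [ha s t]; omega)]
          have hpars := parseval G
          have h1 : ∑ s, ‖∑ t, (starRingEnd ℂ) (x t) * zc q (m s - m t)‖ ^ 2 ≤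
              ∑ j ∈ G.support, ‖G.coeff j‖ ^ 2 := by
            simp_rw [← hGc]
            rw [← Finset.sum_image (f := fun j => ‖G.coeff j‖ ^ 2) (s := Finset.univ) (g := a)
              fun s _ t _ h => hainj h]
            rw [← Finset.sum_filter_add_sum_filter_not (Finset.image a Finset.univ)
              (fun j => j ∈ G.support)]
            rw [Finset.sum_eq_zero (s := Finset.filter (fun j => ¬_) _), add_zero]
            · refine Finset.sum_le_sum_of_subset_of_nonneg ?_ fun _ _ _ => by positivity
              intro j hj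
              exact (Finset.mem_filter.mp hj).2
            · intro j hj
              have := (Finset.mem_filter.mp hj).2
              rw [notMem_support_iff] at this
              rw [this]
              simp
          have h2 : (∫ t in (0:ℝ)..1, ‖G.eval (ez t)‖ ^ 2) ≤
              ∫ u in (0:ℝ)..1, w u * ‖∑ s, (starRingEnd ℂ) (x s) * ez u ^ a s‖ ^ 2 := by
            refine intervalIntegral.integral_mono_on zero_le_one
              (((G.continuous.comp D_continuous_ez).norm.pow 2).intervalIntegrable _ _) ?_ ?_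
            · refine (hw.mul (Continuous.pow (Continuous.norm ?_) 2)).intervalIntegrable _ _
              exact continuous_finsetSum _ fun s _ =>
                continuous_const.mul (D_continuous_ez.pow _)
            · intro u _
              have h3 : G.eval (ez u) = q.eval (ez u) *
                  ∑ s, (starRingEnd ℂ) (x s) * ez u ^ a s := by
                rw [hG, eval_mul, eval_finsetSum]
                congr 1
                refine Finset.sum_congr rfl fun t _ => ?_
                simp
              rw [h3, norm_mul, mul_pow]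
              exact mul_le_mul_of_nonneg_right (hqw u) (by positivity)
          linarith
        exact_mod_cast hnn
    have hdet := det_ge_of_posSemidef_sub M Q hpsd
    rw [hQdet] at hdet
    refine le_trans ?_ hdet
    rw [norm_pow, ← pow_mul]
    have h3 : (∫ t in (0:ℝ)..1, ψ t) = (1 / 2) * (∫ t in (0:ℝ)..1, Real.log (w t)) - ε := by
      simp only [hψ]
      rw [intervalIntegral.integral_sub ((hlogc.const_mul _).intervalIntegrable _ _) (by simp),
        intervalIntegral.integral_const_mul]
      simp
    rw [h3] at hq2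
    calc Real.exp (Fintype.card τ * (∫ u in (0:ℝ)..1, Real.log (w u)) - 4 * Fintype.card τ * ε)
        = Real.exp ((1 / 2) * (∫ t in (0:ℝ)..1, Real.log (w t)) - ε - ε)
            ^ (Fintype.card τ * 2) := by
          rw [← Real.exp_nat_mul]
          congr 1
          push_cast
          ring
      _ ≤ ‖q.coeff 0‖ ^ (Fintype.card τ * 2) := pow_le_pow_left₀ (Real.exp_pos _).le hq2 _
  -- let ε → 0
  have hlim : Tendsto (fun ε : ℝ => Real.exp (Fintype.card τ *
      (∫ u in (0:ℝ)..1, Real.log (w u)) - 4 * Fintype.card τ * ε)) (nhdsWithin 0 (Set.Ioi 0))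
      (nhds (Real.exp (Fintype.card τ * ∫ u in (0:ℝ)..1, Real.log (w u)))) := by
    have hc : Continuous fun ε : ℝ => Real.exp (Fintype.card τ *
      (∫ u in (0:ℝ)..1, Real.log (w u)) - 4 * Fintype.card τ * ε) := by fun_prop
    have := (hc.tendsto 0).mono_left (nhdsWithin_le_nhds (s := Set.Ioi (0:ℝ)))
    simpa using this
  exact le_of_tendsto hlim (eventually_nhdsWithin_of_forall fun ε hε => hkey ε hε)

end

end Pool.Agent.H261R2.CM
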