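import Pool.Agent.H261R2.CM.Defs

/-!
# Task F: torus (equidistribution, regularised Mahler measure in several variables)
-/

set_option autoImplicit false

namespace Pool.Agent.H261R2.CM

open Polynomial Filter MeasureTheory

noncomputable section

/-! ### The torus -/

/-- the point of the torus below `t` -/
def F_pt {k : ℕ} (t : Fin k → ℝ) : UnitAddTorus (Fin k) := fun i => ((t i : ℝ) : UnitAddCircle)

lemma F_continuous_pt {k : ℕ} : Continuous (F_pt (k := k)) := by
  unfold F_pt
  refine continuous_pi fun i => ?_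
  exact (AddCircle.continuous_mk' (1:ℝ)).comp (continuous_apply i)

/-- the curve `t ↦ (e i * t)` -/
def F_cv {k : ℕ} (e : Fin k → ℕ) (t : ℝ) : Fin k → ℝ := fun i => (e i : ℝ) * t

lemma F_continuous_cv {k : ℕ} (e : Fin k → ℕ) : Continuous (F_cv e) := by
  unfold F_cv
  fun_prop

lemma F_mFourier_pt {k : ℕ} (s : Fin k → ℤ) (t : Fin k → ℝ) :
    UnitAddTorus.mFourier s (F_pt t) =
      ∏ i, Complex.exp (2 * (Real.pi : ℂ) * Complex.I * (s i) * ((t i : ℝ) : ℂ)) := by
  simp only [UnitAddTorus.mFourier, F_pt, ContinuousMap.coe_mk, fourier_coe_apply]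
  simp

lemma F_int_exp (m : ℤ) :
    ∫ t in (0:ℝ)..1, Complex.exp (2 * (Real.pi : ℂ) * Complex.I * m * ((t : ℝ) : ℂ)) =
      if m = 0 then 1 else 0 := by
  split_ifs with h
  · subst h
    simp
  · have hc : (2 * (Real.pi : ℂ) * Complex.I * m) ≠ 0 := by
      have hpi : (Real.pi : ℂ) ≠ 0 := by exact_mod_cast Real.pi_ne_zero
      have : (m : ℂ) ≠ 0 := by exact_mod_cast h
      simp [hpi, this, Complex.I_ne_zero]
    rw [integral_exp_mul_complex hc]
    have : Complex.exp (2 * (Real.pi : ℂ) * Complex.I * m * ((1:ℝ) : ℂ)) = 1 := by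
      rw [Complex.exp_eq_one_iff]
      exact ⟨m, by push_cast; ring⟩
    rw [this]
    simp

lemma F_restrict_cube (k : ℕ) :
    (volume : Measure (Fin k → ℝ)).restrict (Set.Icc (0 : Fin k → ℝ) 1) =
      Measure.pi (fun _ : Fin k => (volume : Measure ℝ).restrict (Set.Icc 0 1)) := by
  rw [← Set.pi_univ_Icc, volume_pi, Measure.restrict_pi_pi]
  rfl

lemma F_int_cube (k : ℕ) (s : Fin k → ℤ) :
    ∫ t in Set.Icc (0 : Fin k → ℝ) 1, UnitAddTorus.mFourier s (F_pt t) =
      if s = 0 then 1 else 0 := by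
  rw [F_restrict_cube]
  simp_rw [F_mFourier_pt]
  rw [integral_fintype_prod_eq_prod (μ := fun _ : Fin k => (volume : Measure ℝ).restrict (Set.Icc 0 1))
    (fun (i : Fin k) (x : ℝ) => Complex.exp (2 * (Real.pi : ℂ) * Complex.I * (s i) * ((x : ℝ) : ℂ)))]
  have h1 : ∀ i : Fin k, ∫ x in Set.Icc (0:ℝ) 1,
      Complex.exp (2 * (Real.pi : ℂ) * Complex.I * (s i) * ((x : ℝ) : ℂ)) =
      if s i = 0 then 1 else 0 := by
    intro i
    rw [← F_int_exp (s i), intervalIntegral.integral_of_le zero_le_one,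
      integral_Icc_eq_integral_Ioc]
  simp_rw [h1]
  split_ifs with h
  · subst h
    simp
  · obtain ⟨i, hi⟩ := Function.ne_iff.mp h
    apply Finset.prod_eq_zero (Finset.mem_univ i)
    simpa using hi

lemma F_mFourier_cv {k : ℕ} (s : Fin k → ℤ) (e : Fin k → ℕ) (t : ℝ) :
    UnitAddTorus.mFourier s (F_pt (F_cv e t)) =
      Complex.exp (2 * (Real.pi : ℂ) * Complex.I * ((∑ i, s i * (e i : ℤ) : ℤ) : ℂ) * ((t : ℝ) : ℂ)) := by
  rw [F_mFourier_pt, ← Complex.exp_sum]
  congr 1
  simp only [F_cv]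
  push_cast
  rw [Finset.mul_sum, Finset.sum_mul]
  refine Finset.sum_congr rfl fun i _ => ?_
  ring

instance F_isProb (k : ℕ) :
    IsProbabilityMeasure ((volume : Measure (Fin k → ℝ)).restrict (Set.Icc (0 : Fin k → ℝ) 1)) := by
  constructor
  rw [Measure.restrict_apply_univ, Real.volume_Icc_pi]
  simp

/-- key lemma: equidistribution -/
lemma F_equidist {k : ℕ} (𝓕 : Filter ℕ) (e : ℕ → Fin k → ℕ) (he : AsympIndep 𝓕 e)
    (G : C(UnitAddTorus (Fin k), ℂ)) :
    Tendsto (fun n => ∫ t in (0:ℝ)..1, G (F_pt (F_cv (e n) t))) 𝓕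
      (nhds (∫ t in Set.Icc (0 : Fin k → ℝ) 1, G (F_pt t))) := by
  -- integrability
  have hi1 : ∀ (G : C(UnitAddTorus (Fin k), ℂ)) (e : Fin k → ℕ),
      IntervalIntegrable (fun t => G (F_pt (F_cv e t))) volume 0 1 := by
    intro G e
    apply Continuous.intervalIntegrable
    exact G.continuous.comp (F_continuous_pt.comp (F_continuous_cv e))
  have hi2 : ∀ (G : C(UnitAddTorus (Fin k), ℂ)),
      IntegrableOn (fun t => G (F_pt t)) (Set.Icc (0 : Fin k → ℝ) 1) := by
    intro G
    apply Continuous.integrableOn_Icc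
    exact G.continuous.comp F_continuous_pt
  -- bounds
  have hb1 : ∀ (G H : C(UnitAddTorus (Fin k), ℂ)) (e : Fin k → ℕ),
      ‖(∫ t in (0:ℝ)..1, G (F_pt (F_cv e t))) - ∫ t in (0:ℝ)..1, H (F_pt (F_cv e t))‖ ≤ ‖G - H‖ := by
    intro G H e
    rw [← intervalIntegral.integral_sub (hi1 G e) (hi1 H e)]
    have := intervalIntegral.norm_integral_le_of_norm_le_const (a := (0:ℝ)) (b := 1) (C := ‖G - H‖)
      (f := fun t => G (F_pt (F_cv e t)) - H (F_pt (F_cv e t)))
      (fun x _ => by
        have := (G - H).norm_coe_le_norm (F_pt (F_cv e x))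
        simpa using this)
    simpa using this
  have hb2 : ∀ (G H : C(UnitAddTorus (Fin k), ℂ)),
      ‖(∫ t in Set.Icc (0 : Fin k → ℝ) 1, G (F_pt t)) -
        ∫ t in Set.Icc (0 : Fin k → ℝ) 1, H (F_pt t)‖ ≤ ‖G - H‖ := by
    intro G H
    rw [← integral_sub (hi2 G) (hi2 H)]
    have := norm_integral_le_of_norm_le_const
      (μ := (volume : Measure (Fin k → ℝ)).restrict (Set.Icc (0 : Fin k → ℝ) 1)) (C := ‖G - H‖)
      (f := fun t => G (F_pt t) - H (F_pt t))
      (Eventually.of_forall (fun x => by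
        have := (G - H).norm_coe_le_norm (F_pt x)
        simpa using this))
    simpa using this
  let S : Submodule ℂ C(UnitAddTorus (Fin k), ℂ) :=
    { carrier := {G | Tendsto (fun n => ∫ t in (0:ℝ)..1, G (F_pt (F_cv (e n) t))) 𝓕
        (nhds (∫ t in Set.Icc (0 : Fin k → ℝ) 1, G (F_pt t)))}
      add_mem' := by
        intro G H hG hH
        simp only [Set.mem_ofPred_eq, ContinuousMap.add_apply] at hG hH ⊢
        have h1 := hG.add hH
        rw [← integral_add (hi2 G) (hi2 H)] at h1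
        refine h1.congr fun n => ?_
        rw [intervalIntegral.integral_add (hi1 G _) (hi1 H _)]
      zero_mem' := by
        simp only [Set.mem_ofPred_eq, ContinuousMap.zero_apply]
        simp only [intervalIntegral.integral_zero, integral_zero]
        exact tendsto_const_nhds
      smul_mem' := by
        intro c G hG
        simp only [Set.mem_ofPred_eq, ContinuousMap.smul_apply] at hG ⊢
        have h1 := hG.const_smul c
        rw [← integral_smul] at h1
        refine h1.congr fun n => ?_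
        rw [intervalIntegral.integral_smul] }
  have hSclosed : IsClosed (S : Set C(UnitAddTorus (Fin k), ℂ)) := by
    apply isClosed_of_closure_subset
    intro G hG
    rw [Metric.mem_closure_iff] at hG
    change Tendsto _ _ _
    rw [Metric.tendsto_nhds]
    intro ε hε
    obtain ⟨H, hH, hGH⟩ := hG (ε / 3) (by positivity)
    have hH' : Tendsto (fun n => ∫ t in (0:ℝ)..1, H (F_pt (F_cv (e n) t))) 𝓕
        (nhds (∫ t in Set.Icc (0 : Fin k → ℝ) 1, H (F_pt t))) := hH
    rw [Metric.tendsto_nhds] at hH'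
    filter_upwards [hH' (ε / 3) (by positivity)] with n hn
    rw [dist_eq_norm] at hGH
    have h1 := hb1 G H (e n)
    have h2 := hb2 H G
    rw [norm_sub_rev H G] at h2
    rw [← dist_eq_norm] at h1 h2
    calc dist _ _ ≤ _ := dist_triangle4 _ (∫ t in (0:ℝ)..1, H (F_pt (F_cv (e n) t)))
          (∫ t in Set.Icc (0 : Fin k → ℝ) 1, H (F_pt t)) _
      _ < ε := by linarith
  have hspan : Submodule.span ℂ (Set.range (UnitAddTorus.mFourier (d := Fin k))) ≤ S := by
    rw [Submodule.span_le]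
    rintro _ ⟨s, rfl⟩
    change Tendsto _ _ _
    rw [F_int_cube]
    simp_rw [F_mFourier_cv]
    simp_rw [F_int_exp]
    split_ifs with h
    · subst h
      simp only [Pi.zero_apply, zero_mul, Finset.sum_const_zero, if_true]
      exact tendsto_const_nhds
    · have := he s h
      refine Tendsto.congr' ?_ tendsto_const_nhds
      filter_upwards [this] with n hn
      rw [if_neg hn]
  have htop : (Submodule.span ℂ (Set.range (UnitAddTorus.mFourier (d := Fin k)))).topologicalClosure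
      ≤ S := Submodule.topologicalClosure_minimal _ hspan hSclosed
  rw [UnitAddTorus.span_mFourier_closure_eq_top] at htop
  exact htop (Submodule.mem_top : G ∈ ⊤)

/-! ### Trigonometric polynomials -/

/-- the function on the torus defined by an integer polynomial -/
def F_G {k : ℕ} (C : MvPolynomial (Fin k) ℤ) : C(UnitAddTorus (Fin k), ℂ) :=
  ∑ s ∈ C.support, ((C.coeff s : ℤ) : ℂ) • UnitAddTorus.mFourier (fun i => (s i : ℤ))

lemma F_tv {k : ℕ} (C : MvPolynomial (Fin k) ℤ) (t : Fin k → ℝ) : tv C t = F_G C (F_pt t) := by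
  unfold tv F_G
  rw [MvPolynomial.eval_map, MvPolynomial.eval₂_eq']
  rw [ContinuousMap.coe_sum, Finset.sum_apply]
  refine Finset.sum_congr rfl fun s _ => ?_
  rw [ContinuousMap.smul_apply, F_mFourier_pt, smul_eq_mul]
  congr 1
  refine Finset.prod_congr rfl fun i _ => ?_
  rw [← Complex.exp_nat_mul]
  congr 1
  push_cast
  ring

lemma F_ev1 {k : ℕ} (C : MvPolynomial (Fin k) ℤ) (e : Fin k → ℕ) (t : ℝ) :
    ev1 (spec e C) t = tv C (F_cv e t) := by
  unfold ev1 tv toC
  rw [Polynomial.eval_map]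
  have h : (Polynomial.eval₂RingHom (Int.castRingHom ℂ) (ez t)).comp
      ((spec e : MvPolynomial (Fin k) ℤ →ₐ[ℤ] ℤ[X]) : MvPolynomial (Fin k) ℤ →+* ℤ[X]) =
      (MvPolynomial.eval (fun j : Fin k =>
        Complex.exp (2 * (Real.pi : ℂ) * Complex.I * ((F_cv e t j : ℝ) : ℂ)))).comp
        (MvPolynomial.map (Int.castRingHom ℂ)) := by
    apply MvPolynomial.ringHom_ext
    · intro r
      simp
    · intro i
      simp only [RingHom.comp_apply, spec, RingHom.coe_coe, MvPolynomial.aeval_X,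
        Polynomial.coe_eval₂RingHom, Polynomial.eval₂_X_pow, MvPolynomial.map_X,
        MvPolynomial.eval_X, ez, F_cv]
      rw [← Complex.exp_nat_mul]
      congr 1
      push_cast
      ring
  exact DFunLike.congr_fun h C

lemma F_continuous_tv {k : ℕ} (C : MvPolynomial (Fin k) ℤ) : Continuous (tv C) := by
  have : tv C = fun t => F_G C (F_pt t) := by
    funext t
    exact F_tv C t
  rw [this]
  exact (F_G C).continuous.comp F_continuous_pt

/-- real version of the equidistribution lemma -/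
lemma F_equidist_real {k : ℕ} (𝓕 : Filter ℕ) (e : ℕ → Fin k → ℕ) (he : AsympIndep 𝓕 e)
    (g : UnitAddTorus (Fin k) → ℝ) (hg : Continuous g) :
    Tendsto (fun n => ∫ t in (0:ℝ)..1, g (F_pt (F_cv (e n) t))) 𝓕
      (nhds (∫ t in Set.Icc (0 : Fin k → ℝ) 1, g (F_pt t))) := by
  have h := F_equidist 𝓕 e he ⟨fun x => ((g x : ℝ) : ℂ), Complex.continuous_ofReal.comp hg⟩
  simp only [ContinuousMap.coe_mk] at h
  simp_rw [intervalIntegral.integral_ofReal] at h
  rw [integral_complex_ofReal] at h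
  have h2 := (Complex.continuous_re.tendsto _).comp h
  simpa [Function.comp_def] using h2

theorem equidist_log {k : ℕ} (𝓕 : Filter ℕ) (e : ℕ → Fin k → ℕ) (he : AsympIndep 𝓕 e)
    (C D : MvPolynomial (Fin k) ℤ) (δ : ℝ) (hδ : 0 < δ) :
    Tendsto (fun n => ∫ t in (0:ℝ)..1,
        Real.log (‖ev1 (spec (e n) C) t‖ ^ 2 + ‖ev1 (spec (e n) D) t‖ ^ 2 + δ)) 𝓕
      (nhds (∫ t in Set.Icc (0 : Fin k → ℝ) 1,
        Real.log (‖tv C t‖ ^ 2 + ‖tv D t‖ ^ 2 + δ))) := by
  have hg : Continuous fun x : UnitAddTorus (Fin k) =>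
      Real.log (‖F_G C x‖ ^ 2 + ‖F_G D x‖ ^ 2 + δ) := by
    apply Continuous.log
    · have h1 := (F_G C).continuous
      have h2 := (F_G D).continuous
      fun_prop
    · intro x
      positivity
  have h := F_equidist_real 𝓕 e he _ hg
  simp only [F_ev1, F_tv]
  exact h

lemma F_periodic {k : ℕ} (t : Fin k → ℝ) :
    F_pt t = F_pt (fun i => Int.fract (t i)) := by
  funext i
  simp only [F_pt]
  rw [← sub_eq_zero, ← AddCircle.coe_sub, AddCircle.coe_eq_zero_iff]
  refine ⟨⌊t i⌋, ?_⟩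
  simp [Int.self_sub_fract]

theorem norm_eq_of_spec {k : ℕ} (𝓕 : Filter ℕ) [𝓕.NeBot] (e : ℕ → Fin k → ℕ)
    (he : AsympIndep 𝓕 e) (C D : MvPolynomial (Fin k) ℤ)
    (h : ∀ᶠ n in 𝓕, ∀ t : ℝ, ‖ev1 (spec (e n) C) t‖ = ‖ev1 (spec (e n) D) t‖) :
    ∀ t : Fin k → ℝ, ‖tv C t‖ = ‖tv D t‖ := by
  set g : UnitAddTorus (Fin k) → ℝ := fun x => (‖F_G C x‖ - ‖F_G D x‖) ^ 2 with hgdef
  have hg : Continuous g := by
    have h1 := (F_G C).continuous
    have h2 := (F_G D).continuous
    fun_prop
  have h1 := F_equidist_real 𝓕 e he g hg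
  have h0 : ∫ t in Set.Icc (0 : Fin k → ℝ) 1, g (F_pt t) = 0 := by
    refine tendsto_nhds_unique h1 ?_
    refine Tendsto.congr' ?_ tendsto_const_nhds
    filter_upwards [h] with n hn
    symm
    have : ∀ t : ℝ, g (F_pt (F_cv (e n) t)) = 0 := by
      intro t
      have := hn t
      rw [F_ev1, F_ev1, F_tv, F_tv] at this
      simp [hgdef, this]
    simp [this]
  have hgc : Continuous fun t => g (F_pt t) := hg.comp F_continuous_pt
  rw [setIntegral_eq_zero_iff_of_nonneg_ae (Eventually.of_forall fun t => sq_nonneg _)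
    hgc.integrableOn_Icc] at h0
  have hsub : Set.Icc (0 : Fin k → ℝ) 1 ⊆ closure (interior (Set.Icc (0 : Fin k → ℝ) 1)) := by
    rw [← Set.pi_univ_Icc, interior_pi_set Set.finite_univ, closure_pi_set]
    apply Set.pi_mono
    intro i _
    simp only [Pi.zero_apply, Pi.one_apply]
    rw [interior_Icc, closure_Ioo (by norm_num)]
  have h2 : Set.EqOn (fun t => g (F_pt t)) 0 (Set.Icc (0 : Fin k → ℝ) 1) :=
    Measure.eqOn_of_ae_eq h0 hgc.continuousOn continuousOn_const hsub
  intro t
  rw [F_tv, F_tv, F_periodic t]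
  have h3 := h2 (x := fun i => Int.fract (t i))
    ⟨fun i => by simp [Int.fract_nonneg], fun i => by simpa using (Int.fract_lt_one (t i)).le⟩
  simp only [hgdef, Pi.zero_apply] at h3
  have h4 := pow_eq_zero_iff (n := 2) (by norm_num) |>.mp h3
  linarith

lemma F_spec_eq {k : ℕ} (e : Fin k → ℕ) (C : MvPolynomial (Fin k) ℤ) :
    spec e C = ∑ s ∈ C.support, Polynomial.C (C.coeff s) * X ^ (∑ i, s i * e i) := by
  unfold spec
  rw [MvPolynomial.aeval_def, MvPolynomial.eval₂_eq']
  refine Finset.sum_congr rfl fun s _ => ?_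
  congr 1
  rw [← Finset.prod_pow_eq_pow_sum]
  refine Finset.prod_congr rfl fun i _ => ?_
  rw [← pow_mul, mul_comm]

theorem spec_ne_zero {k : ℕ} (𝓕 : Filter ℕ) (e : ℕ → Fin k → ℕ)
    (he : AsympIndep 𝓕 e) (C : MvPolynomial (Fin k) ℤ) (hC : C ≠ 0) :
    ∀ᶠ n in 𝓕, spec (e n) C ≠ 0 := by
  obtain ⟨s0, hs0⟩ := MvPolynomial.support_nonempty.mpr hC
  have h1 : ∀ᶠ n in 𝓕, ∀ s ∈ C.support, s ≠ s0 → ∑ i, s i * e n i ≠ ∑ i, s0 i * e n i := by
    rw [eventually_all_finset]
    intro s _
    by_cases hs : s = s0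
    · exact Eventually.of_forall fun n h => absurd hs h
    · have hne : (fun i => (s i : ℤ) - (s0 i : ℤ)) ≠ 0 := by
        intro h
        apply hs
        ext i
        have := congrFun h i
        simp only [Pi.zero_apply] at this
        omega
      filter_upwards [he _ hne] with n hn _ heq
      apply hn
      have h2 : ((∑ i, s i * e n i : ℕ) : ℤ) = ((∑ i, s0 i * e n i : ℕ) : ℤ) := by rw [heq]
      push_cast at h2
      simp only [sub_mul, Finset.sum_sub_distrib]
      linarith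
  filter_upwards [h1] with n hn h0
  have hc : (spec (e n) C).coeff (∑ i, s0 i * e n i) = C.coeff s0 := by
    rw [F_spec_eq, Polynomial.finsetSum_coeff]
    rw [Finset.sum_eq_single s0]
    · simp
    · intro s hs hne
      rw [Polynomial.coeff_C_mul, Polynomial.coeff_X_pow, if_neg (hn s hs hne).symm, mul_zero]
    · intro h
      exact absurd hs0 h
  rw [h0] at hc
  simp only [Polynomial.coeff_zero] at hc
  exact (MvPolynomial.mem_support_iff.mp hs0) hc.symm

theorem asympIndep_pow (k : ℕ) : AsympIndep Filter.atTop (fun (n : ℕ) (i : Fin k) => n ^ (i : ℕ)) := by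
  intro s hs
  obtain ⟨j, hj⟩ := Function.ne_iff.mp hs
  set P : ℤ[X] := ∑ i : Fin k, Polynomial.C (s i) * X ^ (i : ℕ) with hP
  have hP0 : P ≠ 0 := by
    intro h
    apply hj
    have : P.coeff (j : ℕ) = s j := by
      rw [hP, Polynomial.finsetSum_coeff, Finset.sum_eq_single j]
      · simp
      · intro i _ hij
        rw [Polynomial.coeff_C_mul, Polynomial.coeff_X_pow, if_neg, mul_zero]
        intro h'
        exact hij (Fin.ext h'.symm)
      · intro h'
        exact absurd (Finset.mem_univ j) h'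
    rw [h] at this
    simpa using this.symm
  have hfin : {n : ℕ | P.eval (n : ℤ) = 0}.Finite := by
    have h1 : {x : ℤ | P.IsRoot x}.Finite := Polynomial.finite_setOfPred_isRoot hP0
    exact h1.preimage (Nat.cast_injective.injOn (s := _))
  rw [← Nat.cofinite_eq_atTop]
  filter_upwards [hfin.compl_mem_cofinite] with n hn h0
  apply hn
  simp only [Set.mem_ofPred_eq, hP, Polynomial.eval_finsetSum, Polynomial.eval_mul,
    Polynomial.eval_C, Polynomial.eval_pow, Polynomial.eval_X]
  simpa using h0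

/-! ### Regularised Mahler measure -/

lemma F_toC_ne {A : ℤ[X]} (hA : A ≠ 0) : toC A ≠ 0 := by
  unfold toC
  intro h
  exact hA ((Polynomial.map_eq_zero_iff (RingHom.injective_int (Int.castRingHom ℂ))).mp h)

lemma F_one_le_m1 {A : ℤ[X]} (hA : A ≠ 0) : 1 ≤ (toC A).mahlerMeasure := by
  apply Polynomial.one_le_mahlerMeasure_of_one_le_norm_leadingCoeff
  unfold toC
  rw [Polynomial.leadingCoeff_map_of_injective (RingHom.injective_int (Int.castRingHom ℂ))]
  have h1 : A.leadingCoeff ≠ 0 := Polynomial.leadingCoeff_ne_zero.mpr hA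
  have h2 : 1 ≤ |A.leadingCoeff| := Int.one_le_abs h1
  simp only [eq_intCast, Complex.norm_intCast]
  exact_mod_cast h2

/-- the regularised integral is nonnegative for nonzero integer polynomials in one variable -/
lemma F_one_var {A : ℤ[X]} (hA : A ≠ 0) (δ : ℝ) (hδ : 0 < δ) :
    0 ≤ ∫ t in (0:ℝ)..1, Real.log (‖ev1 A t‖ ^ 2 + δ) := by
  have hP := F_toC_ne hA
  set P := toC A with hPdef
  -- change of variable
  have h1 : ∫ t in (0:ℝ)..1, Real.log (‖ev1 A t‖ ^ 2 + δ) =
      (2 * Real.pi)⁻¹ * ∫ θ in (0:ℝ)..(2 * Real.pi), Real.log (‖P.eval (circleMap 0 1 θ)‖ ^ 2 + δ) := by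
    have := intervalIntegral.integral_comp_mul_left (a := (0:ℝ)) (b := 1)
      (fun θ => Real.log (‖P.eval (circleMap 0 1 θ)‖ ^ 2 + δ)) (c := 2 * Real.pi) (by positivity)
    simp only [mul_zero, mul_one, smul_eq_mul] at this
    rw [← this]
    refine intervalIntegral.integral_congr fun t _ => ?_
    simp only [ev1, ez, circleMap, zero_add, Complex.ofReal_one, one_mul, ← hPdef]
    push_cast
    congr 5
    ring_nf
  rw [h1]
  have h2 : 0 ≤ Polynomial.logMahlerMeasure P := by
    rw [Polynomial.logMahlerMeasure_eq_log_MahlerMeasure]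
    exact Real.log_nonneg (F_one_le_m1 hA)
  rw [Polynomial.logMahlerMeasure_def, Real.circleAverage_def, smul_eq_mul] at h2
  have hint1 : IntervalIntegrable (fun θ => Real.log ‖P.eval (circleMap 0 1 θ)‖) volume 0 (2 * Real.pi) :=
    Polynomial.intervalIntegrable_mahlerMeasure P
  have hcont : Continuous fun θ : ℝ => Real.log (‖P.eval (circleMap 0 1 θ)‖ ^ 2 + δ) := by
    apply Continuous.log
    · have := P.continuous.comp (continuous_circleMap 0 1)
      exact (this.norm.pow 2).add continuous_const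
    · intro x
      positivity
  have hint2 : IntervalIntegrable (fun θ => Real.log (‖P.eval (circleMap 0 1 θ)‖ ^ 2 + δ)) volume 0
      (2 * Real.pi) := hcont.intervalIntegrable _ _
  have hnull : ∀ᵐ θ : ℝ, P.eval (circleMap 0 1 θ) ≠ 0 := by
    have hc : (circleMap 0 1 ⁻¹' {z | P.IsRoot z}).Countable :=
      (Polynomial.finite_setOfPred_isRoot hP).countable.preimage_circleMap 0 one_ne_zero
    have := hc.measure_zero volume
    rw [ae_iff]
    convert this using 2
    ext θ
    simp [Polynomial.IsRoot]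
  have hmono : ∫ θ in (0:ℝ)..(2 * Real.pi), 2 * Real.log ‖P.eval (circleMap 0 1 θ)‖ ≤
      ∫ θ in (0:ℝ)..(2 * Real.pi), Real.log (‖P.eval (circleMap 0 1 θ)‖ ^ 2 + δ) := by
    apply intervalIntegral.integral_mono_ae (by positivity) (hint1.const_mul 2) hint2
    filter_upwards [hnull] with θ hθ
    have h3 : 0 < ‖P.eval (circleMap 0 1 θ)‖ := norm_pos_iff.mpr hθ
    have h4 : 2 * Real.log ‖P.eval (circleMap 0 1 θ)‖ = Real.log (‖P.eval (circleMap 0 1 θ)‖ ^ 2) := by
      rw [Real.log_pow]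
      norm_num
    rw [h4]
    apply Real.log_le_log (by positivity)
    linarith
  have h5 : ∫ θ in (0:ℝ)..(2 * Real.pi), 2 * Real.log ‖P.eval (circleMap 0 1 θ)‖ =
      2 * ∫ θ in (0:ℝ)..(2 * Real.pi), Real.log ‖P.eval (circleMap 0 1 θ)‖ :=
    intervalIntegral.integral_const_mul _ _
  have hpi : 0 < (2 * Real.pi)⁻¹ := by positivity
  have h6 : 0 ≤ ∫ θ in (0:ℝ)..(2 * Real.pi), Real.log ‖P.eval (circleMap 0 1 θ)‖ := by
    by_contra hneg
    push Not at hneg
    have := mul_neg_of_pos_of_neg hpi hneg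
    linarith
  apply mul_nonneg hpi.le
  linarith

/-- the regularised integral is nonnegative in `k` variables -/
lemma F_cube_nonneg {k : ℕ} {C : MvPolynomial (Fin k) ℤ} (hC : C ≠ 0) (δ : ℝ) (hδ : 0 < δ) :
    0 ≤ ∫ t in Set.Icc (0 : Fin k → ℝ) 1, Real.log (‖tv C t‖ ^ 2 + δ) := by
  have h := equidist_log atTop _ (asympIndep_pow k) C 0 δ hδ
  have h0 : ∀ t : Fin k → ℝ, tv (0 : MvPolynomial (Fin k) ℤ) t = 0 := by
    intro t
    simp [tv]
  have h1 : ∀ t : ℝ, ev1 (0 : ℤ[X]) t = 0 := by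
    intro t
    simp [ev1, toC]
  simp only [h0, map_zero, h1, norm_zero, ne_eq, OfNat.ofNat_ne_zero, not_false_eq_true, zero_pow,
    add_zero] at h
  refine ge_of_tendsto h ?_
  filter_upwards [spec_ne_zero atTop _ (asympIndep_pow k) C hC] with n hn
  exact F_one_var hn δ hδ

lemma F_cont_f {k : ℕ} (C : MvPolynomial (Fin k) ℤ) (δ : ℝ) (hδ : 0 < δ) :
    Continuous fun t => Real.log (‖tv C t‖ ^ 2 + δ) := by
  apply Continuous.log
  · exact ((F_continuous_tv C).norm.pow 2).add continuous_const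
  · intro x
    positivity

lemma F_bound {k : ℕ} (C : MvPolynomial (Fin k) ℤ) : ∃ K : ℝ, 0 ≤ K ∧ ∀ t, ‖tv C t‖ ≤ K := by
  refine ⟨‖F_G C‖, norm_nonneg _, fun t => ?_⟩
  rw [F_tv]
  exact (F_G C).norm_coe_le_norm _

/-- the zero set is null -/
lemma F_zero_null {k : ℕ} {C : MvPolynomial (Fin k) ℤ} (hC : C ≠ 0) :
    ∀ᵐ t ∂((volume : Measure (Fin k → ℝ)).restrict (Set.Icc (0 : Fin k → ℝ) 1)), tv C t ≠ 0 := by
  set μ := (volume : Measure (Fin k → ℝ)).restrict (Set.Icc (0 : Fin k → ℝ) 1) with hμ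
  obtain ⟨K, hK0, hK⟩ := F_bound C
  set Z : Set (Fin k → ℝ) := {t | tv C t = 0} with hZ
  have hZm : MeasurableSet Z := (isClosed_singleton.preimage (F_continuous_tv C)).measurableSet
  set L := Real.log (K ^ 2 + 1) with hL
  have hL0 : 0 ≤ L := Real.log_nonneg (by nlinarith)
  have key : ∀ δ : ℝ, 0 < δ → δ ≤ 1 → 0 ≤ L + μ.real Z * Real.log δ := by
    intro δ hδ hδ1
    have h1 := F_cube_nonneg hC δ hδ
    have hle : ∀ t, Real.log (‖tv C t‖ ^ 2 + δ) ≤ L + Z.indicator (fun _ => Real.log δ) t := by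
      intro t
      by_cases ht : t ∈ Z
      · have : tv C t = 0 := ht
        rw [Set.indicator_of_mem ht, this]
        simp [hL0]
      · rw [Set.indicator_of_notMem ht, add_zero]
        apply Real.log_le_log (by positivity)
        have := hK t
        have := norm_nonneg (tv C t)
        nlinarith
    have h2 : ∫ t, Real.log (‖tv C t‖ ^ 2 + δ) ∂μ ≤ ∫ t, (L + Z.indicator (fun _ => Real.log δ) t) ∂μ := by
      apply integral_mono
      · exact (F_cont_f C δ hδ).integrableOn_Icc
      · exact (integrable_const _).add ((integrable_const _).indicator hZm)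
      · exact hle
    rw [integral_add (integrable_const _) ((integrable_const _).indicator hZm),
      integral_indicator_const _ hZm] at h2
    simp only [integral_const, smul_eq_mul, probReal_univ, one_mul] at h2
    linarith
  have hzero : μ.real Z = 0 := by
    by_contra hne
    have hpos : 0 < μ.real Z := lt_of_le_of_ne measureReal_nonneg (Ne.symm hne)
    have h1 := key (Real.exp (-(L + 1) / μ.real Z)) (Real.exp_pos _) (by
      rw [Real.exp_le_one_iff]
      apply div_nonpos_of_nonpos_of_nonneg (by linarith) hpos.le)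
    rw [Real.log_exp, mul_div_cancel₀ _ hpos.ne'] at h1
    linarith
  rw [ae_iff]
  simp only [ne_eq, not_not]
  rwa [measureReal_eq_zero_iff] at hzero

/-- integrability of `log |C|` -/
lemma F_integrable {k : ℕ} {C : MvPolynomial (Fin k) ℤ} (hC : C ≠ 0) :
    Integrable (fun t => Real.log ‖tv C t‖)
      ((volume : Measure (Fin k → ℝ)).restrict (Set.Icc (0 : Fin k → ℝ) 1)) := by
  set μ := (volume : Measure (Fin k → ℝ)).restrict (Set.Icc (0 : Fin k → ℝ) 1) with hμ
  obtain ⟨K, hK0, hK⟩ := F_bound C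
  set L := Real.log (K ^ 2 + 1) with hL
  have hL0 : 0 ≤ L := Real.log_nonneg (by nlinarith)
  have hcont := F_continuous_tv C
  -- the sequence
  set u : ℕ → (Fin k → ℝ) → ℝ := fun n t => L - Real.log (‖tv C t‖ ^ 2 + 1 / ((n : ℝ) + 1)) with hu
  have hδ : ∀ n : ℕ, 0 < 1 / ((n : ℝ) + 1) := fun n => Nat.one_div_pos_of_nat
  have hδ1 : ∀ n : ℕ, 1 / ((n : ℝ) + 1) ≤ 1 := by
    intro n
    rw [div_le_one (by positivity)]
    have : (0:ℝ) ≤ n := Nat.cast_nonneg n
    linarith
  have hu0 : ∀ n t, 0 ≤ u n t := by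
    intro n t
    simp only [hu]
    rw [sub_nonneg]
    apply Real.log_le_log
    · have := hδ n
      positivity
    · have h1 := hK t
      have h2 := norm_nonneg (tv C t)
      have h3 := hδ1 n
      nlinarith
  have huint : ∀ n, Integrable (u n) μ := by
    intro n
    exact (integrable_const _).sub (F_cont_f C _ (hδ n)).integrableOn_Icc
  have hubound : ∀ n, ∫ t, u n t ∂μ ≤ L := by
    intro n
    simp only [hu]
    rw [integral_sub (integrable_const _) (F_cont_f C _ (hδ n)).integrableOn_Icc]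
    have := F_cube_nonneg hC _ (hδ n)
    simp only [integral_const, smul_eq_mul, probReal_univ, one_mul]
    linarith
  set v : (Fin k → ℝ) → ℝ := fun t => L - 2 * Real.log ‖tv C t‖ with hv
  have hlim : ∀ᵐ t ∂μ, Tendsto (fun n => u n t) atTop (nhds (v t)) := by
    filter_upwards [F_zero_null hC] with t ht
    simp only [hu, hv]
    apply Tendsto.const_sub
    have hpos : 0 < ‖tv C t‖ := norm_pos_iff.mpr ht
    have h1 : 2 * Real.log ‖tv C t‖ = Real.log (‖tv C t‖ ^ 2 + 0) := by
      rw [add_zero, Real.log_pow]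
      norm_num
    rw [h1]
    apply Tendsto.log
    · exact tendsto_const_nhds.add tendsto_one_div_add_atTop_nhds_zero_nat
    · positivity
  have hvm : AEStronglyMeasurable v μ := by
    refine Measurable.aestronglyMeasurable ?_
    simp only [hv]
    exact measurable_const.sub ((Real.measurable_log.comp hcont.norm.measurable).const_mul 2)
  have hvint : Integrable v μ := by
    refine ⟨hvm, ?_⟩
    have hF : ∫⁻ t, ‖v t‖ₑ ∂μ ≤ liminf (fun n => ∫⁻ t, ‖u n t‖ₑ ∂μ) atTop := by
      have h1 : ∫⁻ t, ‖v t‖ₑ ∂μ = ∫⁻ t, liminf (fun n => ‖u n t‖ₑ) atTop ∂μ := by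
        apply lintegral_congr_ae
        filter_upwards [hlim] with t ht
        exact (ht.enorm.liminf_eq).symm
      rw [h1]
      apply lintegral_liminf_le'
      intro n
      exact (huint n).aestronglyMeasurable.enorm
    refine lt_of_le_of_lt hF ?_
    refine lt_of_le_of_lt (b := ENNReal.ofReal L) ?_ ENNReal.ofReal_lt_top
    apply liminf_le_of_frequently_le'
    refine Frequently.of_forall fun n => ?_
    rw [← ofReal_integral_norm_eq_lintegral_enorm (huint n)]
    apply ENNReal.ofReal_le_ofReal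
    have : ∀ t, ‖u n t‖ = u n t := fun t => by rw [Real.norm_eq_abs, abs_of_nonneg (hu0 n t)]
    simp only [this]
    exact hubound n
  have h3 : Integrable (fun t => (1/2 : ℝ) * (L - v t)) μ :=
    ((integrable_const _).sub hvint).const_mul _
  refine h3.congr (Eventually.of_forall fun t => ?_)
  simp only [hv]
  ring

lemma F_two_log {k : ℕ} {C : MvPolynomial (Fin k) ℤ} :
    2 * Real.log (mM C) = ∫ t in Set.Icc (0 : Fin k → ℝ) 1, 2 * Real.log ‖tv C t‖ := by
  unfold mM
  rw [Real.log_exp, integral_const_mul]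

theorem mM_lower {k : ℕ} (C : MvPolynomial (Fin k) ℤ) (hC : C ≠ 0) (δ : ℝ) (hδ : 0 < δ) :
    2 * Real.log (mM C) ≤ ∫ t in Set.Icc (0 : Fin k → ℝ) 1, Real.log (‖tv C t‖ ^ 2 + δ) := by
  rw [F_two_log]
  apply integral_mono_ae ((F_integrable hC).const_mul 2) (F_cont_f C δ hδ).integrableOn_Icc
  filter_upwards [F_zero_null hC] with t ht
  have h3 : 0 < ‖tv C t‖ := norm_pos_iff.mpr ht
  have h4 : 2 * Real.log ‖tv C t‖ = Real.log (‖tv C t‖ ^ 2) := by
    rw [Real.log_pow]
    norm_num
  rw [h4]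
  apply Real.log_le_log (by positivity)
  linarith

lemma F_tendsto {k : ℕ} {C : MvPolynomial (Fin k) ℤ} (hC : C ≠ 0) :
    Tendsto (fun n : ℕ => ∫ t in Set.Icc (0 : Fin k → ℝ) 1,
      Real.log (‖tv C t‖ ^ 2 + 1 / ((n : ℝ) + 1))) atTop (nhds (2 * Real.log (mM C))) := by
  rw [F_two_log]
  obtain ⟨K, hK0, hK⟩ := F_bound C
  set L := Real.log (K ^ 2 + 1) with hL
  have hL0 : 0 ≤ L := Real.log_nonneg (by nlinarith)
  have hδ : ∀ n : ℕ, 0 < 1 / ((n : ℝ) + 1) := fun n => Nat.one_div_pos_of_nat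
  have hδ1 : ∀ n : ℕ, 1 / ((n : ℝ) + 1) ≤ 1 := by
    intro n
    rw [div_le_one (by positivity)]
    have : (0:ℝ) ≤ n := Nat.cast_nonneg n
    linarith
  refine tendsto_integral_of_dominated_convergence
    (fun t => L + |2 * Real.log ‖tv C t‖|) ?_ ?_ ?_ ?_
  · intro n
    exact (F_cont_f C _ (hδ n)).aestronglyMeasurable
  · exact (integrable_const _).add ((F_integrable hC).const_mul 2).abs
  · intro n
    filter_upwards [F_zero_null hC] with t ht
    have h3 : 0 < ‖tv C t‖ := norm_pos_iff.mpr ht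
    have h4 : 2 * Real.log ‖tv C t‖ = Real.log (‖tv C t‖ ^ 2) := by
      rw [Real.log_pow]
      norm_num
    have h5 : 2 * Real.log ‖tv C t‖ ≤ Real.log (‖tv C t‖ ^ 2 + 1 / ((n : ℝ) + 1)) := by
      rw [h4]
      apply Real.log_le_log (by positivity)
      have := hδ n
      linarith
    have h6 : Real.log (‖tv C t‖ ^ 2 + 1 / ((n : ℝ) + 1)) ≤ L := by
      apply Real.log_le_log
      · have := hδ n
        positivity
      · have h1 := hK t
        have h2 := norm_nonneg (tv C t)
        have h3 := hδ1 n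
        nlinarith
    rw [Real.norm_eq_abs, abs_le]
    constructor
    · have := neg_abs_le (2 * Real.log ‖tv C t‖)
      linarith
    · have := abs_nonneg (2 * Real.log ‖tv C t‖)
      linarith
  · filter_upwards [F_zero_null hC] with t ht
    have hpos : 0 < ‖tv C t‖ := norm_pos_iff.mpr ht
    have h1 : 2 * Real.log ‖tv C t‖ = Real.log (‖tv C t‖ ^ 2 + 0) := by
      rw [add_zero, Real.log_pow]
      norm_num
    rw [h1]
    apply Tendsto.log
    · exact tendsto_const_nhds.add tendsto_one_div_add_atTop_nhds_zero_nat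
    · positivity

theorem mM_upper {k : ℕ} (C : MvPolynomial (Fin k) ℤ) (hC : C ≠ 0) (x : ℝ)
    (hx : 2 * Real.log (mM C) < x) :
    ∃ δ > 0, ∫ t in Set.Icc (0 : Fin k → ℝ) 1, Real.log (‖tv C t‖ ^ 2 + δ) < x := by
  obtain ⟨n, hn⟩ := ((F_tendsto hC).eventually_lt_const hx).exists
  exact ⟨1 / ((n : ℝ) + 1), Nat.one_div_pos_of_nat, hn⟩

theorem one_le_mM {k : ℕ} (C : MvPolynomial (Fin k) ℤ) (hC : C ≠ 0) : 1 ≤ mM C := by
  have h1 : 0 ≤ 2 * Real.log (mM C) :=
    ge_of_tendsto' (F_tendsto hC) fun n => F_cube_nonneg hC _ Nat.one_div_pos_of_nat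
  have h2 : 0 < mM C := Real.exp_pos _
  rwa [← Real.log_nonneg_iff h2, ← mul_nonneg_iff_of_pos_left (show (0:ℝ) < 2 by norm_num)]

theorem mM_mul {k : ℕ} (C D : MvPolynomial (Fin k) ℤ) (hC : C ≠ 0) (hD : D ≠ 0) :
    mM (C * D) = mM C * mM D := by
  unfold mM
  rw [← Real.exp_add, ← integral_add (F_integrable hC) (F_integrable hD)]
  congr 1
  apply integral_congr_ae
  filter_upwards [F_zero_null hC, F_zero_null hD] with t h1 h2
  have h3 : tv (C * D) t = tv C t * tv D t := by simp [tv]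
  rw [h3, norm_mul, Real.log_mul (norm_ne_zero_iff.mpr h1) (norm_ne_zero_iff.mpr h2)]

end

end Pool.Agent.H261R2.CM
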