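import Mathlib

/-! # Task H1, part 1: the lattice inequality (helper109) -/

set_option autoImplicit false

namespace Pool.Agent.H261R2.CM.H1

open Matrix

/-- an integer matrix whose rows span `ℤ^ι` and which is square has determinant `±1`
(after identification of the index sets). -/
theorem det_sq_of_span {ι ν : Type*} [Fintype ι] [DecidableEq ι] [Fintype ν] [DecidableEq ν]
    (f : ι ≃ ν) (U : Matrix ν ι ℤ) (hU : ∀ x : ι → ℤ, ∃ a : ν → ℤ, x = a ᵥ* U) :
    (U.submatrix id f.symm).det ^ 2 = 1 := by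
  classical
  choose V hV using fun i : ι => hU (Pi.single i 1)
  have h1 : (Matrix.of V) * U = 1 := by
    ext i j
    have := congrFun (hV i) j
    rw [Matrix.mul_apply]
    simp only [Matrix.of_apply]
    rw [Matrix.one_apply]
    rw [Pi.single_apply, Matrix.vecMul, dotProduct] at this
    rw [← this]
    by_cases h : i = j
    · simp [h]
    · simp [h, Ne.symm h]
  have h2 : ((Matrix.of V).submatrix f.symm (Equiv.refl ν)) * (U.submatrix (Equiv.refl ν) f.symm) = 1 := by
    rw [Matrix.submatrix_mul_equiv (Matrix.of V) U f.symm (Equiv.refl ν) f.symm, h1,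
      Matrix.submatrix_one_equiv]
  have h3 := congrArg Matrix.det h2
  rw [Matrix.det_mul, Matrix.det_one] at h3
  have h4 : IsUnit (U.submatrix id f.symm).det := by
    apply IsUnit.of_mul_eq_one _
    rw [mul_comm]
    exact h3
  rcases Int.isUnit_iff.mp h4 with h | h <;> rw [h] <;> norm_num

/-- the extension of a primitive family of rows to a spanning family -/
theorem exists_extension {ι κ : Type*} [Fintype ι] [DecidableEq ι] [Fintype κ] [DecidableEq κ] (r : ℕ)
    (Y : Matrix κ ι ℤ) (G : Matrix ι (Fin r) ℤ)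
    (hker : ∀ x : ι → ℤ, x ᵥ* G = 0 → ∃ a : κ → ℤ, x = a ᵥ* Y) :
    ∃ (m : ℕ) (X : Matrix (Fin m) ι ℤ), m ≤ r ∧ Fintype.card ι ≤ Fintype.card κ + m ∧
      ∀ x : ι → ℤ, ∃ a : κ ⊕ Fin m → ℤ, x = a ᵥ* Matrix.fromRows Y X := by
  classical
  let E : (ι → ℤ) →ₗ[ℤ] (Fin r → ℤ) := G.vecMulLinear
  have hE : ∀ x, E x = x ᵥ* G := fun x => rfl
  let Rg := LinearMap.range E
  let m := Module.finrank ℤ Rg
  let b : Module.Basis (Fin m) ℤ Rg := Module.finBasis ℤ Rg
  obtain ⟨s, hs⟩ := Module.projective_lifting_property E.rangeRestrict (LinearMap.id : Rg →ₗ[ℤ] Rg)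
    E.surjective_rangeRestrict
  have hs' : ∀ y : Rg, E (s y) = y := by
    intro y
    have := congrArg Subtype.val (LinearMap.congr_fun hs y)
    simpa using this
  let X : Matrix (Fin m) ι ℤ := Matrix.of fun i => s (b i)
  have hm : m ≤ r := by
    have := Submodule.finrank_le Rg
    simpa using this
  have hspan : ∀ x : ι → ℤ, ∃ a : κ ⊕ Fin m → ℤ, x = a ᵥ* Matrix.fromRows Y X := by
    intro x
    have h1 : (x - s (E.rangeRestrict x)) ᵥ* G = 0 := by
      rw [← hE, map_sub, hs']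
      simp
    obtain ⟨a, ha⟩ := hker _ h1
    refine ⟨Sum.elim a (fun i => b.repr (E.rangeRestrict x) i), ?_⟩
    rw [Matrix.sumElim_vecMul_fromRows, ← ha]
    have h2 : s (E.rangeRestrict x) = (fun i => b.repr (E.rangeRestrict x) i) ᵥ* X := by
      conv_lhs => rw [← b.sum_repr (E.rangeRestrict x)]
      rw [map_sum]
      ext j
      rw [Finset.sum_apply, Matrix.vecMul, dotProduct]
      apply Finset.sum_congr rfl
      intro i _
      rw [map_smul]
      simp [X]
    rw [← h2]
    abel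
  refine ⟨m, X, hm, ?_, hspan⟩
  have h3 : Submodule.span ℤ (Set.range (Matrix.fromRows Y X)) = ⊤ := by
    rw [eq_top_iff]
    intro x _
    obtain ⟨a, ha⟩ := hspan x
    rw [ha]
    have h4 : a ᵥ* Matrix.fromRows Y X = ∑ i, a i • (Matrix.fromRows Y X i) := by
      ext j
      rw [Matrix.vecMul, dotProduct, Finset.sum_apply]
      apply Finset.sum_congr rfl
      intro i _
      simp
    rw [h4]
    exact Submodule.sum_mem _ fun i _ => Submodule.smul_mem _ _ (Submodule.subset_span ⟨i, rfl⟩)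
  have h5 := finrank_range_le_card (R := ℤ) (Matrix.fromRows Y X)
  rw [Set.finrank, h3] at h5
  simpa using h5

/-- the lattice inequality -/
theorem lattice_ineq {ι κ : Type*} [Fintype ι] [DecidableEq ι] [Fintype κ] [DecidableEq κ] (r : ℕ)
    (Y : Matrix κ ι ℤ) (G : Matrix ι (Fin r) ℤ) (hYG : Y * G = 0)
    (hker : ∀ x : ι → ℤ, x ᵥ* G = 0 → ∃ a : κ → ℤ, x = a ᵥ* Y)
    (hY : (Y * Yᵀ).det ≠ 0) (hG : (Gᵀ * G).det ≠ 0) :
    Fintype.card κ + r = Fintype.card ι ∧ (Y * Yᵀ).det ≤ (Gᵀ * G).det := by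
  classical
  obtain ⟨m, X, hm, hcard, hspan⟩ := exists_extension r Y G hker
  set Z : Matrix ι (κ ⊕ Fin r) ℤ := Matrix.fromCols Yᵀ G with hZ
  have hGY : Gᵀ * Yᵀ = 0 := by rw [← Matrix.transpose_mul, hYG, Matrix.transpose_zero]
  have hZZ : Zᵀ * Z = Matrix.fromBlocks (Y * Yᵀ) 0 0 (Gᵀ * G) := by
    rw [hZ, Matrix.transpose_fromCols, Matrix.fromRows_mul_fromCols, Matrix.transpose_transpose, hYG, hGY]
  have hZdet : (Zᵀ * Z).det = (Y * Yᵀ).det * (Gᵀ * G).det := by
    rw [hZZ, Matrix.det_fromBlocks_zero₂₁]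
  have hZne : (Zᵀ * Z).det ≠ 0 := by rw [hZdet]; exact mul_ne_zero hY hG
  -- the other inequality of dimensions
  have hle : Fintype.card (κ ⊕ Fin r) ≤ Fintype.card ι := by
    have hinj : Function.Injective Z.mulVecLin := by
      rw [← LinearMap.ker_eq_bot, LinearMap.ker_eq_bot']
      intro v hv
      have hv' : Z *ᵥ v = 0 := hv
      apply Matrix.eq_zero_of_mulVec_eq_zero hZne
      rw [← Matrix.mulVec_mulVec, hv', Matrix.mulVec_zero]
    have := LinearMap.finrank_le_finrank_of_injective hinj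
    simpa using this
  have hcards : Fintype.card (κ ⊕ Fin r) = Fintype.card κ + r := by simp
  have hmr : m = r := by omega
  subst hmr
  refine ⟨by omega, ?_⟩
  have f : ι ≃ κ ⊕ Fin m := Fintype.equivOfCardEq (by omega)
  have hU := det_sq_of_span f (Matrix.fromRows Y X) hspan
  set U := Matrix.fromRows Y X with hUdef
  have hUZ : U * Z = Matrix.fromBlocks (Y * Yᵀ) 0 (X * Yᵀ) (X * G) := by
    rw [hUdef, hZ, Matrix.fromRows_mul_fromCols, hYG]
  have hUZdet : (U * Z).det = (Y * Yᵀ).det * (X * G).det := by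
    rw [hUZ, Matrix.det_fromBlocks_zero₁₂]
  have hUZ' : U * Z = (U.submatrix id f.symm) * (Z.submatrix f.symm id) := by
    have := Matrix.submatrix_mul_equiv U Z id f.symm id
    rw [this]
    rfl
  have hZZ' : Zᵀ * Z = (Z.submatrix f.symm id)ᵀ * (Z.submatrix f.symm id) := by
    have := Matrix.submatrix_mul_equiv Zᵀ Z id f.symm id
    rw [Matrix.transpose_submatrix, this]
    rfl
  have h1 : (Zᵀ * Z).det = (Z.submatrix f.symm id).det ^ 2 := by
    rw [hZZ', Matrix.det_mul, Matrix.det_transpose, sq]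
  have h2 : (U * Z).det ^ 2 = (Zᵀ * Z).det := by
    rw [hUZ', Matrix.det_mul, mul_pow, hU, one_mul, h1]
  rw [hUZdet, hZdet] at h2
  set d := (Y * Yᵀ).det
  set g := (Gᵀ * G).det
  set x := (X * G).det
  have h3 : g = d * x ^ 2 := by
    have : d * (d * x ^ 2 - g) = 0 := by linear_combination h2
    rcases mul_eq_zero.mp this with h | h
    · exact absurd h hY
    · linarith
  have hx : x ≠ 0 := by
    intro h
    rw [h] at h3
    apply hG
    rw [h3]
    ring
  have hx2 : 1 ≤ x ^ 2 := by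
    have : 0 < x ^ 2 := by positivity
    omega
  have hd : 0 ≤ d := by
    have h4 : ((Y.map (Int.cast : ℤ → ℝ)) * (Y.map (Int.cast : ℤ → ℝ))ᵀ).PosSemidef := by
      have := Matrix.posSemidef_self_mul_conjTranspose (Y.map (Int.cast : ℤ → ℝ))
      simpa [Matrix.conjTranspose_eq_transpose_of_trivial] using this
    have h5 := h4.det_nonneg
    have h6 : ((Y.map (Int.cast : ℤ → ℝ)) * (Y.map (Int.cast : ℤ → ℝ))ᵀ).det = ((d : ℤ) : ℝ) := by
      have h7 : (Y.map (Int.cast : ℤ → ℝ)) * (Y.map (Int.cast : ℤ → ℝ))ᵀ =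
          (Y * Yᵀ).map (Int.castRingHom ℝ) := by
        rw [Matrix.map_mul]
        rfl
      rw [h7]
      exact (Int.castRingHom ℝ).map_det (Y * Yᵀ) |>.symm
    rw [h6] at h5
    exact_mod_cast h5
  rw [h3]
  nlinarith

end Pool.Agent.H261R2.CM.H1
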