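import Pool.Agent.H261R2.CM.HDefs
import Pool.Agent.H261R2.CM.H1Abs

/-! # Task H1: upper bound for the Gram determinant (helper109) -/

set_option autoImplicit false

namespace Pool.Agent.H261R2.CM

open Polynomial Filter MeasureTheory Matrix
open scoped ComplexOrder

noncomputable section

namespace H1

/-! ### `zc` -/

theorem zc_natCast {R : Type*} [Semiring R] (A : R[X]) (n : ℕ) : zc A (n : ℤ) = A.coeff n := by
  simp [zc]

theorem zc_neg_eq {R : Type*} [Semiring R] (A : R[X]) {N : ℤ} (hN : N < 0) : zc A N = 0 := by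
  rw [zc, if_neg (by omega)]

theorem zc_add {R : Type*} [Semiring R] (A B : R[X]) (N : ℤ) : zc (A + B) N = zc A N + zc B N := by
  unfold zc
  split_ifs <;> simp

theorem zc_zero {R : Type*} [Semiring R] (N : ℤ) : zc (0 : R[X]) N = 0 := by
  unfold zc
  split_ifs <;> simp

theorem zc_sum {R : Type*} [Semiring R] {α : Type*} (s : Finset α) (f : α → R[X]) (N : ℤ) :
    zc (∑ a ∈ s, f a) N = ∑ a ∈ s, zc (f a) N := by
  classical
  induction s using Finset.induction_on with
  | empty => simp [zc_zero]
  | insert a s ha ih => rw [Finset.sum_insert ha, Finset.sum_insert ha, zc_add, ih]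

theorem zc_C_mul {R : Type*} [Semiring R] (a : R) (A : R[X]) (N : ℤ) :
    zc (C a * A) N = a * zc A N := by
  unfold zc
  split_ifs <;> simp

theorem zc_X_pow_mul {R : Type*} [Semiring R] (m : ℕ) (A : R[X]) (N : ℤ) :
    zc (X ^ m * A) N = zc A (N - m) := by
  unfold zc
  by_cases h : 0 ≤ N
  · rw [if_pos h]
    by_cases h2 : 0 ≤ N - m
    · rw [if_pos h2, Polynomial.coeff_X_pow_mul', if_pos (by omega)]
      congr 1
      omega
    · rw [if_neg h2, Polynomial.coeff_X_pow_mul', if_neg (by omega)]
  · rw [if_neg h, if_neg (by omega)]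

theorem eq_zero_of_zc {R : Type*} [Semiring R] (A : R[X]) (h : ∀ N, zc A N = 0) : A = 0 := by
  ext n
  have := h (n : ℤ)
  rw [zc_natCast] at this
  simpa using this

theorem zc_toC (A : ℤ[X]) (N : ℤ) : ((zc A N : ℤ) : ℂ) = zc (toC A) N := by
  unfold zc toC
  split_ifs <;> simp

theorem sum_zc_le (Q : ℂ[X]) (n : ℕ) (N : Fin n → ℤ) (hN : Function.Injective N) :
    ∑ j, ‖zc Q (N j)‖ ^ 2 ≤ ∑ j ∈ Q.support, ‖Q.coeff j‖ ^ 2 := by
  classical
  have h1 : ∑ j, ‖zc Q (N j)‖ ^ 2 = ∑ z ∈ Finset.univ.image N, ‖zc Q z‖ ^ 2 := by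
    rw [Finset.sum_image (fun a _ b _ h => hN h)]
  have h2 : ∑ j ∈ Q.support, ‖Q.coeff j‖ ^ 2 = ∑ z ∈ Q.support.image (fun j : ℕ => (j : ℤ)), ‖zc Q z‖ ^ 2 := by
    rw [Finset.sum_image (fun a _ b _ h => by exact_mod_cast h)]
    apply Finset.sum_congr rfl
    intro j _
    rw [zc_natCast]
  rw [h1, h2]
  have h3 : ∑ z ∈ Finset.univ.image N, ‖zc Q z‖ ^ 2 ≤
      ∑ z ∈ Finset.univ.image N ∪ Q.support.image (fun j : ℕ => (j : ℤ)), ‖zc Q z‖ ^ 2 :=
    Finset.sum_le_sum_of_subset_of_nonneg Finset.subset_union_left (fun _ _ _ => by positivity)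
  refine h3.trans (le_of_eq ?_)
  symm
  apply Finset.sum_subset Finset.subset_union_right
  intro z _ hz
  by_cases hz0 : 0 ≤ z
  · obtain ⟨m, rfl⟩ := Int.eq_ofNat_of_zero_le hz0
    rw [zc_natCast]
    have : Q.coeff m = 0 := by
      by_contra h
      apply hz
      rw [Finset.mem_image]
      exact ⟨m, Polynomial.mem_support_iff.mpr h, rfl⟩
    rw [this]
    simp
  · rw [zc_neg_eq Q (by omega)]
    simp

/-! ### exponent vectors -/

/-- the exponent vector of a point of a box -/
def fb {k : ℕ} {s : Fin k → ℕ} (t : (i : Fin k) → Fin (s i)) : Fin k →₀ ℕ :=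
  Finsupp.equivFunOnFinite.symm fun i => (t i : ℕ)

theorem fb_apply {k : ℕ} {s : Fin k → ℕ} (t : (i : Fin k) → Fin (s i)) (i : Fin k) :
    fb t i = (t i : ℕ) := rfl

theorem fb_inj {k : ℕ} {s : Fin k → ℕ} {t t' : (i : Fin k) → Fin (s i)} (h : fb t = fb t') : t = t' := by
  funext i
  apply Fin.ext
  have := DFunLike.congr_fun h i
  simpa [fb_apply] using this

theorem exists_fb {k : ℕ} {s : Fin k → ℕ} (m : Fin k →₀ ℕ) (hm : ∀ i, m i < s i) :
    ∃ t : (i : Fin k) → Fin (s i), fb t = m := by
  refine ⟨fun i => ⟨m i, hm i⟩, ?_⟩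
  ext i
  rfl

theorem sum_box {k : ℕ} (s : Fin k → ℕ) (P : MvPolynomial (Fin k) ℤ)
    (hP : ∀ m ∈ P.support, ∀ i, m i < s i) :
    ∑ t : (i : Fin k) → Fin (s i), MvPolynomial.monomial (fb t) (P.coeff (fb t)) = P := by
  classical
  ext m
  rw [MvPolynomial.coeff_sum]
  simp only [MvPolynomial.coeff_monomial]
  by_cases hm : ∀ i, m i < s i
  · obtain ⟨t, rfl⟩ := exists_fb m hm
    rw [Finset.sum_eq_single t]
    · simp
    · intro t' _ ht'
      rw [if_neg]
      intro h
      exact ht' (fb_inj h)
    · intro h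
      exact absurd (Finset.mem_univ t) h
  · rw [Finset.sum_eq_zero]
    · symm
      by_contra h
      exact hm (hP m (MvPolynomial.mem_support_iff.mpr h))
    · intro t _
      rw [if_neg]
      rintro rfl
      apply hm
      intro i
      rw [fb_apply]
      exact (t i).isLt

/-- the exponent of the substitution -/
def dot {k : ℕ} (e : Fin k → ℕ) (m : Fin k →₀ ℕ) : ℕ := ∑ i, e i * m i

theorem spec_monomial {k : ℕ} (e : Fin k → ℕ) (m : Fin k →₀ ℕ) (a : ℤ) :
    spec e (MvPolynomial.monomial m a) = C a * X ^ (dot e m) := by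
  rw [spec, MvPolynomial.aeval_monomial, dot, ← Finset.prod_pow_eq_pow_sum]
  congr 1
  rw [Finsupp.prod_fintype _ _ (by simp)]
  apply Finset.prod_congr rfl
  intro i _
  rw [pow_mul]

theorem spec_eq_zero {k : ℕ} (e : Fin k → ℕ) (Q : MvPolynomial (Fin k) ℤ)
    (hinj : ∀ m ∈ Q.support, ∀ m' ∈ Q.support, dot e m = dot e m' → m = m') (h : spec e Q = 0) :
    Q = 0 := by
  classical
  by_contra hQ
  obtain ⟨m₀, hm₀⟩ := MvPolynomial.support_nonempty.mpr hQ
  have h1 : spec e Q = ∑ m ∈ Q.support, C (Q.coeff m) * X ^ (dot e m) := by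
    conv_lhs => rw [MvPolynomial.as_sum Q]
    rw [map_sum]
    apply Finset.sum_congr rfl
    intro m _
    rw [spec_monomial]
  have h2 : (spec e Q).coeff (dot e m₀) = (0 : ℤ[X]).coeff (dot e m₀) := by rw [h]
  rw [h1, Polynomial.finsetSum_coeff, Finset.sum_eq_single m₀] at h2
  · simp only [Polynomial.coeff_C_mul_X_pow, if_true, Polynomial.coeff_zero] at h2
    exact (MvPolynomial.mem_support_iff.mp hm₀) h2
  · intro m hm hne
    rw [Polynomial.coeff_C_mul_X_pow, if_neg]
    intro h3
    exact hne (hinj m hm m₀ hm₀ h3.symm)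
  · intro h3
    exact absurd hm₀ h3

/-- the polynomial of a family of coefficients in the box -/
def pol {k R : ℕ} (x : (Fin k → Fin R) → ℤ) : MvPolynomial (Fin k) ℤ :=
  ∑ u : Fin k → Fin R, MvPolynomial.monomial (fb (s := fun _ => R) u) (x u)

theorem coeff_pol {k R : ℕ} (x : (Fin k → Fin R) → ℤ) (u : Fin k → Fin R) :
    (pol x).coeff (fb (s := fun _ => R) u) = x u := by
  classical
  rw [pol, MvPolynomial.coeff_sum]
  simp only [MvPolynomial.coeff_monomial]
  rw [Finset.sum_eq_single u]
  · simp
  · intro t' _ ht'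
    rw [if_neg]
    intro h
    exact ht' (fb_inj h)
  · intro h
    exact absurd (Finset.mem_univ u) h

theorem supp_pol {k R : ℕ} (x : (Fin k → Fin R) → ℤ) (m : Fin k →₀ ℕ) (hm : m ∈ (pol x).support)
    (i : Fin k) : m i < R := by
  classical
  by_contra hlt
  rw [MvPolynomial.mem_support_iff] at hm
  apply hm
  rw [pol, MvPolynomial.coeff_sum]
  apply Finset.sum_eq_zero
  intro u _
  rw [MvPolynomial.coeff_monomial, if_neg]
  rintro rfl
  apply hlt
  rw [fb_apply]
  exact (u i).isLt

theorem pol_coeff {k R : ℕ} (P : MvPolynomial (Fin k) ℤ) (hP : ∀ m ∈ P.support, ∀ i, m i < R) :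
    pol (fun u : Fin k → Fin R => P.coeff (fb (s := fun _ => R) u)) = P :=
  sum_box (fun _ => R) P hP

theorem spec_pol {k R : ℕ} (e : Fin k → ℕ) (x : (Fin k → Fin R) → ℤ) :
    spec e (pol x) = ∑ u : Fin k → Fin R, C (x u) * X ^ (dot e (fb (s := fun _ => R) u)) := by
  rw [pol, map_sum]
  apply Finset.sum_congr rfl
  intro u _
  rw [spec_monomial]

/-! ### shifts and autocorrelation -/

theorem coeff_shift {k : ℕ} (P : MvPolynomial (Fin k) ℤ) (s m : Fin k →₀ ℕ) :
    (MvPolynomial.monomial s 1 * P).coeff m = ∑ b ∈ P.support, if s + b = m then P.coeff b else 0 := by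
  classical
  conv_lhs => rw [MvPolynomial.as_sum P]
  rw [Finset.mul_sum, MvPolynomial.coeff_sum]
  apply Finset.sum_congr rfl
  intro b _
  rw [MvPolynomial.monomial_mul, one_mul, MvPolynomial.coeff_monomial]

theorem supp_shift {k : ℕ} (P : MvPolynomial (Fin k) ℤ) (s m : Fin k →₀ ℕ)
    (hm : m ∈ (MvPolynomial.monomial s 1 * P).support) : ∃ b ∈ P.support, m = s + b := by
  classical
  rw [MvPolynomial.mem_support_iff, coeff_shift] at hm
  obtain ⟨b, hb, hne⟩ := Finset.exists_ne_zero_of_sum_ne_zero hm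
  refine ⟨b, hb, ?_⟩
  by_contra h
  exact hne (if_neg (Ne.symm h))

theorem corr {k R : ℕ} (P : MvPolynomial (Fin k) ℤ) (s t : Fin k →₀ ℕ)
    (hs : ∀ m ∈ P.support, ∀ i, s i + m i < R) :
    ∑ u : Fin k → Fin R, (MvPolynomial.monomial s 1 * P).coeff (fb (s := fun _ => R) u) *
      (MvPolynomial.monomial t 1 * P).coeff (fb (s := fun _ => R) u) =
    acorr P (fun i => (s i : ℤ) - (t i : ℤ)) := by
  classical
  simp only [coeff_shift]
  have h1 : ∀ u : Fin k → Fin R,
      (∑ b ∈ P.support, if s + b = fb (s := fun _ => R) u then P.coeff b else 0) *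
      (∑ a ∈ P.support, if t + a = fb (s := fun _ => R) u then P.coeff a else 0) =
      ∑ a ∈ P.support, ∑ b ∈ P.support,
        if (s + b = fb (s := fun _ => R) u ∧ t + a = fb (s := fun _ => R) u) then
          P.coeff a * P.coeff b else 0 := by
    intro u
    rw [mul_comm, Finset.sum_mul_sum]
    apply Finset.sum_congr rfl
    intro a _
    apply Finset.sum_congr rfl
    intro b _
    by_cases h2 : s + b = fb (s := fun _ => R) u <;> by_cases h3 : t + a = fb (s := fun _ => R) u <;>
      simp [h2, h3]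
  rw [Finset.sum_congr rfl (fun u _ => h1 u), Finset.sum_comm, acorr]
  apply Finset.sum_congr rfl
  intro a ha
  rw [Finset.sum_comm]
  apply Finset.sum_congr rfl
  intro b hb
  obtain ⟨u₀, hu₀⟩ := exists_fb (s := fun _ => R) (s + b) (fun i => by
    have := hs b hb i
    simpa using this)
  have h4 : ∀ u : Fin k → Fin R, (s + b = fb (s := fun _ => R) u ∧ t + a = fb (s := fun _ => R) u) ↔
      (u = u₀ ∧ s + b = t + a) := by
    intro u
    constructor
    · rintro ⟨h5, h6⟩
      refine ⟨?_, by rw [h5, h6]⟩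
      apply fb_inj (s := fun _ => R)
      rw [← h5, hu₀]
    · rintro ⟨rfl, h6⟩
      exact ⟨hu₀.symm, by rw [← h6, hu₀]⟩
  have h7 : (∀ i, (a i : ℤ) - (b i : ℤ) = (s i : ℤ) - (t i : ℤ)) ↔ s + b = t + a := by
    constructor
    · intro h
      ext i
      have := h i
      simp only [Finsupp.add_apply]
      omega
    · intro h i
      have := DFunLike.congr_fun h i
      simp only [Finsupp.add_apply] at this
      omega
  simp only [h4]
  by_cases h8 : s + b = t + a
  · rw [if_pos (h7.mpr h8)]
    simp [h8]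
  · rw [if_neg (fun h => h8 (h7.mp h))]
    simp [h8]

end H1

open H1

/-- H1: upper bound. -/
theorem gram_upper {k : ℕ} (C D : MvPolynomial (Fin k) ℤ) (hC : C ≠ 0) (hD : D ≠ 0)
    (hCD : IsRelPrime C D) (R : ℕ) (hR : ∀ i, dm C D i < R) (e : Fin k → ℕ)
    (he : ∀ s : Fin k → ℤ, (∀ i, |s i| ≤ 4 * R) → s ≠ 0 → ∑ i, s i * (e i : ℤ) ≠ 0)
    (A B : ℤ[X]) (hA : A ≠ 0) (hB : B ≠ 0) (hrel : spec e D * A = spec e C * B)
    (p : ℂ[X]) (c : ℝ) (hc : 0 < c) (hp : c ≤ ‖p.coeff 0‖) (hpA : l2le (p * toC A))
    (hpB : l2le (p * toC B)) (r : ℕ) (hr : r + ∏ i, (R - dm C D i) = 2 * R ^ k) :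
    (gramY C D R).det ≤ ((2 * (R : ℝ) ^ k) / (c ^ 2 * r)) ^ r := by
  classical
  have hRk : 0 < R ^ k := by
    rcases Nat.eq_zero_or_pos R with h | h
    · subst h
      rcases Nat.eq_zero_or_pos k with h2 | h2
      · subst h2; simp
      · exact absurd (hR ⟨0, h2⟩) (Nat.not_lt_zero _)
    · positivity
  have hprod : ∏ i, (R - dm C D i) ≤ R ^ k := by
    calc ∏ i, (R - dm C D i) ≤ ∏ _i : Fin k, R := Finset.prod_le_prod' fun i _ => Nat.sub_le _ _
      _ = R ^ k := by simp
  have hr0 : 0 < r := by omega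
  -- the family of sequences
  let AA : Bool → ℤ[X] := fun β => if β then A else -B
  let E : (Fin k → Fin R) × Bool → ℤ → ℤ :=
    fun b γ => zc (AA b.2) (γ - (dot e (fb (s := fun _ => R) b.1) : ℕ))
  let Y : Matrix (Box C D R) ((Fin k → Fin R) × Bool) ℤ := Matrix.of fun t b =>
    (MvPolynomial.monomial (fb t) 1 * (if b.2 then D else C)).coeff (fb (s := fun _ => R) b.1)
  have hsumE : ∀ (x : (Fin k → Fin R) × Bool → ℤ) (γ : ℤ), ∑ b, x b * E b γ =
      zc (spec e (pol fun u => x (u, true)) * A - spec e (pol fun u => x (u, false)) * B) γ := by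
    intro x γ
    have h1 : spec e (pol fun u => x (u, true)) * A - spec e (pol fun u => x (u, false)) * B =
        ∑ b : (Fin k → Fin R) × Bool, Polynomial.C (x b) *
          (X ^ (dot e (fb (s := fun _ => R) b.1)) * AA b.2) := by
      rw [Fintype.sum_prod_type, spec_pol, spec_pol, Finset.sum_mul, Finset.sum_mul,
        ← Finset.sum_sub_distrib]
      apply Finset.sum_congr rfl
      intro u _
      simp only [Fintype.sum_bool, AA]
      simp only [if_true, Bool.false_eq_true, if_false]
      ring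
    rw [h1, zc_sum]
    apply Finset.sum_congr rfl
    intro b _
    rw [zc_C_mul, zc_X_pow_mul]
  have hfbR : ∀ (t : Box C D R) (i : Fin k), (fb t) i + dm C D i < R := by
    intro t i
    rw [fb_apply]
    have := (t i).isLt
    omega
  have hsuppD : ∀ m ∈ D.support, ∀ i, m i ≤ dm C D i := by
    intro m hm i
    exact (MvPolynomial.monomial_le_degreeOf i hm).trans (le_max_right _ _)
  have hsuppC : ∀ m ∈ C.support, ∀ i, m i ≤ dm C D i := by
    intro m hm i
    exact (MvPolynomial.monomial_le_degreeOf i hm).trans (le_max_left _ _)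
  have hshD : ∀ (t : Box C D R), ∀ m ∈ (MvPolynomial.monomial (fb t) 1 * D).support, ∀ i, m i < R := by
    intro t m hm i
    obtain ⟨b, hb, rfl⟩ := supp_shift D (fb t) m hm
    have h1 := hfbR t i
    have h2 := hsuppD b hb i
    rw [Finsupp.add_apply]
    omega
  have hshC : ∀ (t : Box C D R), ∀ m ∈ (MvPolynomial.monomial (fb t) 1 * C).support, ∀ i, m i < R := by
    intro t m hm i
    obtain ⟨b, hb, rfl⟩ := supp_shift C (fb t) m hm
    have h1 := hfbR t i
    have h2 := hsuppC b hb i
    rw [Finsupp.add_apply]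
    omega
  have hYpolD : ∀ t : Box C D R, (pol fun u : Fin k → Fin R => Y t (u, true)) =
      MvPolynomial.monomial (fb t) 1 * D := by
    intro t
    have := pol_coeff (R := R) (MvPolynomial.monomial (fb t) 1 * D) (hshD t)
    rw [← this]
    congr 1
  have hYpolC : ∀ t : Box C D R, (pol fun u : Fin k → Fin R => Y t (u, false)) =
      MvPolynomial.monomial (fb t) 1 * C := by
    intro t
    have := pol_coeff (R := R) (MvPolynomial.monomial (fb t) 1 * C) (hshC t)
    rw [← this]
    congr 1
  have hYE : ∀ t γ, ∑ b, Y t b * E b γ = 0 := by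
    intro t γ
    rw [hsumE (fun b => Y t b) γ, hYpolD, hYpolC, map_mul, map_mul, mul_assoc, mul_assoc, hrel,
      sub_self, zc_zero]
  have hker : ∀ x : (Fin k → Fin R) × Bool → ℤ, (∀ γ, ∑ b, x b * E b γ = 0) →
      ∃ a : Box C D R → ℤ, x = a ᵥ* Y := by
    intro x hx
    have h1 : spec e (pol fun u => x (u, true)) * A - spec e (pol fun u => x (u, false)) * B = 0 := by
      apply eq_zero_of_zc
      intro N
      rw [← hsumE x N]
      exact hx N
    set D' := pol (fun u => x (u, true)) with hD'
    set C' := pol (fun u => x (u, false)) with hC'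
    have h2 : spec e (D' * C - D * C') = 0 := by
      have h3 : spec e (D' * C - D * C') * B = 0 := by
        rw [map_sub, map_mul, map_mul]
        have h4 : spec e D' * A = spec e C' * B := sub_eq_zero.mp h1
        linear_combination (spec e D) * h4 - (spec e D') * hrel
      exact (mul_eq_zero.mp h3).resolve_right hB
    have hDC : D' * C = D * C' := by
      rw [← sub_eq_zero]
      apply spec_eq_zero e _ _ h2
      have hexp : ∀ m ∈ (D' * C - D * C').support, ∀ i, m i < 2 * R := by
        intro m hm i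
        have h5 : m ∈ (D' * C).support ∪ (D * C').support := MvPolynomial.support_sub _ _ _ hm
        rcases Finset.mem_union.mp h5 with h6 | h6
        · have h7 := MvPolynomial.support_mul _ _ h6
          obtain ⟨a, ha, b, hb, rfl⟩ := Finset.mem_add.mp h7
          have h8 := supp_pol _ a ha i
          have h9 := hsuppC b hb i
          have h10 := hR i
          rw [Finsupp.add_apply]
          omega
        · have h7 := MvPolynomial.support_mul _ _ h6
          obtain ⟨a, ha, b, hb, rfl⟩ := Finset.mem_add.mp h7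
          have h8 := supp_pol _ b hb i
          have h9 := hsuppD a ha i
          have h10 := hR i
          rw [Finsupp.add_apply]
          omega
      intro m hm m' hm' hdot
      by_contra hne
      have h11 : (fun i => (m i : ℤ) - (m' i : ℤ)) ≠ 0 := by
        intro h12
        apply hne
        ext i
        have := congrFun h12 i
        simp only [Pi.zero_apply] at this
        omega
      apply he _ _ h11
      · have h13 : (dot e m : ℤ) = dot e m' := by exact_mod_cast hdot
        rw [dot, dot] at h13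
        push_cast at h13
        have h14 : ∑ i, ((m i : ℤ) - (m' i : ℤ)) * (e i : ℤ) =
            ∑ i, (e i : ℤ) * (m i : ℤ) - ∑ i, (e i : ℤ) * (m' i : ℤ) := by
          rw [← Finset.sum_sub_distrib]
          apply Finset.sum_congr rfl
          intro i _
          ring
        rw [h14, h13, sub_self]
      · intro i
        have h15 := hexp m hm i
        have h16 := hexp m' hm' i
        rw [abs_le]
        constructor <;> omega
    have hdvd : D ∣ D' := by
      have h17 : D ∣ D' * C := ⟨C', hDC⟩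
      exact hCD.symm.dvd_of_dvd_mul_right h17
    obtain ⟨T, hT⟩ := hdvd
    have hT' : C' = C * T := by
      have h18 : D * (C' - C * T) = 0 := by
        rw [mul_sub, ← hDC, hT]
        ring
      exact sub_eq_zero.mp ((mul_eq_zero.mp h18).resolve_left hD)
    have hTsupp : ∀ m ∈ T.support, ∀ i, m i < R - dm C D i := by
      intro m hm i
      have hT0 : T ≠ 0 := by
        rintro rfl
        simp at hm
      have hR0 : 0 < R := lt_of_le_of_lt (Nat.zero_le _) (hR i)
      have h19 : D'.degreeOf i < R := (MvPolynomial.degreeOf_lt_iff hR0).mpr fun m hm => supp_pol _ m hm i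
      have h20 : C'.degreeOf i < R := (MvPolynomial.degreeOf_lt_iff hR0).mpr fun m hm => supp_pol _ m hm i
      rw [hT, MvPolynomial.degreeOf_mul_eq hD hT0] at h19
      rw [hT', MvPolynomial.degreeOf_mul_eq hC hT0] at h20
      have h21 := MvPolynomial.monomial_le_degreeOf i hm
      have h22 : T.degreeOf i + dm C D i < R := by
        rw [dm]
        rcases max_cases (C.degreeOf i) (D.degreeOf i) with h | h <;> rw [h.1] <;> omega
      omega
    have hTsum := sum_box (fun i => R - dm C D i) T hTsupp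
    refine ⟨fun t => T.coeff (fb t), ?_⟩
    have key : ∀ (P : MvPolynomial (Fin k) ℤ) (u : Fin k → Fin R),
        ∑ t : Box C D R, T.coeff (fb t) * (MvPolynomial.monomial (fb t) 1 * P).coeff (fb (s := fun _ => R) u) =
        (P * T).coeff (fb (s := fun _ => R) u) := by
      intro P u
      conv_rhs => rw [mul_comm, ← hTsum, Finset.sum_mul, MvPolynomial.coeff_sum]
      apply Finset.sum_congr rfl
      intro t _
      have h23 : MvPolynomial.monomial (fb t) (T.coeff (fb t)) * P =
          MvPolynomial.C (T.coeff (fb t)) * (MvPolynomial.monomial (fb t) 1 * P) := by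
        rw [← mul_assoc, MvPolynomial.C_mul_monomial, mul_one]
      rw [h23, MvPolynomial.coeff_C_mul]
    funext b
    obtain ⟨u, β⟩ := b
    rw [Matrix.vecMul, dotProduct]
    cases β with
    | true =>
      have := key D u
      simp only [Y, Matrix.of_apply, if_true]
      rw [this, ← hT, hD', coeff_pol]
    | false =>
      have := key C u
      simp only [Y, Matrix.of_apply, Bool.false_eq_true, if_false]
      rw [this, ← hT', hC', coeff_pol]
  have hm0 : ∀ b, ∀ γ < 0, E b γ = 0 := by
    intro b γ hγ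
    exact zc_neg_eq _ (by omega)
  have hW : ∀ b, ∀ (n : ℕ) (N : Fin n → ℤ), Function.Injective N →
      ∑ j, ‖conv p (fun γ => ((E b γ : ℤ) : ℂ)) (N j)‖ ^ 2 ≤ 1 := by
    intro b n N hN
    have h24 : ∀ N', conv p (fun γ => ((E b γ : ℤ) : ℂ)) N' =
        zc (p * toC (AA b.2)) (N' - (dot e (fb (s := fun _ => R) b.1) : ℕ)) := by
      intro N'
      rw [← conv_zc]
      congr 1
      funext γ
      exact zc_toC _ _
    simp only [h24]
    have h25 := sum_zc_le (p * toC (AA b.2)) n
      (fun j => N j - (dot e (fb (s := fun _ => R) b.1) : ℕ)) (fun a a' h => hN (by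
        simpa using h))
    refine h25.trans ?_
    obtain ⟨u, β⟩ := b
    cases β with
    | true => exact hpA
    | false =>
      have h26 : p * toC (AA (u, false).2) = -(p * toC B) := by
        simp [AA, toC]
      rw [h26]
      simpa [l2le] using hpB
  have hcard : Fintype.card (Box C D R) + r = Fintype.card ((Fin k → Fin R) × Bool) := by
    simp only [Fintype.card_prod, Fintype.card_pi, Fintype.card_fin, Fintype.card_bool]
    simp only [Finset.prod_const, Finset.card_univ, Fintype.card_fin]
    omega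
  have main := gram_upper_abs Y E hm0 hYE hker p c hc hp hW r hcard hr0
  have hcardι : (Fintype.card ((Fin k → Fin R) × Bool) : ℝ) = 2 * (R : ℝ) ^ k := by
    simp only [Fintype.card_prod, Fintype.card_pi, Fintype.card_fin, Fintype.card_bool]
    simp only [Finset.prod_const, Finset.card_univ, Fintype.card_fin]
    push_cast
    ring
  rw [hcardι] at main
  have hgram : gramY C D R = (Y * Yᵀ).map (Int.castRingHom ℝ) := by
    ext s t
    rw [gramY, Matrix.of_apply, Matrix.map_apply, Matrix.mul_apply]
    have h27 : ∑ b, Y s b * Yᵀ b t =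
        acorr C (fun i => ((s i : ℕ) : ℤ) - ((t i : ℕ) : ℤ)) +
          acorr D (fun i => ((s i : ℕ) : ℤ) - ((t i : ℕ) : ℤ)) := by
      rw [Fintype.sum_prod_type]
      have h28 := corr (R := R) C (fb s) (fb t) (fun m hm i => by
        have h1 := hfbR s i
        have h2 := hsuppC m hm i
        omega)
      have h29 := corr (R := R) D (fb s) (fb t) (fun m hm i => by
        have h1 := hfbR s i
        have h2 := hsuppD m hm i
        omega)
      simp only [fb_apply] at h28 h29
      rw [← h28, ← h29, ← Finset.sum_add_distrib]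
      apply Finset.sum_congr rfl
      intro u _
      simp only [Fintype.sum_bool, Y, Matrix.transpose_apply, Matrix.of_apply, if_true,
        Bool.false_eq_true, if_false]
      ring
    rw [h27]
    rfl
  rw [hgram]
  have h30 : ((Y * Yᵀ).map (Int.castRingHom ℝ)).det = (((Y * Yᵀ).det : ℤ) : ℝ) :=
    ((Int.castRingHom ℝ).map_det (Y * Yᵀ)).symm
  rw [h30]
  exact main

end

end Pool.Agent.H261R2.CM
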