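import Pool.Agent.H261R2.CM.E
import Pool.Agent.H261R2.CM.F
import Pool.Agent.H261R2.CM.H1

/-!
# Task H2: lower bound for the Gram determinant and the final inequality
-/

set_option autoImplicit false

namespace Pool.Agent.H261R2.CM

open Polynomial Filter MeasureTheory Matrix
open scoped ComplexOrder

noncomputable section

/-! ### Characters -/

private theorem h2_ez_add (x y : ℝ) : ez (x + y) = ez x * ez y := by
  unfold ez
  rw [← Complex.exp_add]
  congr 1
  push_cast
  ring

private theorem h2_ez_nsmul (x : ℝ) (n : ℕ) : ez (n * x) = ez x ^ n := by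
  unfold ez
  rw [← Complex.exp_nat_mul]
  congr 1
  push_cast
  ring

private theorem h2_ez_conj (x : ℝ) : (starRingEnd ℂ) (ez x) = ez (-x) := by
  unfold ez
  rw [← Complex.exp_conj]
  congr 1
  simp [map_ofNat]

private theorem h2_ez_int (m : ℤ) : ez (m : ℝ) = 1 := by
  unfold ez
  rw [Complex.exp_eq_one_iff]
  exact ⟨m, by push_cast; ring⟩

private theorem h2_ez_zero : ez 0 = 1 := by
  have := h2_ez_int 0
  simpa using this

private theorem h2_ez_continuous : Continuous ez := by
  unfold ez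
  fun_prop

private theorem h2_integral (m : ℤ) :
    ∫ u in (0:ℝ)..1, ez ((m : ℝ) * u) = if m = 0 then 1 else 0 := by
  split_ifs with h
  · subst h
    simp [h2_ez_zero]
  · unfold ez
    have hm : (2 * (Real.pi : ℂ) * Complex.I * (m : ℂ)) ≠ 0 := by
      have h1 : (m : ℂ) ≠ 0 := by exact_mod_cast h
      have h2 : (Real.pi : ℂ) ≠ 0 := by exact_mod_cast Real.pi_ne_zero
      simp [h1, h2]
    have : (fun u : ℝ => Complex.exp (2 * (Real.pi : ℂ) * Complex.I * ((((m : ℝ) * u : ℝ)) : ℂ)))
        = fun u : ℝ => Complex.exp ((2 * (Real.pi : ℂ) * Complex.I * (m : ℂ)) * (u : ℂ)) := by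
      funext u
      congr 1
      push_cast
      ring
    rw [this, integral_exp_mul_complex hm]
    have h3 : Complex.exp ((2 * (Real.pi : ℂ) * Complex.I * (m : ℂ)) * ((1 : ℝ) : ℂ)) = 1 := by
      rw [Complex.exp_eq_one_iff]
      exact ⟨m, by push_cast; ring⟩
    rw [h3]
    simp

/-! ### Values of specialised polynomials -/

/-- the exponent of `X^a` after specialisation -/
private def dote {k : ℕ} (e : Fin k → ℕ) (a : Fin k → ℤ) : ℤ := ∑ i, a i * (e i : ℤ)

private theorem h2_ev1_spec {k : ℕ} (e : Fin k → ℕ) (P : MvPolynomial (Fin k) ℤ) (u : ℝ) :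
    ev1 (spec e P) u = ∑ a ∈ P.support, ((P.coeff a : ℤ) : ℂ) *
      ez (((dote e (fun i => (a i : ℤ)) : ℤ) : ℝ) * u) := by
  unfold ev1 toC spec
  rw [MvPolynomial.aeval_def, MvPolynomial.eval₂_eq', Polynomial.map_sum, Polynomial.eval_finsetSum]
  refine Finset.sum_congr rfl fun a _ => ?_
  rw [Polynomial.map_mul, Polynomial.eval_mul]
  congr 1
  · simp
  · rw [Polynomial.map_prod, Polynomial.eval_prod]
    have : ((dote e (fun i => (a i : ℤ)) : ℤ) : ℝ) * u = ∑ i, ((a i * e i : ℕ) : ℝ) * u := by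
      unfold dote
      push_cast
      rw [Finset.sum_mul]
    rw [this]
    have hsum : ∀ (s : Finset (Fin k)) (f : Fin k → ℝ), ez (∑ i ∈ s, f i) = ∏ i ∈ s, ez (f i) := by
      intro s f
      induction s using Finset.cons_induction with
      | empty => simp [h2_ez_zero]
      | cons i s hi ih => rw [Finset.sum_cons, Finset.prod_cons, h2_ez_add, ih]
    rw [hsum]
    refine Finset.prod_congr rfl fun i _ => ?_
    rw [h2_ez_nsmul]
    simp [← pow_mul, mul_comm]

private theorem h2_normsq {k : ℕ} (e : Fin k → ℕ) (P : MvPolynomial (Fin k) ℤ) (u : ℝ) :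
    ((‖ev1 (spec e P) u‖ ^ 2 : ℝ) : ℂ) = ∑ a ∈ P.support, ∑ b ∈ P.support,
      ((P.coeff a * P.coeff b : ℤ) : ℂ) *
        ez (((dote e (fun i => (a i : ℤ) - (b i : ℤ)) : ℤ) : ℝ) * u) := by
  have h : ((‖ev1 (spec e P) u‖ ^ 2 : ℝ) : ℂ) =
      ev1 (spec e P) u * (starRingEnd ℂ) (ev1 (spec e P) u) := by
    rw [Complex.mul_conj, Complex.normSq_eq_norm_sq]
  rw [h, h2_ev1_spec, map_sum, Finset.sum_mul_sum]
  refine Finset.sum_congr rfl fun a _ => Finset.sum_congr rfl fun b _ => ?_
  rw [map_mul, h2_ez_conj]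
  have : ((dote e (fun i => (a i : ℤ) - (b i : ℤ)) : ℤ) : ℝ) * u =
      ((dote e (fun i => (a i : ℤ)) : ℤ) : ℝ) * u + -(((dote e (fun i => (b i : ℤ)) : ℤ) : ℝ) * u) := by
    unfold dote
    push_cast
    simp only [sub_mul, Finset.sum_sub_distrib]
    ring
  rw [this, h2_ez_add]
  simp
  ring

private theorem h2_continuous_ev1 (A : ℤ[X]) : Continuous (ev1 A) := by
  unfold ev1
  exact (Polynomial.continuous _).comp h2_ez_continuous

private theorem h2_periodic_ev1 (A : ℤ[X]) : Function.Periodic (ev1 A) 1 := by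
  intro u
  unfold ev1
  congr 1
  rw [h2_ez_add]
  have := h2_ez_int 1
  simp at this
  rw [this, mul_one]

/-! ### Fourier coefficients of `|P|²` -/

private theorem h2_fourier {k : ℕ} (e : Fin k → ℕ) (P : MvPolynomial (Fin k) ℤ) (v : Fin k → ℤ)
    (hinj : ∀ a ∈ P.support, ∀ b ∈ P.support,
      dote e (fun i => (a i : ℤ) - (b i : ℤ)) = dote e v → ∀ i, (a i : ℤ) - (b i : ℤ) = v i) :
    ∫ u in (0:ℝ)..1, ((‖ev1 (spec e P) u‖ ^ 2 : ℝ) : ℂ) * ez (((-dote e v : ℤ) : ℝ) * u) =
      ((acorr P v : ℤ) : ℂ) := by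
  have h1 : (fun u : ℝ => ((‖ev1 (spec e P) u‖ ^ 2 : ℝ) : ℂ) * ez (((-dote e v : ℤ) : ℝ) * u)) =
      fun u : ℝ => ∑ a ∈ P.support, ∑ b ∈ P.support,
        ((P.coeff a * P.coeff b : ℤ) : ℂ) *
        ez (((dote e (fun i => (a i : ℤ) - (b i : ℤ)) - dote e v : ℤ) : ℝ) * u) := by
    funext u
    rw [h2_normsq, Finset.sum_mul]
    refine Finset.sum_congr rfl fun a _ => ?_
    rw [Finset.sum_mul]
    refine Finset.sum_congr rfl fun b _ => ?_
    rw [mul_assoc, ← h2_ez_add]
    congr 2
    push_cast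
    ring
  rw [h1, intervalIntegral.integral_finsetSum]
  · unfold acorr
    rw [Int.cast_sum]
    refine Finset.sum_congr rfl fun a ha => ?_
    rw [Int.cast_sum]
    rw [intervalIntegral.integral_finsetSum]
    · refine Finset.sum_congr rfl fun b hb => ?_
      rw [intervalIntegral.integral_const_mul, h2_integral]
      by_cases h : ∀ i, (a i : ℤ) - (b i : ℤ) = v i
      · have h' : dote e (fun i => (a i : ℤ) - (b i : ℤ)) - dote e v = 0 := by
          have : (fun i => (a i : ℤ) - (b i : ℤ)) = v := funext h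
          rw [this, sub_self]
        rw [if_pos h', if_pos h, mul_one]
      · have h' : dote e (fun i => (a i : ℤ) - (b i : ℤ)) - dote e v ≠ 0 := by
          intro h0
          exact h (hinj a ha b hb (by linarith))
        rw [if_neg h', if_neg h]
        simp
    · intro b _
      refine Continuous.intervalIntegrable ?_ _ _
      exact continuous_const.mul (h2_ez_continuous.comp (by fun_prop))
  · intro a _
    refine Continuous.intervalIntegrable ?_ _ _
    refine continuous_finsetSum _ fun b _ => ?_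
    exact continuous_const.mul (h2_ez_continuous.comp (by fun_prop))

private theorem h2_acorr_neg {k : ℕ} (P : MvPolynomial (Fin k) ℤ) (v : Fin k → ℤ) :
    acorr P (fun i => - v i) = acorr P v := by
  unfold acorr
  rw [Finset.sum_comm]
  refine Finset.sum_congr rfl fun a _ => Finset.sum_congr rfl fun b _ => ?_
  have : (∀ i, (b i : ℤ) - (a i : ℤ) = - v i) ↔ (∀ i, (a i : ℤ) - (b i : ℤ) = v i) := by
    constructor
    · intro h i
      have := h i
      linarith
    · intro h i
      have := h i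
      linarith
  by_cases h : ∀ i, (a i : ℤ) - (b i : ℤ) = v i
  · rw [if_pos h, if_pos (this.mpr h), mul_comm]
  · rw [if_neg h, if_neg (fun h' => h (this.mp h'))]

/-! ### Injectivity of the exponents -/

/-- The exponent map is injective on vectors with entries of absolute value at most `K`. -/
private def InjOn {k : ℕ} (e : Fin k → ℕ) (K : ℕ) : Prop :=
  ∀ s : Fin k → ℤ, (∀ i, |s i| ≤ (K : ℤ)) → s ≠ 0 → ∑ i, s i * (e i : ℤ) ≠ 0

private theorem h2_eventually {k : ℕ} (𝓕 : Filter ℕ) (e : ℕ → Fin k → ℕ) (he : AsympIndep 𝓕 e)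
    (K : ℕ) : ∀ᶠ n in 𝓕, InjOn (e n) K := by
  have hfin : (Set.Icc (fun _ : Fin k => -(K : ℤ)) (fun _ => (K : ℤ))).Finite := Set.finite_Icc _ _
  have h : ∀ᶠ n in 𝓕, ∀ s ∈ Set.Icc (fun _ : Fin k => -(K : ℤ)) (fun _ => (K : ℤ)), s ≠ 0 →
      ∑ i, s i * (e n i : ℤ) ≠ 0 := by
    rw [Filter.eventually_all_finite hfin]
    intro s _
    by_cases h0 : s = 0
    · exact Eventually.of_forall fun n h => absurd h0 h
    · filter_upwards [he s h0] with n hn _
      exact hn
  filter_upwards [h] with n hn s hs h0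
  refine hn s ?_ h0
  rw [Set.mem_Icc]
  constructor
  · intro i
    exact (abs_le.mp (hs i)).1
  · intro i
    exact (abs_le.mp (hs i)).2

private theorem h2_injOn_eq {k : ℕ} {e : Fin k → ℕ} {K : ℕ} (h : InjOn e K) (v w : Fin k → ℤ)
    (hvw : ∀ i, |v i - w i| ≤ (K : ℤ)) (heq : dote e v = dote e w) : v = w := by
  by_contra hne
  refine h (fun i => v i - w i) hvw ?_ ?_
  · intro h0
    apply hne
    funext i
    have := congrFun h0 i
    simp at this
    linarith
  · unfold dote at heq
    simp only [sub_mul, Finset.sum_sub_distrib]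
    linarith

/-! ### The lower bound -/

theorem gram_lower {k : ℕ} (C D : MvPolynomial (Fin k) ℤ) (hC : C ≠ 0) (R : ℕ) (ℓ : ℝ)
    (hℓ : ∀ δ > 0, ℓ ≤ ∫ t in Set.Icc (0 : Fin k → ℝ) 1,
      Real.log (‖tv C t‖ ^ 2 + ‖tv D t‖ ^ 2 + δ)) :
    Real.exp ((∏ i, ((R - dm C D i : ℕ) : ℝ)) * ℓ) ≤ (gramY C D R).det := by
  classical
  have hcard : (Fintype.card (Box C D R) : ℝ) = ∏ i, ((R - dm C D i : ℕ) : ℝ) := by
    rw [Fintype.card_pi]
    push_cast
    simp
  rw [← hcard]
  -- a common bound for all exponents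
  set T : ℕ := C.totalDegree + D.totalDegree with hT
  have hle : ∀ P : MvPolynomial (Fin k) ℤ, P.totalDegree ≤ T → ∀ a ∈ P.support, ∀ i, a i ≤ T := by
    intro P hP a ha i
    refine le_trans ?_ hP
    refine le_trans ?_ (MvPolynomial.le_totalDegree ha)
    by_cases hi : i ∈ a.support
    · rw [Finsupp.sum]
      exact Finset.single_le_sum (f := fun j => a j) (fun j _ => Nat.zero_le _) hi
    · rw [Finsupp.notMem_support_iff] at hi
      rw [hi]
      exact Nat.zero_le _
  -- the key inequality for each δ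
  have key : ∀ δ : ℝ, 0 < δ → Real.exp (Fintype.card (Box C D R) * ℓ) ≤
      (gramY C D R + δ • (1 : Matrix (Box C D R) (Box C D R) ℝ)).det := by
    intro δ hδ
    have hlim := equidist_log Filter.atTop (fun (n : ℕ) (i : Fin k) => n ^ (i : ℕ))
      (asympIndep_pow k) C D δ hδ
    have hlim2 : Tendsto (fun n : ℕ => Real.exp (Fintype.card (Box C D R) *
        ∫ t in (0:ℝ)..1, Real.log (‖ev1 (spec (fun i : Fin k => n ^ (i : ℕ)) C) t‖ ^ 2 +
          ‖ev1 (spec (fun i : Fin k => n ^ (i : ℕ)) D) t‖ ^ 2 + δ))) atTop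
        (nhds (Real.exp (Fintype.card (Box C D R) * ∫ t in Set.Icc (0 : Fin k → ℝ) 1,
          Real.log (‖tv C t‖ ^ 2 + ‖tv D t‖ ^ 2 + δ)))) :=
      (Real.continuous_exp.tendsto _).comp (hlim.const_mul _)
    refine le_trans (Real.exp_le_exp.mpr (mul_le_mul_of_nonneg_left (hℓ δ hδ) (Nat.cast_nonneg _)))
      (le_of_tendsto hlim2 ?_)
    filter_upwards [h2_eventually Filter.atTop _ (asympIndep_pow k) (2 * T + 2 * R)] with n hn
    set e : Fin k → ℕ := fun i => n ^ (i : ℕ) with he
    have hbox : ∀ (s : Box C D R) (i : Fin k), (s i : ℕ) ≤ R := fun s i =>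
      le_trans (s i).2.le (Nat.sub_le _ _)
    -- the Toeplitz symbol
    have hent : ∀ s t : Box C D R,
        (((gramY C D R + δ • (1 : Matrix (Box C D R) (Box C D R) ℝ)) s t : ℝ) : ℂ) =
        ∫ u in (0:ℝ)..1, ((‖ev1 (spec e C) u‖ ^ 2 + ‖ev1 (spec e D) u‖ ^ 2 + δ : ℝ) : ℂ) *
          ez (((dote e (fun i => ((s i : ℕ) : ℤ)) - dote e (fun i => ((t i : ℕ) : ℤ)) : ℤ) : ℝ) * u) := by
      intro s t
      set v : Fin k → ℤ := fun i => ((t i : ℕ) : ℤ) - ((s i : ℕ) : ℤ) with hv
      have hdv : dote e (fun i => ((s i : ℕ) : ℤ)) - dote e (fun i => ((t i : ℕ) : ℤ)) = - dote e v := by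
        unfold dote
        simp only [hv, sub_mul, Finset.sum_sub_distrib]
        ring
      rw [hdv]
      have hP : ∀ P : MvPolynomial (Fin k) ℤ, P.totalDegree ≤ T →
          ∀ a ∈ P.support, ∀ b ∈ P.support,
          dote e (fun i => (a i : ℤ) - (b i : ℤ)) = dote e v → ∀ i, (a i : ℤ) - (b i : ℤ) = v i := by
        intro P hPT a ha b hb heq i
        refine congrFun (h2_injOn_eq hn _ _ ?_ heq) i
        intro j
        have h1 := hle P hPT a ha j
        have h2 := hle P hPT b hb j
        have h3 := hbox s j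
        have h4 := hbox t j
        rw [hv, abs_le]
        push_cast
        constructor <;> omega
      have hsplit : (fun u : ℝ => ((‖ev1 (spec e C) u‖ ^ 2 + ‖ev1 (spec e D) u‖ ^ 2 + δ : ℝ) : ℂ) *
          ez (((- dote e v : ℤ) : ℝ) * u)) = fun u : ℝ =>
          (((‖ev1 (spec e C) u‖ ^ 2 : ℝ) : ℂ) * ez (((- dote e v : ℤ) : ℝ) * u) +
           ((‖ev1 (spec e D) u‖ ^ 2 : ℝ) : ℂ) * ez (((- dote e v : ℤ) : ℝ) * u)) +
           (δ : ℂ) * ez (((- dote e v : ℤ) : ℝ) * u) := by
        funext u
        push_cast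
        ring
      have hcz : Continuous fun u : ℝ => ez (((- dote e v : ℤ) : ℝ) * u) :=
        h2_ez_continuous.comp (by fun_prop)
      have hcA : ∀ A : ℤ[X], Continuous fun u : ℝ =>
          ((‖ev1 A u‖ ^ 2 : ℝ) : ℂ) * ez (((- dote e v : ℤ) : ℝ) * u) := fun A =>
        (Complex.continuous_ofReal.comp ((h2_continuous_ev1 A).norm.pow 2)).mul hcz
      rw [hsplit, intervalIntegral.integral_add, intervalIntegral.integral_add,
        h2_fourier e C v (hP C (by omega)), h2_fourier e D v (hP D (by omega)),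
        intervalIntegral.integral_const_mul, h2_integral]
      · have hst : (fun i => ((s i : ℕ) : ℤ) - ((t i : ℕ) : ℤ)) = fun i => - v i := by
          funext i
          simp [hv]
        have hneg : (- dote e v = 0) ↔ s = t := by
          rw [neg_eq_zero]
          constructor
          · intro h0
            have : v = 0 := by
              refine h2_injOn_eq hn v 0 ?_ (by rw [h0]; simp [dote])
              intro j
              have h3 := hbox s j
              have h4 := hbox t j
              rw [hv, abs_le]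
              push_cast
              constructor <;> (simp only [Pi.zero_apply]; omega)
            funext i
            have := congrFun this i
            simp only [hv, Pi.zero_apply] at this
            apply Fin.ext
            omega
          · intro h0
            subst h0
            simp [hv, dote]
        have hg : gramY C D R s t = ((acorr C v + acorr D v : ℤ) : ℝ) := by
          unfold gramY
          rw [Matrix.of_apply, hst, h2_acorr_neg, h2_acorr_neg]
        rw [Matrix.add_apply, hg, Matrix.smul_apply, Matrix.one_apply]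
        by_cases hs : s = t
        · rw [if_pos hs, if_pos (hneg.mpr hs)]
          push_cast
          simp
        · rw [if_neg hs, if_neg (fun h => hs (hneg.mp h))]
          push_cast
          simp
      · exact (hcA _).intervalIntegrable _ _
      · exact (hcA _).intervalIntegrable _ _
      · exact ((hcA _).add (hcA _)).intervalIntegrable _ _
      · exact (continuous_const.mul hcz).intervalIntegrable _ _
    have htl := toeplitz_lower (τ := Box C D R) (fun s => dote e (fun i => ((s i : ℕ) : ℤ))) ?_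
      (fun u => ‖ev1 (spec e C) u‖ ^ 2 + ‖ev1 (spec e D) u‖ ^ 2 + δ) ?_ ?_ ?_
      ((gramY C D R + δ • (1 : Matrix (Box C D R) (Box C D R) ℝ)).map (fun x => (x : ℂ)))
      (fun s t => by rw [Matrix.map_apply]; exact hent s t)
    · have hdet : ((gramY C D R + δ • (1 : Matrix (Box C D R) (Box C D R) ℝ)).map
          (fun x => (x : ℂ))).det =
          (((gramY C D R + δ • (1 : Matrix (Box C D R) (Box C D R) ℝ)).det : ℝ) : ℂ) := by
        have := (RingHom.map_det Complex.ofRealHom
          (gramY C D R + δ • (1 : Matrix (Box C D R) (Box C D R) ℝ)))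
        rw [RingHom.mapMatrix_apply] at this
        exact this.symm
      rw [hdet, Complex.ofReal_re] at htl
      exact htl
    · intro s t hst
      have := h2_injOn_eq hn _ _ ?_ hst
      · funext i
        have := congrFun this i
        apply Fin.ext
        simpa using this
      · intro j
        have h3 := hbox s j
        have h4 := hbox t j
        rw [abs_le]
        push_cast
        constructor <;> omega
    · exact (((h2_continuous_ev1 _).norm.pow 2).add ((h2_continuous_ev1 _).norm.pow 2)).add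
        continuous_const
    · intro u
      show ‖ev1 (spec e C) (u + 1)‖ ^ 2 + ‖ev1 (spec e D) (u + 1)‖ ^ 2 + δ = _
      rw [h2_periodic_ev1, h2_periodic_ev1]
    · intro u
      positivity
  -- δ → 0
  have hcont : Continuous fun δ : ℝ =>
      (gramY C D R + δ • (1 : Matrix (Box C D R) (Box C D R) ℝ)).det := by
    refine Continuous.matrix_det ?_
    fun_prop
  have h0 : Tendsto (fun δ : ℝ => (gramY C D R + δ • (1 : Matrix (Box C D R) (Box C D R) ℝ)).det)
      (nhdsWithin 0 (Set.Ioi 0)) (nhds (gramY C D R).det) := by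
    have := hcont.tendsto 0
    simp only [zero_smul, add_zero] at this
    exact this.mono_left nhdsWithin_le_nhds
  refine ge_of_tendsto h0 ?_
  filter_upwards [self_mem_nhdsWithin] with δ hδ
  exact key δ hδ

/-! ### The final inequality -/

theorem final_ineq {k : ℕ} (C D : MvPolynomial (Fin k) ℤ) (hC : C ≠ 0) (hD : D ≠ 0)
    (hCD : IsRelPrime C D) (𝓕 : Filter ℕ) [𝓕.NeBot] (e : ℕ → Fin k → ℕ) (he : AsympIndep 𝓕 e)
    (A B : ℕ → ℤ[X]) (hA : ∀ n, A n ≠ 0) (hB : ∀ n, B n ≠ 0)
    (hrel : ∀ᶠ n in 𝓕, spec (e n) D * A n = spec (e n) C * B n)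
    (p : ℕ → ℂ[X]) (c : ℝ) (hc : 0 < c) (hp : ∀ᶠ n in 𝓕, c ≤ ‖(p n).coeff 0‖)
    (hpA : ∀ n, l2le (p n * toC (A n))) (hpB : ∀ n, l2le (p n * toC (B n))) (ℓ : ℝ)
    (hℓ : ∀ δ > 0, ℓ ≤ ∫ t in Set.Icc (0 : Fin k → ℝ) 1,
      Real.log (‖tv C t‖ ^ 2 + ‖tv D t‖ ^ 2 + δ)) :
    ℓ ≤ Real.log 2 - 2 * Real.log c := by
  classical
  set x : ℕ → ℝ := fun R => ∏ i, (((R - dm C D i : ℕ) : ℝ) / R) with hx
  have hxlim : Tendsto x atTop (nhds 1) := by
    have h1 : Tendsto x atTop (nhds (∏ _i : Fin k, (1 : ℝ))) := by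
      refine tendsto_finsetProd _ fun i _ => ?_
      have h2 : Tendsto (fun R : ℕ => 1 - (dm C D i : ℝ) / (R : ℝ)) atTop (nhds (1 - 0)) :=
        tendsto_const_nhds.sub (tendsto_const_div_atTop_nhds_zero_nat _)
      rw [sub_zero] at h2
      refine h2.congr' ?_
      filter_upwards [Filter.eventually_gt_atTop (dm C D i)] with R hR
      rw [Nat.cast_sub hR.le]
      have : (R : ℝ) ≠ 0 := by
        have : 0 < R := by omega
        positivity
      field_simp
    simpa using h1
  have hineq : ∀ᶠ R : ℕ in atTop, x R * ℓ ≤ (2 - x R) * Real.log (2 / c ^ 2 / (2 - x R)) := by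
    have hbig : ∀ᶠ R : ℕ in atTop, ∀ i, dm C D i < R :=
      Filter.eventually_all.mpr fun i => Filter.eventually_gt_atTop _
    filter_upwards [hbig, Filter.eventually_gt_atTop 0] with R hR hR0
    have hRpos : (0 : ℝ) < R := by exact_mod_cast hR0
    have hRk : (0 : ℝ) < (R : ℝ) ^ k := pow_pos hRpos k
    set ρ : ℕ := ∏ i, (R - dm C D i) with hρ
    have hρle : ρ ≤ R ^ k := by
      calc ρ ≤ ∏ _i : Fin k, R := Finset.prod_le_prod' fun i _ => Nat.sub_le _ _
        _ = R ^ k := by simp
    set r : ℕ := 2 * R ^ k - ρ with hr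
    have hr1 : r + ∏ i, (R - dm C D i) = 2 * R ^ k := by
      rw [← hρ]; omega
    have hRk0 : 0 < R ^ k := pow_pos hR0 k
    have hrpos : 0 < r := by omega
    have hrR : (0 : ℝ) < r := by exact_mod_cast hrpos
    have hxR : x R = (ρ : ℝ) / (R : ℝ) ^ k := by
      rw [hx, hρ]
      push_cast
      rw [Finset.prod_div_distrib]
      simp
    have hrx : (2 - x R) = (r : ℝ) / (R : ℝ) ^ k := by
      rw [hxR]
      have : (r : ℝ) + (ρ : ℝ) = 2 * (R : ℝ) ^ k := by
        have := hr1
        rw [← hρ] at this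
        exact_mod_cast this
      field_simp
      linarith
    obtain ⟨n, hn1, hn2, hn3⟩ := ((h2_eventually 𝓕 e he (4 * R)).and (hrel.and hp)).exists
    have hup := gram_upper C D hC hD hCD R hR (e n) (by
      intro s hs h0
      refine hn1 s ?_ h0
      intro i
      have := hs i
      push_cast
      exact this) (A n) (B n) (hA n) (hB n) hn2 (p n) c hc hn3 (hpA n) (hpB n) r hr1
    have hlow := gram_lower C D hC R ℓ hℓ
    have hchain := le_trans hlow hup
    have hbase : (0 : ℝ) < (2 * (R : ℝ) ^ k) / (c ^ 2 * r) := by positivity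
    have hlog := Real.log_le_log (Real.exp_pos _) hchain
    rw [Real.log_exp, Real.log_pow] at hlog
    have hprod : ∏ i, ((R - dm C D i : ℕ) : ℝ) = (ρ : ℝ) := by
      rw [hρ]; push_cast; rfl
    rw [hprod] at hlog
    have harg : 2 / c ^ 2 / (2 - x R) = (2 * (R : ℝ) ^ k) / (c ^ 2 * r) := by
      rw [hrx]
      field_simp
    rw [harg, hrx, hxR]
    have h3 := div_le_div_of_nonneg_right hlog hRk.le
    calc (ρ : ℝ) / (R : ℝ) ^ k * ℓ = (ρ : ℝ) * ℓ / (R : ℝ) ^ k := by ring
      _ ≤ _ := h3
      _ = _ := by ring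
  have hl1 : Tendsto (fun R => x R * ℓ) atTop (nhds (1 * ℓ)) := hxlim.mul_const ℓ
  have hl2 : Tendsto (fun R => (2 - x R) * Real.log (2 / c ^ 2 / (2 - x R))) atTop
      (nhds ((2 - 1) * Real.log (2 / c ^ 2 / (2 - 1)))) := by
    have h2x : Tendsto (fun R => 2 - x R) atTop (nhds (2 - 1)) := tendsto_const_nhds.sub hxlim
    refine h2x.mul ?_
    have hne : (2 / c ^ 2 / (2 - 1) : ℝ) ≠ 0 := by positivity
    refine (Real.continuousAt_log hne).tendsto.comp ?_
    exact tendsto_const_nhds.div h2x (by norm_num)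
  have hfin := le_of_tendsto_of_tendsto hl1 hl2 hineq
  rw [one_mul] at hfin
  refine le_trans hfin (le_of_eq ?_)
  have : (2 / c ^ 2 / (2 - 1) : ℝ) = 2 / c ^ 2 := by ring
  rw [this, Real.log_div (by norm_num) (by positivity), Real.log_pow]
  push_cast
  ring

end

end Pool.Agent.H261R2.CM
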