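import Pool.Agent.H261R2.CM.D
import Pool.Agent.H261R2.CM.F
import Pool.Agent.H261R2.CM.H3

set_option autoImplicit false

namespace Pool.Agent.H261R2.CM

open Polynomial Filter MeasureTheory Matrix Topology

noncomputable section

theorem l2le_of_le (P : ℂ[X]) (h : ∀ t : ℝ, ‖P.eval (ez t)‖ ≤ 1) : l2le P := by
  unfold l2le
  rw [parseval]
  have hcont : Continuous fun t : ℝ => ‖P.eval (ez t)‖ ^ 2 := by
    unfold ez
    fun_prop
  calc ∫ t in (0:ℝ)..1, ‖P.eval (ez t)‖ ^ 2 ≤ ∫ t in (0:ℝ)..1, (1 : ℝ) := by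
        refine intervalIntegral.integral_mono_on (by norm_num) (hcont.intervalIntegrable _ _)
          (by simp) fun t _ => ?_
        have h1 := h t
        nlinarith [norm_nonneg (P.eval (ez t))]
    _ = 1 := by simp

theorem I1_ev1_mul (A B : ℤ[X]) (t : ℝ) : ev1 (A * B) t = ev1 A t * ev1 B t := by
  unfold ev1 toC
  rw [Polynomial.map_mul, Polynomial.eval_mul]

theorem I1_m1_mul (A B : ℤ[X]) : m1 (A * B) = m1 A * m1 B := by
  unfold m1 toC
  rw [Polynomial.map_mul, Polynomial.mahlerMeasure_mul]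

theorem I1_one_le_m1 {A : ℤ[X]} (hA : A ≠ 0) : 1 ≤ m1 A := F_one_le_m1 hA

theorem I1_quot {A B C D : ℤ[X]} (hA : A ≠ 0) (hC : C ≠ 0) (hAB : IsRelPrime A B)
    (h : D * A = C * B) : ∃ Q : ℤ[X], Q ≠ 0 ∧ C = Q * A ∧ D = Q * B := by
  have h1 : A ∣ C * B := ⟨D, by rw [← h, mul_comm]⟩
  obtain ⟨Q, hQ⟩ := IsRelPrime.dvd_of_dvd_mul_right hAB h1
  refine ⟨Q, ?_, by rw [hQ, mul_comm], ?_⟩
  · rintro rfl
    exact hC (by rw [hQ, mul_zero])
  · apply mul_right_cancel₀ hA
    rw [h, hQ]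
    ring

theorem limit_thm {k : ℕ} (C D : MvPolynomial (Fin k) ℤ) (hC : C ≠ 0) (hD : D ≠ 0)
    (hCD : IsRelPrime C D) (𝒰 : Ultrafilter ℕ) (e : ℕ → Fin k → ℕ)
    (he : AsympIndep (𝒰 : Filter ℕ) e) (A B : ℕ → ℤ[X]) (hAB : ∀ n, Pair1 (A n) (B n))
    (hrel : ∀ᶠ n in (𝒰 : Filter ℕ), spec (e n) D * A n = spec (e n) C * B n) :
    PairK C D ∧ Tendsto (fun n => m1 (A n)) (𝒰 : Filter ℕ) (nhds (mM C)) := by
  classical
  have hquot : ∀ᶠ n in (𝒰 : Filter ℕ), ∃ Q : ℤ[X], Q ≠ 0 ∧ spec (e n) C = Q * A n ∧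
      spec (e n) D = Q * B n := by
    filter_upwards [hrel, spec_ne_zero _ e he C hC] with n hn hn0
    exact I1_quot (hAB n).1 hn0 (hAB n).2.2.1 hn
  have hnorm : ∀ᶠ n in (𝒰 : Filter ℕ), ∀ t : ℝ, ‖ev1 (spec (e n) C) t‖ = ‖ev1 (spec (e n) D) t‖ := by
    filter_upwards [hquot] with n hn t
    obtain ⟨Q, _, h1, h2⟩ := hn
    rw [h1, h2, I1_ev1_mul, I1_ev1_mul, norm_mul, norm_mul, (hAB n).2.2.2 t]
  have htv := norm_eq_of_spec (𝒰 : Filter ℕ) e he C D hnorm
  refine ⟨⟨hC, hD, hCD, htv⟩, ?_⟩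
  have hMC : 1 ≤ mM C := one_le_mM C hC
  rw [tendsto_order]
  constructor
  · -- lower bound
    intro y hy
    by_contra hcon
    rw [← Ultrafilter.eventually_not] at hcon
    have hcon' : ∀ᶠ n in (𝒰 : Filter ℕ), m1 (A n) ≤ y := by
      filter_upwards [hcon] with n hn
      exact not_lt.mp hn
    obtain ⟨n0, hn0⟩ := hcon'.exists
    have hy1 : 1 ≤ y := le_trans (I1_one_le_m1 (hAB n0).1) hn0
    obtain ⟨y', hyy', hy'⟩ := exists_between hy
    have hy'pos : 0 < y' := by linarith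
    set c : ℝ := 1 / y' with hc
    have hcpos : 0 < c := by positivity
    have hex : ∀ n, ∃ p : ℂ[X], (∀ t : ℝ, ‖(p * toC (A n)).eval (ez t)‖ ≤ 1) ∧
        (m1 (A n) ≤ y → c ≤ ‖p.coeff 0‖) := by
      intro n
      by_cases hn : m1 (A n) ≤ y
      · have hcm : c * m1 (A n) < 1 := by
          rw [hc, one_div, inv_mul_lt_iff₀ hy'pos, mul_one]
          exact lt_of_le_of_lt hn hyy'
        obtain ⟨p, h1, h2⟩ := outer_approx (A n) (hAB n).1 c hcm
        exact ⟨p, h1, fun _ => h2⟩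
      · refine ⟨0, fun t => by simp, fun h => absurd h hn⟩
    choose p hp1 hp2 using hex
    have hpA : ∀ n, l2le (p n * toC (A n)) := fun n => l2le_of_le _ (hp1 n)
    have hpB : ∀ n, l2le (p n * toC (B n)) := fun n => by
      refine l2le_of_le _ fun t => ?_
      have h1 := hp1 n t
      rw [Polynomial.eval_mul, norm_mul] at h1 ⊢
      have h2 := (hAB n).2.2.2 t
      unfold ev1 at h2
      rwa [← h2]
    have hfin := final_ineq C D hC hD hCD (𝒰 : Filter ℕ) e he A B (fun n => (hAB n).1)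
      (fun n => (hAB n).2.1) hrel p c hcpos (hcon'.mono fun n hn => hp2 n hn) hpA hpB
      (Real.log 2 + 2 * Real.log (mM C)) ?_
    · rw [hc, one_div, Real.log_inv] at hfin
      have h3 : Real.log (mM C) ≤ Real.log y' := by linarith
      have h4 : Real.log y' < Real.log (mM C) := Real.log_lt_log hy'pos hy'
      linarith
    · intro δ hδ
      have h5 := mM_lower C hC (δ / 2) (by positivity)
      have hvol : (∫ t in Set.Icc (0 : Fin k → ℝ) 1, (Real.log 2 : ℝ)) = Real.log 2 := by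
        rw [MeasureTheory.setIntegral_const]
        simp [MeasureTheory.measureReal_def, Real.volume_Icc_pi_toReal]
      have h6 : ∫ t in Set.Icc (0 : Fin k → ℝ) 1, Real.log (‖tv C t‖ ^ 2 + ‖tv D t‖ ^ 2 + δ) =
          (∫ t in Set.Icc (0 : Fin k → ℝ) 1, (Real.log 2 : ℝ)) +
            ∫ t in Set.Icc (0 : Fin k → ℝ) 1, Real.log (‖tv C t‖ ^ 2 + δ / 2) := by
        rw [← MeasureTheory.integral_add]
        · refine MeasureTheory.integral_congr_ae (Filter.Eventually.of_forall fun t => ?_)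
          simp only
          rw [← htv t, ← Real.log_mul two_ne_zero (by positivity)]
          congr 1
          ring
        · exact MeasureTheory.integrable_const _
        · exact (F_cont_f C (δ / 2) (by positivity)).continuousOn.integrableOn_compact
            isCompact_Icc
      rw [h6, hvol]
      linarith
  · -- upper bound
    intro x hx
    have hxpos : 0 < x := by linarith
    have hlog : 2 * Real.log (mM C) < 2 * Real.log x := by
      have := Real.log_lt_log (by linarith : 0 < mM C) hx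
      linarith
    obtain ⟨δ, hδ, hint⟩ := mM_upper C hC (2 * Real.log x) hlog
    have heq := equidist_log (𝒰 : Filter ℕ) e he C 0 δ hδ
    have hev0 : ∀ t : ℝ, ev1 (0 : ℤ[X]) t = 0 := fun t => by simp [ev1, toC]
    have htv0 : ∀ t : Fin k → ℝ, tv (0 : MvPolynomial (Fin k) ℤ) t = 0 := fun t => by simp [tv]
    simp only [map_zero, hev0, htv0, norm_zero, ne_eq, OfNat.ofNat_ne_zero, not_false_eq_true,
      zero_pow, add_zero] at heq
    filter_upwards [heq.eventually_lt_const hint, hquot] with n hn1 hn2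
    obtain ⟨Q, hQ, h1, _⟩ := hn2
    have hA := (hAB n).1
    have hne : spec (e n) C ≠ 0 := by rw [h1]; exact mul_ne_zero hQ hA
    have h3 := m1_lower (spec (e n) C) hne δ hδ
    have h4 : m1 (spec (e n) C) = m1 Q * m1 (A n) := by rw [h1, I1_m1_mul]
    have h5 := I1_one_le_m1 hQ
    have h6 := I1_one_le_m1 hA
    have h7 : m1 (A n) ≤ m1 (spec (e n) C) := by rw [h4]; nlinarith
    have h8 : Real.log (m1 (A n)) ≤ Real.log (m1 (spec (e n) C)) :=
      Real.log_le_log (by linarith) h7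
    have h9 : Real.log (m1 (A n)) < Real.log x := by linarith
    exact (Real.log_lt_log_iff (by linarith) hxpos).mp h9

end

end Pool.Agent.H261R2.CM
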