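import Pool.Agent.H261R2.CM.I2
import Pool.Agent.H261R2.CM.G
import Pool.Agent.H261R2.CM.C3
import Pool.Agent.H261R2.CM.C4

set_option autoImplicit false

namespace Pool.Agent.H261R2.CM

open Polynomial Filter MeasureTheory Matrix Topology

noncomputable section

/-- C: there is a nonzero relation with bounded (standard) support and coefficients. -/
theorem relation_exists (A B : ℕ → ℤ[X]) (p : ℕ → ℂ[X]) (c : ℝ) (hc : 0 < c)
    (hp : ∀ n, c ≤ ‖(p n).coeff 0‖) (hpA : ∀ n, l2le (p n * toC (A n)))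
    (hpB : ∀ n, l2le (p n * toC (B n))) :
    ∃ (F : Finset Gam) (x : Gam → Bool → ℤ), (∃ γ ∈ F, ∃ b, x γ b ≠ 0) ∧
      ∀ᶠ n in (hyperfilter ℕ : Filter ℕ), ∀ N : ℤ,
        ∑ γ ∈ F, (x γ true * zc (A n) (N - rep γ n) + x γ false * zc (B n) (N - rep γ n)) = 0 := by
  by_contra hcon
  refine chain_contradiction A B p hpA hpB c hc hp fun F => ?_
  by_contra h
  exact hcon (relation_of_dependent A B p c hc hp hpA hpB F h)

/-- The general compactness statement: a sequence of pairs of bounded measure is, along the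
hyperfilter, a specialisation of one fixed coprime pair. -/
theorem pairs_compact (A B : ℕ → ℤ[X]) (hAB : ∀ n, Pair1 (A n) (B n)) (K : ℝ)
    (hK : ∀ n, m1 (A n) ≤ K) :
    ∃ (k : ℕ) (e : ℕ → Fin k → ℕ) (C D : MvPolynomial (Fin k) ℤ), 1 ≤ k ∧ PairK C D ∧
      AsympIndep (hyperfilter ℕ : Filter ℕ) e ∧
      (∀ᶠ n in (hyperfilter ℕ : Filter ℕ), spec (e n) D * A n = spec (e n) C * B n) ∧
      Tendsto (fun n => m1 (A n)) (hyperfilter ℕ : Filter ℕ) (nhds (mM C)) := by
  have hKpos : 0 < |K| + 1 := by positivity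
  have hKle : ∀ n, m1 (A n) < |K| + 1 := fun n =>
    lt_of_le_of_lt (hK n) (lt_of_le_of_lt (le_abs_self K) (lt_add_one _))
  set c : ℝ := 1 / (|K| + 1) with hc
  have hcpos : 0 < c := by positivity
  have hcm : ∀ n, c * m1 (A n) < 1 := by
    intro n
    rw [hc, one_div, inv_mul_lt_iff₀ hKpos, mul_one]
    exact hKle n
  choose p hp1 hp2 using fun n => outer_approx (A n) (hAB n).1 c (hcm n)
  have hpA : ∀ n, l2le (p n * toC (A n)) := fun n => l2le_of_le _ (hp1 n)
  have hpB : ∀ n, l2le (p n * toC (B n)) := fun n => by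
    refine l2le_of_le _ fun t => ?_
    have h1 := hp1 n t
    rw [Polynomial.eval_mul, norm_mul] at h1 ⊢
    have h2 := (hAB n).2.2.2 t
    unfold ev1 at h2
    rwa [← h2]
  obtain ⟨F, x, hx, hrel⟩ := relation_exists A B p c hcpos hp2 hpA hpB
  obtain ⟨k, e, C, D, hk, hC, hD, hCD, he, hrel'⟩ := structure_of_relation A B
    (fun n => (hAB n).1) (fun n => (hAB n).2.1) F x hx hrel
  obtain ⟨h1, h2⟩ := limit_thm C D hC hD hCD (hyperfilter ℕ) e he A B hAB hrel'
  exact ⟨k, e, C, D, hk, h1, he, hrel', h2⟩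

theorem closed_pairs :
    IsClosed {x : ℝ | ∃ k : ℕ, 1 ≤ k ∧ ∃ C D : MvPolynomial (Fin k) ℤ, PairK C D ∧ x = mM C} := by
  refine IsSeqClosed.isClosed ?_
  intro x μ hx hlim
  choose k hk C D hCD hxC using hx
  have happ : ∀ n, ∃ A B : ℤ[X], Pair1 A B ∧ |m1 A - mM (C n)| < 1 / ((n : ℝ) + 1) := fun n =>
    approx_one_var (C n) (D n) (hCD n) _ (by positivity)
  choose A B hAB hA using happ
  have hlim1 : Tendsto (fun n => m1 (A n)) atTop (𝓝 μ) := by
    have h1 : Tendsto (fun n => m1 (A n) - mM (C n)) atTop (𝓝 0) := by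
      refine squeeze_zero_norm (fun n => ?_) tendsto_one_div_add_atTop_nhds_zero_nat
      rw [Real.norm_eq_abs]
      exact (hA n).le
    have h2 : Tendsto (fun n => mM (C n)) atTop (𝓝 μ) := by
      refine hlim.congr fun n => hxC n
    have h3 := h1.add h2
    simp only [sub_add_cancel, zero_add] at h3
    exact h3
  obtain ⟨K, hK⟩ := hlim1.bddAbove_range
  obtain ⟨k', e, C', D', hk', hpair, _, _, hlim2⟩ := pairs_compact A B hAB K
    fun n => hK ⟨n, rfl⟩
  refine ⟨k', hk', C', D', hpair, ?_⟩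
  have hle : (hyperfilter ℕ : Filter ℕ) ≤ atTop := by
    rw [← Nat.cofinite_eq_atTop]
    exact hyperfilter_le_cofinite
  exact tendsto_nhds_unique (hlim1.mono_left hle) hlim2

end

end Pool.Agent.H261R2.CM
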