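import Pool.Agent.H261R2.CM.I3

set_option autoImplicit false

namespace Pool.Agent.H261R2.CM

open Polynomial Filter MeasureTheory Matrix Topology

noncomputable section

theorem I4_countable (k : ℕ) : Countable (MvPolynomial (Fin k) ℤ) := by
  classical
  let f : MvPolynomial (Fin k) ℤ → ((Fin k →₀ ℕ) →₀ ℤ) := fun P =>
    Finsupp.onFinset P.support (fun s => P.coeff s) fun s hs => MvPolynomial.mem_support_iff.mpr hs
  have hf : Function.Injective f := by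
    intro P Q h
    ext s
    exact DFunLike.congr_fun h s
  exact hf.countable

/-- Finite structure: up to an arbitrarily small error in the measure, all pairs of bounded measure
are specialisations of finitely many pairs. -/
theorem finite_structure (K ε : ℝ) (hε : 0 < ε) :
    ∃ 𝒯 : Finset (Σ k : ℕ, MvPolynomial (Fin k) ℤ × MvPolynomial (Fin k) ℤ),
      (∀ τ ∈ 𝒯, 1 ≤ τ.1 ∧ PairK τ.2.1 τ.2.2) ∧
      ∀ A B : ℤ[X], Pair1 A B → m1 A ≤ K →
        ∃ τ ∈ 𝒯, ∃ e : Fin τ.1 → ℕ, spec e τ.2.1 ≠ 0 ∧ spec e τ.2.2 ≠ 0 ∧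
          spec e τ.2.2 * A = spec e τ.2.1 * B ∧ |m1 A - mM τ.2.1| < ε := by
  classical
  have hcount : Countable (Σ k : ℕ, MvPolynomial (Fin k) ℤ × MvPolynomial (Fin k) ℤ) := by
    have := I4_countable
    infer_instance
  obtain ⟨g, hg⟩ := exists_surjective_nat
    (Σ k : ℕ, MvPolynomial (Fin k) ℤ × MvPolynomial (Fin k) ℤ)
  by_contra hcon
  have hall : ∀ n : ℕ, ∃ A B : ℤ[X], Pair1 A B ∧ m1 A ≤ K ∧
      ∀ τ ∈ ((Finset.range n).image g).filter fun τ => 1 ≤ τ.1 ∧ PairK τ.2.1 τ.2.2,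
        ∀ e : Fin τ.1 → ℕ, ¬ (spec e τ.2.1 ≠ 0 ∧ spec e τ.2.2 ≠ 0 ∧
          spec e τ.2.2 * A = spec e τ.2.1 * B ∧ |m1 A - mM τ.2.1| < ε) := by
    intro n
    by_contra hn
    apply hcon
    refine ⟨((Finset.range n).image g).filter fun τ => 1 ≤ τ.1 ∧ PairK τ.2.1 τ.2.2,
      fun τ hτ => (Finset.mem_filter.mp hτ).2, fun A B hAB hK => ?_⟩
    by_contra h2
    apply hn
    refine ⟨A, B, hAB, hK, fun τ hτ e he => h2 ⟨τ, hτ, e, he⟩⟩
  choose A B hAB hK hno using hall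
  obtain ⟨k, e, C, D, hk, hCD, he, hrel, hlim⟩ := pairs_compact A B hAB K hK
  obtain ⟨N, hN⟩ := hg ⟨k, C, D⟩
  have hev : ∀ᶠ n in (hyperfilter ℕ : Filter ℕ), |m1 (A n) - mM C| < ε := by
    have := (Metric.tendsto_nhds.mp hlim) ε hε
    filter_upwards [this] with n hn
    rwa [Real.dist_eq] at hn
  have hbig : ∀ᶠ n in (hyperfilter ℕ : Filter ℕ), N < n := by
    have h1 : ∀ᶠ n in (atTop : Filter ℕ), N < n := eventually_gt_atTop N
    exact I2_hyper_le h1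
  obtain ⟨n, ⟨⟨⟨h1, h2⟩, h3⟩, h4⟩, h5⟩ := ((((hbig.and hrel).and hev).and
    (spec_ne_zero _ e he C hCD.1)).and (spec_ne_zero _ e he D hCD.2.1)).exists
  have hmem : (⟨k, C, D⟩ : Σ k : ℕ, MvPolynomial (Fin k) ℤ × MvPolynomial (Fin k) ℤ) ∈
      ((Finset.range n).image g).filter fun τ => 1 ≤ τ.1 ∧ PairK τ.2.1 τ.2.2 := by
    rw [Finset.mem_filter, Finset.mem_image]
    exact ⟨⟨N, Finset.mem_range.mpr h1, hN⟩, hk, hCD⟩
  exact hno n _ hmem (e n) ⟨h4, h5, h2, h3⟩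

end

end Pool.Agent.H261R2.CM
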