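import Pool.Agent.H261R2.CM.K5
import Pool.Agent.H261R2.CM.I4

set_option autoImplicit false

namespace Pool.Agent.H261R2.CM

open Polynomial Filter MeasureTheory Matrix Topology

noncomputable section

theorem I5_div {k : ℕ} (C : MvPolynomial (Fin k) ℤ) (hC : C ≠ 0)
    (𝓕 : Filter ℕ) (e : ℕ → Fin k → ℕ) (he : AsympIndep 𝓕 e) (A Q : ℕ → ℤ[X])
    (hQ : ∀ᶠ n in 𝓕, Q n ≠ 0 ∧ spec (e n) C = Q n * A n)
    (hlim : Tendsto (fun n => Real.log (m1 (Q n))) 𝓕 (𝓝 0)) :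
    Tendsto (fun n => m1 (A n)) 𝓕 (𝓝 (mM C)) := by
  have h1 := m1_lim 𝓕 e he C hC
  have h2 : Tendsto (fun n => Real.exp (-Real.log (m1 (Q n)))) 𝓕 (𝓝 1) := by
    have h3 := (Real.continuous_exp.tendsto _).comp hlim.neg
    rw [neg_zero, Real.exp_zero] at h3
    exact h3
  have h3 := h1.mul h2
  rw [mul_one] at h3
  refine h3.congr' ?_
  filter_upwards [hQ] with n hn
  have h4 : 0 < m1 (Q n) := lt_of_lt_of_le one_pos (I1_one_le_m1 hn.1)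
  rw [Real.exp_neg, Real.exp_log h4, hn.2, I1_m1_mul]
  field_simp

/-- Finite structure for coprime pairs with bounded `∫ log max(|A|, |B|)`. -/
theorem finite_structure_general (K ε : ℝ) (hε : 0 < ε) :
    ∃ 𝒯 : Finset (Σ k : ℕ, MvPolynomial (Fin k) ℤ × MvPolynomial (Fin k) ℤ),
      (∀ τ ∈ 𝒯, 1 ≤ τ.1 ∧ τ.2.1 ≠ 0 ∧ τ.2.2 ≠ 0 ∧ IsRelPrime τ.2.1 τ.2.2) ∧
      ∀ A B : ℤ[X], A ≠ 0 → B ≠ 0 → IsRelPrime A B → mx1 A B ≤ K →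
        ∃ τ ∈ 𝒯, ∃ (e : Fin τ.1 → ℕ) (Q : ℤ[X]), Q ≠ 0 ∧ spec e τ.2.1 = Q * A ∧
          spec e τ.2.2 = Q * B ∧ m1 Q < 1 + ε ∧ |m1 A - mM τ.2.1| < ε ∧
          |m1 B - mM τ.2.2| < ε ∧ |mx1 A B - mx τ.2.1 τ.2.2| < ε ∧
          ((∀ t, ‖ev1 A t‖ = ‖ev1 B t‖) → ∀ t, ‖tv τ.2.1 t‖ = ‖tv τ.2.2 t‖) := by
  classical
  have hcount : Countable (Σ k : ℕ, MvPolynomial (Fin k) ℤ × MvPolynomial (Fin k) ℤ) := by
    have := I4_countable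
    infer_instance
  obtain ⟨g, hg⟩ := exists_surjective_nat
    (Σ k : ℕ, MvPolynomial (Fin k) ℤ × MvPolynomial (Fin k) ℤ)
  by_contra hcon
  have hall : ∀ n : ℕ, ∃ A B : ℤ[X], A ≠ 0 ∧ B ≠ 0 ∧ IsRelPrime A B ∧ mx1 A B ≤ K ∧
      ∀ τ ∈ ((Finset.range n).image g).filter fun τ => 1 ≤ τ.1 ∧ τ.2.1 ≠ 0 ∧ τ.2.2 ≠ 0 ∧
        IsRelPrime τ.2.1 τ.2.2, ∀ (e : Fin τ.1 → ℕ) (Q : ℤ[X]), ¬ (Q ≠ 0 ∧
          spec e τ.2.1 = Q * A ∧ spec e τ.2.2 = Q * B ∧ m1 Q < 1 + ε ∧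
          |m1 A - mM τ.2.1| < ε ∧ |m1 B - mM τ.2.2| < ε ∧ |mx1 A B - mx τ.2.1 τ.2.2| < ε ∧
          ((∀ t, ‖ev1 A t‖ = ‖ev1 B t‖) → ∀ t, ‖tv τ.2.1 t‖ = ‖tv τ.2.2 t‖)) := by
    intro n
    by_contra hn
    apply hcon
    refine ⟨((Finset.range n).image g).filter fun τ => 1 ≤ τ.1 ∧ τ.2.1 ≠ 0 ∧ τ.2.2 ≠ 0 ∧
        IsRelPrime τ.2.1 τ.2.2,
      fun τ hτ => (Finset.mem_filter.mp hτ).2, fun A B hA hB hAB hK => ?_⟩
    by_contra h2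
    apply hn
    refine ⟨A, B, hA, hB, hAB, hK, fun τ hτ e Q he => h2 ⟨τ, hτ, e, Q, he⟩⟩
  choose A B hA hB hAB hK hno using hall
  obtain ⟨k, e, C, D, hk, hC, hD, hCD, he, hrel, hl1, hl2⟩ :=
    pairs_compact_general A B hA hB hAB K hK
  obtain ⟨Q, hQ, hQlim⟩ := limit_general C D hC hD hCD (hyperfilter ℕ) e he A B hA hB hAB hrel
  have hl3 : Tendsto (fun n => m1 (B n)) (hyperfilter ℕ : Filter ℕ) (𝓝 (mM D)) :=
    I5_div D hD _ e he B Q (hQ.mono fun n hn => ⟨hn.1, hn.2.2⟩) hQlim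
  have hnorm : ∀ᶠ n in (hyperfilter ℕ : Filter ℕ),
      ((∀ t, ‖ev1 (A n) t‖ = ‖ev1 (B n) t‖) → ∀ t, ‖tv C t‖ = ‖tv D t‖) := by
    by_cases hev : ∀ᶠ n in (hyperfilter ℕ : Filter ℕ), ∀ t, ‖ev1 (A n) t‖ = ‖ev1 (B n) t‖
    · have h1 : ∀ t : Fin k → ℝ, ‖tv C t‖ = ‖tv D t‖ := by
        refine norm_eq_of_spec (hyperfilter ℕ : Filter ℕ) e he C D ?_
        filter_upwards [hev, hQ] with n h1 h2 t
        rw [h2.2.1, h2.2.2, I1_ev1_mul, I1_ev1_mul, norm_mul, norm_mul, h1 t]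
      exact Eventually.of_forall fun n _ => h1
    · rw [← Ultrafilter.eventually_not] at hev
      exact hev.mono fun n hn h => absurd h hn
  obtain ⟨N, hN⟩ := hg ⟨k, C, D⟩
  have hev1 : ∀ᶠ n in (hyperfilter ℕ : Filter ℕ), |m1 (A n) - mM C| < ε := by
    filter_upwards [(Metric.tendsto_nhds.mp hl1) ε hε] with n hn
    rwa [Real.dist_eq] at hn
  have hev2 : ∀ᶠ n in (hyperfilter ℕ : Filter ℕ), |mx1 (A n) (B n) - mx C D| < ε := by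
    filter_upwards [(Metric.tendsto_nhds.mp hl2) ε hε] with n hn
    rwa [Real.dist_eq] at hn
  have hev3 : ∀ᶠ n in (hyperfilter ℕ : Filter ℕ), |m1 (B n) - mM D| < ε := by
    filter_upwards [(Metric.tendsto_nhds.mp hl3) ε hε] with n hn
    rwa [Real.dist_eq] at hn
  have hev4 : ∀ᶠ n in (hyperfilter ℕ : Filter ℕ), m1 (Q n) < 1 + ε := by
    have h1 : (0 : ℝ) < Real.log (1 + ε) := Real.log_pos (by linarith)
    filter_upwards [hQlim.eventually_lt_const h1, hQ] with n hn hn2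
    have h2 : 0 < m1 (Q n) := lt_of_lt_of_le one_pos (I1_one_le_m1 hn2.1)
    exact (Real.log_lt_log_iff h2 (by linarith)).mp hn
  have hbig : ∀ᶠ n in (hyperfilter ℕ : Filter ℕ), N < n := by
    have h1 : ∀ᶠ n in (atTop : Filter ℕ), N < n := eventually_gt_atTop N
    exact I2_hyper_le h1
  obtain ⟨n, h1, h2, h3, h4, h5, h6, h7⟩ := (hbig.and (hQ.and (hev1.and (hev2.and (hev3.and
    (hev4.and hnorm)))))).exists
  have hmem : (⟨k, C, D⟩ : Σ k : ℕ, MvPolynomial (Fin k) ℤ × MvPolynomial (Fin k) ℤ) ∈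
      ((Finset.range n).image g).filter fun τ => 1 ≤ τ.1 ∧ τ.2.1 ≠ 0 ∧ τ.2.2 ≠ 0 ∧
        IsRelPrime τ.2.1 τ.2.2 := by
    rw [Finset.mem_filter, Finset.mem_image]
    exact ⟨⟨N, Finset.mem_range.mpr h1, hN⟩, hk, hC, hD, hCD⟩
  exact hno n _ hmem (e n) (Q n) ⟨h2.1, h2.2.1, h2.2.2, h6, h3, h5, h4, h7⟩

end

end Pool.Agent.H261R2.CM
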