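import Mathlib
import Pool.Agent.H261R2.CM.JDefs

/-!
# Reciprocal polynomials in several variables: algebra (task J, helper943)
-/

set_option autoImplicit false

namespace Pool.Agent.H261R2.CM

open MvPolynomial

noncomputable section

namespace J

variable {k : ℕ}

/-- the support of `P` is bounded by `d` -/
def sle (P : MvPolynomial (Fin k) ℤ) (d : Fin k →₀ ℕ) : Prop := ∀ s ∈ P.support, s ≤ d

/-- the vector of degrees -/
def dg (P : MvPolynomial (Fin k) ℤ) : Fin k →₀ ℕ :=
  Finsupp.equivFunOnFinite.symm fun i => P.degreeOf i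

/-- reversal with respect to the exponent `d` -/
def rv (d : Fin k →₀ ℕ) (P : MvPolynomial (Fin k) ℤ) : MvPolynomial (Fin k) ℤ :=
  ∑ s ∈ P.support, monomial (d - s) (P.coeff s)

theorem recip_eq_rv (P : MvPolynomial (Fin k) ℤ) : recip P = rv (dg P) P := by
  unfold recip rv
  refine Finset.sum_congr rfl fun s _ => ?_
  have h : (Finsupp.equivFunOnFinite.symm fun i => P.degreeOf i - s i) = dg P - s := by
    ext i
    simp [dg]
  rw [h]

theorem rv_eq_sum (d : Fin k →₀ ℕ) (P : MvPolynomial (Fin k) ℤ) (T : Finset (Fin k →₀ ℕ))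
    (hT : P.support ⊆ T) : rv d P = ∑ s ∈ T, monomial (d - s) (P.coeff s) := by
  unfold rv
  apply Finset.sum_subset hT
  intro s _ hs
  rw [notMem_support_iff.1 hs, monomial_zero]

theorem rv_zero (d : Fin k →₀ ℕ) : rv d (0 : MvPolynomial (Fin k) ℤ) = 0 := by
  unfold rv; simp

theorem rv_add (d : Fin k →₀ ℕ) (P Q : MvPolynomial (Fin k) ℤ) :
    rv d (P + Q) = rv d P + rv d Q := by
  classical
  rw [rv_eq_sum d (P + Q) (P.support ∪ Q.support) support_add,
    rv_eq_sum d P (P.support ∪ Q.support) Finset.subset_union_left,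
    rv_eq_sum d Q (P.support ∪ Q.support) Finset.subset_union_right, ← Finset.sum_add_distrib]
  refine Finset.sum_congr rfl fun s _ => ?_
  rw [coeff_add, map_add]

theorem rv_sum {ι : Type*} (d : Fin k →₀ ℕ) (S : Finset ι) (f : ι → MvPolynomial (Fin k) ℤ) :
    rv d (∑ i ∈ S, f i) = ∑ i ∈ S, rv d (f i) := by
  classical
  induction S using Finset.induction_on with
  | empty => simp [rv_zero]
  | insert a S ha ih => rw [Finset.sum_insert ha, Finset.sum_insert ha, rv_add, ih]

theorem rv_monomial (d s : Fin k →₀ ℕ) (a : ℤ) : rv d (monomial s a) = monomial (d - s) a := by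
  classical
  rw [rv_eq_sum d (monomial s a) {s} support_monomial_subset]
  simp

theorem sle_monomial {s d : Fin k →₀ ℕ} (h : s ≤ d) (a : ℤ) : sle (monomial s a) d := by
  intro t ht
  have := support_monomial_subset ht
  rw [Finset.mem_singleton] at this
  rw [this]; exact h

theorem sle_dg (P : MvPolynomial (Fin k) ℤ) : sle P (dg P) := by
  intro s hs i
  exact monomial_le_degreeOf i hs

theorem sle_iff {P : MvPolynomial (Fin k) ℤ} {d : Fin k →₀ ℕ} : sle P d ↔ dg P ≤ d := by
  constructor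
  · intro h i
    exact degreeOf_le_iff.2 fun m hm => h m hm i
  · intro h s hs
    exact (sle_dg P s hs).trans h

theorem rv_mul {P Q : MvPolynomial (Fin k) ℤ} {d d' : Fin k →₀ ℕ} (hP : sle P d)
    (hQ : sle Q d') : rv (d + d') (P * Q) = rv d P * rv d' Q := by
  conv_lhs => rw [P.as_sum, Q.as_sum]
  rw [Finset.sum_mul_sum, rv_sum]
  unfold rv
  rw [Finset.sum_mul_sum]
  refine Finset.sum_congr rfl fun s hs => ?_
  have := rv_sum (d + d') Q.support (fun j => (monomial s) (coeff s P) * (monomial j) (coeff j Q))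
  unfold rv at this
  rw [this]
  refine Finset.sum_congr rfl fun t ht => ?_
  have h2 := rv_monomial (d + d') (s + t) (coeff s P * coeff t Q)
  unfold rv at h2
  rw [monomial_mul, h2, monomial_mul]
  congr 2
  have h3 := hP s hs
  have h4 := hQ t ht
  ext i
  have h5 := h3 i
  have h6 := h4 i
  simp only [Finsupp.coe_tsub, Finsupp.coe_add, Pi.sub_apply, Pi.add_apply]
  omega

theorem rv_rv {P : MvPolynomial (Fin k) ℤ} {d : Fin k →₀ ℕ} (hP : sle P d) :
    rv d (rv d P) = P := by
  conv_rhs => rw [P.as_sum]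
  have h1 : rv d P = ∑ s ∈ P.support, monomial (d - s) (P.coeff s) := rfl
  rw [h1, rv_sum]
  refine Finset.sum_congr rfl fun s hs => ?_
  rw [rv_monomial, tsub_tsub_cancel_of_le (hP s hs)]

theorem sle_rv (d : Fin k →₀ ℕ) (P : MvPolynomial (Fin k) ℤ) : sle (rv d P) d := by
  classical
  intro u hu
  have h1 := support_sum hu
  rw [Finset.mem_biUnion] at h1
  obtain ⟨s, _, hs⟩ := h1
  have h2 := support_monomial_subset hs
  rw [Finset.mem_singleton] at h2
  rw [h2]
  exact tsub_le_self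

theorem rv_ne_zero {P : MvPolynomial (Fin k) ℤ} {d : Fin k →₀ ℕ} (hP : sle P d) (h : P ≠ 0) :
    rv d P ≠ 0 := by
  intro h0
  apply h
  rw [← rv_rv hP, h0, rv_zero]

theorem rv_one (e : Fin k →₀ ℕ) : rv e (1 : MvPolynomial (Fin k) ℤ) = monomial e 1 := by
  have : (1 : MvPolynomial (Fin k) ℤ) = monomial 0 1 := rfl
  rw [this, rv_monomial, tsub_zero]

theorem rv_add_exp {P : MvPolynomial (Fin k) ℤ} {d : Fin k →₀ ℕ} (hP : sle P d)
    (e : Fin k →₀ ℕ) : rv (d + e) P = monomial e 1 * rv d P := by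
  have h1 := rv_mul (P := P) (Q := 1) (d := d) (d' := e) hP (by
    intro s hs
    have h2 : (1 : MvPolynomial (Fin k) ℤ) = monomial 0 1 := rfl
    rw [h2] at hs
    exact sle_monomial zero_le 1 s hs)
  rw [mul_one, rv_one] at h1
  rw [h1, mul_comm]

theorem rv_eq_of_le {P : MvPolynomial (Fin k) ℤ} {d : Fin k →₀ ℕ} (hP : dg P ≤ d) :
    rv d P = monomial (d - dg P) 1 * recip P := by
  rw [recip_eq_rv, ← rv_add_exp (sle_dg P), add_tsub_cancel_of_le hP]

theorem dg_mul {P Q : MvPolynomial (Fin k) ℤ} (hP : P ≠ 0) (hQ : Q ≠ 0) :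
    dg (P * Q) = dg P + dg Q := by
  ext i
  simp only [dg, Finsupp.equivFunOnFinite_symm_apply_apply, Finsupp.coe_add, Pi.add_apply]
  exact degreeOf_mul_eq hP hQ

theorem recip_ne_zero {P : MvPolynomial (Fin k) ℤ} (hP : P ≠ 0) : recip P ≠ 0 := by
  rw [recip_eq_rv]
  exact rv_ne_zero (sle_dg P) hP

theorem recip_mul {P Q : MvPolynomial (Fin k) ℤ} (hP : P ≠ 0) (hQ : Q ≠ 0) :
    recip (P * Q) = recip P * recip Q := by
  rw [recip_eq_rv, dg_mul hP hQ, rv_mul (sle_dg P) (sle_dg Q), recip_eq_rv, recip_eq_rv]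

theorem recip_one : recip (1 : MvPolynomial (Fin k) ℤ) = 1 := by
  have h := recip_mul (k := k) (P := 1) (Q := 1) one_ne_zero one_ne_zero
  rw [mul_one] at h
  exact mul_left_cancel₀ (recip_ne_zero one_ne_zero) (by rw [mul_one]; exact h.symm)

theorem recip_isUnit {P : MvPolynomial (Fin k) ℤ} (h : IsUnit P) : IsUnit (recip P) := by
  obtain ⟨Q, hQ⟩ := h.exists_right_inv
  have hQ0 : Q ≠ 0 := by
    rintro rfl
    rw [mul_zero] at hQ
    exact zero_ne_one hQ
  have h1 := recip_mul h.ne_zero hQ0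
  rw [hQ, recip_one] at h1
  exact IsUnit.of_mul_eq_one _ h1.symm

theorem recip_dvd {P Q : MvPolynomial (Fin k) ℤ} (hQ : Q ≠ 0) (h : P ∣ Q) :
    recip P ∣ recip Q := by
  obtain ⟨R, rfl⟩ := h
  have hP : P ≠ 0 := left_ne_zero_of_mul hQ
  have hR : R ≠ 0 := right_ne_zero_of_mul hQ
  rw [recip_mul hP hR]
  exact dvd_mul_right _ _

/-- `P = X^a * recip (recip P)` -/
theorem eq_monomial_mul {P : MvPolynomial (Fin k) ℤ} :
    ∃ a : Fin k →₀ ℕ, P = monomial a 1 * recip (recip P) := by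
  refine ⟨dg P - dg (recip P), ?_⟩
  have h1 : dg (recip P) ≤ dg P := by
    rw [← sle_iff, recip_eq_rv]
    exact sle_rv _ _
  rw [← rv_eq_of_le h1]
  conv_rhs => rw [recip_eq_rv]
  rw [rv_rv (sle_dg P)]

theorem recip_recip_dvd (P : MvPolynomial (Fin k) ℤ) : recip (recip P) ∣ P := by
  obtain ⟨a, ha⟩ := eq_monomial_mul (P := P)
  exact ⟨monomial a 1, by rw [mul_comm]; exact ha⟩

theorem coeff_rv_sub {P : MvPolynomial (Fin k) ℤ} {d s : Fin k →₀ ℕ} (hP : sle P d)
    (hs : s ≤ d) : coeff (d - s) (rv d P) = coeff s P := by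
  classical
  unfold rv
  rw [coeff_sum]
  have h1 : ∀ t ∈ P.support, coeff (d - s) (monomial (d - t) (coeff t P)) =
      if t = s then coeff t P else 0 := by
    intro t ht
    rw [coeff_monomial]
    have h2 := hP t ht
    by_cases h : t = s
    · rw [if_pos h, h, if_pos rfl]
    · rw [if_neg h, if_neg]
      intro h3
      apply h
      have h4 : d - (d - t) = d - (d - s) := by rw [h3]
      rwa [tsub_tsub_cancel_of_le h2, tsub_tsub_cancel_of_le hs] at h4
  rw [Finset.sum_congr rfl h1, Finset.sum_ite_eq']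
  split_ifs with h
  · rfl
  · exact (notMem_support_iff.1 h).symm

theorem not_X_dvd_recip {P : MvPolynomial (Fin k) ℤ} (hP : P ≠ 0) (i : Fin k) :
    ¬ X i ∣ recip P := by
  classical
  rintro ⟨Q, hQ⟩
  have hne : P.support.Nonempty := support_nonempty.2 hP
  obtain ⟨s, hs, hsi⟩ := Finset.exists_mem_eq_sup P.support hne (fun m => m i)
  rw [← degreeOf_eq_sup] at hsi
  have h1 := coeff_rv_sub (sle_dg P) (sle_dg P s hs)
  rw [← recip_eq_rv, hQ, coeff_X_mul', if_neg] at h1
  · exact (mem_support_iff.1 hs) h1.symm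
  · rw [Finsupp.mem_support_iff, not_not]
    simp only [Finsupp.coe_tsub, Pi.sub_apply, dg, Finsupp.equivFunOnFinite_symm_apply_apply]
    omega

/-- a prime dividing a monomial is associated to a variable -/
theorem associated_X_of_dvd_monomial {p : MvPolynomial (Fin k) ℤ} (hp : Irreducible p)
    {a : Fin k →₀ ℕ} (h : p ∣ monomial a 1) : ∃ i, Associated p (X i) := by
  rw [monomial_eq, C_1, one_mul] at h
  have h1 := hp.prime
  unfold Finsupp.prod at h
  rw [Prime.dvd_finsetProd_iff h1] at h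
  obtain ⟨i, _, hi⟩ := h
  have h2 := h1.dvd_of_dvd_pow hi
  exact ⟨i, (hp.dvd_irreducible_iff_associated X_prime.irreducible).1 h2⟩

theorem eq_zero_of_isUnit_monomial {a : Fin k →₀ ℕ}
    (h : IsUnit (monomial a (1 : ℤ) : MvPolynomial (Fin k) ℤ)) : a = 0 := by
  by_contra ha
  obtain ⟨i, hi⟩ := Finsupp.ne_iff.1 ha
  have h1 : (X i : MvPolynomial (Fin k) ℤ) ∣ monomial a 1 := X_dvd_monomial.2 (Or.inr hi)
  exact (X_prime (R := ℤ) (i := i)).not_isUnit (isUnit_of_dvd_unit h1 h)

theorem recip_recip {p : MvPolynomial (Fin k) ℤ} (hp : Irreducible p)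
    (hX : ∀ i, ¬ Associated p (X i)) : recip (recip p) = p := by
  obtain ⟨a, ha⟩ := eq_monomial_mul (P := p)
  rcases hp.isUnit_or_isUnit ha with h | h
  · rw [eq_zero_of_isUnit_monomial h] at ha
    conv_rhs => rw [ha]
    rw [monomial_zero', C_1, one_mul]
  · exfalso
    obtain ⟨u, hu⟩ := h
    have h1 : p ∣ monomial a 1 := by
      refine ⟨((u⁻¹ : (MvPolynomial (Fin k) ℤ)ˣ) : MvPolynomial (Fin k) ℤ), ?_⟩
      conv_rhs => rw [ha, ← hu]
      rw [mul_assoc, Units.mul_inv, mul_one]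
    obtain ⟨i, hi⟩ := associated_X_of_dvd_monomial hp h1
    exact hX i hi

theorem isUnit_of_recip_isUnit {A : MvPolynomial (Fin k) ℤ} (h : IsUnit (recip A))
    (hX : ∀ i, ¬ X i ∣ A) : IsUnit A := by
  obtain ⟨a, ha⟩ := eq_monomial_mul (P := A)
  have h0 : a = 0 := by
    by_contra ha0
    obtain ⟨i, hi⟩ := Finsupp.ne_iff.1 ha0
    have h1 : (X i : MvPolynomial (Fin k) ℤ) ∣ monomial a 1 := X_dvd_monomial.2 (Or.inr hi)
    exact hX i (h1.trans ⟨_, ha⟩)
  rw [h0, monomial_zero', C_1, one_mul] at ha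
  rw [ha]
  exact recip_isUnit h

theorem irreducible_recip {p : MvPolynomial (Fin k) ℤ} (hp : Irreducible p)
    (hX : ∀ i, ¬ Associated p (X i)) : Irreducible (recip p) := by
  have hrr := recip_recip hp hX
  constructor
  · intro h
    apply hp.not_isUnit
    rw [← hrr]
    exact recip_isUnit h
  · intro A B hAB
    have hA : A ≠ 0 := left_ne_zero_of_mul (hAB ▸ recip_ne_zero hp.ne_zero)
    have hB : B ≠ 0 := right_ne_zero_of_mul (hAB ▸ recip_ne_zero hp.ne_zero)
    have h1 : p = recip A * recip B := by rw [← recip_mul hA hB, ← hAB, hrr]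
    rcases hp.isUnit_or_isUnit h1 with h | h
    · left
      exact isUnit_of_recip_isUnit h fun i hi =>
        not_X_dvd_recip hp.ne_zero i (hi.trans ⟨B, hAB⟩)
    · right
      exact isUnit_of_recip_isUnit h fun i hi =>
        not_X_dvd_recip hp.ne_zero i (hi.trans ⟨A, by rw [mul_comm]; exact hAB⟩)

end J

end

end Pool.Agent.H261R2.CM
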