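import Mathlib
import Pool.Agent.H261R2.CM.JAlg

/-!
# Reciprocal polynomials in several variables: values on the torus, Mahler measures
(task J, helper943)
-/

set_option autoImplicit false

namespace Pool.Agent.H261R2.CM

open MvPolynomial MeasureTheory

noncomputable section

namespace J

variable {k : ℕ}

/-- the torus point -/
def zz (t : Fin k → ℝ) (j : Fin k) : ℂ :=
  Complex.exp (2 * (Real.pi : ℂ) * Complex.I * ((t j : ℝ) : ℂ))

theorem norm_zz (t : Fin k → ℝ) (j : Fin k) : ‖zz t j‖ = 1 := by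
  unfold zz
  have : 2 * (Real.pi : ℂ) * Complex.I * ((t j : ℝ) : ℂ) =
      ((2 * Real.pi * t j : ℝ) : ℂ) * Complex.I := by
    push_cast; ring
  rw [this, Complex.norm_exp_ofReal_mul_I]

/-- `tv` as a ring homomorphism -/
def tvh (t : Fin k → ℝ) : MvPolynomial (Fin k) ℤ →+* ℂ :=
  (MvPolynomial.eval (zz t)).comp (MvPolynomial.map (Int.castRingHom ℂ))

theorem tv_eq (P : MvPolynomial (Fin k) ℤ) (t : Fin k → ℝ) : tv P t = tvh t P := rfl

theorem tv_mul (P Q : MvPolynomial (Fin k) ℤ) (t : Fin k → ℝ) : tv (P * Q) t = tv P t * tv Q t := by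
  rw [tv_eq, map_mul]; rfl

theorem tv_add (P Q : MvPolynomial (Fin k) ℤ) (t : Fin k → ℝ) : tv (P + Q) t = tv P t + tv Q t := by
  rw [tv_eq, map_add]; rfl

theorem tv_one (t : Fin k → ℝ) : tv (1 : MvPolynomial (Fin k) ℤ) t = 1 := by
  rw [tv_eq, map_one]

theorem tv_C (a : ℤ) (t : Fin k → ℝ) : tv (C a : MvPolynomial (Fin k) ℤ) t = (a : ℂ) := by
  rw [tv_eq]; simp [tvh]

theorem tv_X (i : Fin k) (t : Fin k → ℝ) : tv (X i : MvPolynomial (Fin k) ℤ) t = zz t i := by
  rw [tv_eq]; simp [tvh]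

theorem tv_monomial (s : Fin k →₀ ℕ) (a : ℤ) (t : Fin k → ℝ) :
    tv (monomial s a) t = a * ∏ i, zz t i ^ (s i) := by
  rw [tv_eq]
  unfold tvh
  rw [RingHom.comp_apply, map_monomial, eval_monomial, Finsupp.prod_fintype]
  · simp
  · intro i
    rw [pow_zero]

theorem tv_rv {P : MvPolynomial (Fin k) ℤ} {d : Fin k →₀ ℕ} (hP : sle P d) (t : Fin k → ℝ) :
    tv (rv d P) t = (∏ i, zz t i ^ (d i)) * (starRingEnd ℂ) (tv P t) := by
  conv_rhs => rw [P.as_sum]
  unfold rv
  rw [tv_eq, tv_eq, map_sum, map_sum, map_sum, Finset.mul_sum]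
  refine Finset.sum_congr rfl fun s hs => ?_
  rw [← tv_eq, ← tv_eq, tv_monomial, tv_monomial, map_mul, map_prod]
  have h1 := hP s hs
  have h2 : (∏ i, zz t i ^ ((d - s) i)) = (∏ i, zz t i ^ d i) *
      ∏ i, (starRingEnd ℂ) (zz t i ^ s i) := by
    rw [← Finset.prod_mul_distrib]
    refine Finset.prod_congr rfl fun i _ => ?_
    have h3 : d i = (d - s) i + s i := by
      have := h1 i
      rw [Finsupp.coe_tsub, Pi.sub_apply]
      omega
    conv_rhs => rw [h3]
    rw [pow_add, mul_assoc, map_pow, ← mul_pow, Complex.mul_conj, Complex.normSq_eq_norm_sq,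
      norm_zz]
    simp
  rw [h2]
  have h4 : (starRingEnd ℂ) ((coeff s P : ℤ) : ℂ) = ((coeff s P : ℤ) : ℂ) := by
    rw [← Complex.ofReal_intCast, Complex.conj_ofReal]
  rw [h4]
  ring

theorem norm_tv_rv {P : MvPolynomial (Fin k) ℤ} {d : Fin k →₀ ℕ} (hP : sle P d)
    (t : Fin k → ℝ) : ‖tv (rv d P) t‖ = ‖tv P t‖ := by
  rw [tv_rv hP, norm_mul, norm_prod, RCLike.norm_conj]
  simp [norm_zz]

theorem norm_tv_recip (P : MvPolynomial (Fin k) ℤ) (t : Fin k → ℝ) :
    ‖tv (recip P) t‖ = ‖tv P t‖ := by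
  rw [recip_eq_rv, norm_tv_rv (sle_dg P)]

/-- a polynomial is determined by its values on the torus -/
theorem eq_of_tv_eq {P Q : MvPolynomial (Fin k) ℤ} (h : ∀ t, tv P t = tv Q t) : P = Q := by
  have hinj : Function.Injective (Int.castRingHom ℂ) := Int.cast_injective
  apply MvPolynomial.map_injective _ hinj
  apply MvPolynomial.funext_set (fun _ : Fin k =>
    Set.range (fun t : ℝ => Complex.exp (2 * (Real.pi : ℂ) * Complex.I * ((t : ℝ) : ℂ))))
  · intro _
    apply Set.Infinite.of_image Complex.re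
    apply Set.Infinite.mono (s := Set.Icc (-1 : ℝ) 1) _ (Set.Icc_infinite (by norm_num))
    intro y hy
    refine ⟨Complex.exp (2 * (Real.pi : ℂ) * Complex.I *
      ((Real.arccos y / (2 * Real.pi) : ℝ) : ℂ)), ⟨_, rfl⟩, ?_⟩
    have hpi : (Real.pi : ℝ) ≠ 0 := Real.pi_ne_zero
    have h1 : 2 * (Real.pi : ℂ) * Complex.I * ((Real.arccos y / (2 * Real.pi) : ℝ) : ℂ) =
        ((Real.arccos y : ℝ) : ℂ) * Complex.I := by
      have h2 : ((Real.arccos y / (2 * Real.pi) : ℝ) : ℂ) =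
          ((Real.arccos y : ℝ) : ℂ) / (2 * (Real.pi : ℂ)) := by push_cast; ring
      rw [h2]
      have h3 : (Real.pi : ℂ) ≠ 0 := by exact_mod_cast hpi
      field_simp
    rw [h1, Complex.exp_ofReal_mul_I_re, Real.cos_arccos hy.1 hy.2]
  · intro x hx
    have hx' : ∀ i, ∃ t : ℝ,
        Complex.exp (2 * (Real.pi : ℂ) * Complex.I * ((t : ℝ) : ℂ)) = x i :=
      fun i => hx i (Set.mem_univ i)
    choose t ht using hx'
    have h1 := h t
    have h2 : x = zz t := by
      funext i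
      exact (ht i).symm
    rw [h2]
    exact h1

/-- norms on the torus of a product -/
theorem norm_tv_mul (P Q : MvPolynomial (Fin k) ℤ) (t : Fin k → ℝ) :
    ‖tv (P * Q) t‖ = ‖tv P t‖ * ‖tv Q t‖ := by
  rw [tv_mul, norm_mul]

theorem norm_tv_isUnit {u : MvPolynomial (Fin k) ℤ} (hu : IsUnit u) (t : Fin k → ℝ) :
    ‖tv u t‖ = 1 := by
  have h1 : u ∣ monomial 0 1 := by
    rw [monomial_zero', C_1]
    exact hu.dvd
  rw [dvd_monomial_one_iff_exists] at h1
  obtain ⟨m, w, hm, hw, rfl⟩ := h1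
  rw [tv_monomial]
  have hm0 : m = 0 := le_antisymm hm zero_le
  subst hm0
  rcases Int.isUnit_iff.1 hw with h | h <;> simp [h]

theorem norm_tv_associated {P Q : MvPolynomial (Fin k) ℤ} (h : Associated P Q)
    (t : Fin k → ℝ) : ‖tv P t‖ = ‖tv Q t‖ := by
  obtain ⟨u, hu⟩ := h
  rw [← hu, norm_tv_mul, norm_tv_isUnit u.isUnit, mul_one]

theorem mM_congr {P Q : MvPolynomial (Fin k) ℤ} (h : ∀ t, ‖tv P t‖ = ‖tv Q t‖) :
    mM P = mM Q := by
  unfold mM
  simp_rw [h]

theorem mM_associated {P Q : MvPolynomial (Fin k) ℤ} (h : Associated P Q) : mM P = mM Q :=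
  mM_congr (norm_tv_associated h)

theorem mM_recip (P : MvPolynomial (Fin k) ℤ) : mM (recip P) = mM P :=
  mM_congr (norm_tv_recip P)

theorem mM_of_norm_const {P : MvPolynomial (Fin k) ℤ} {c : ℝ} (hc : 0 < c)
    (h : ∀ t, ‖tv P t‖ = c) : mM P = c := by
  unfold mM
  simp_rw [h]
  rw [setIntegral_const]
  have h1 : volume.real (Set.Icc (0 : Fin k → ℝ) 1) = 1 := by
    rw [measureReal_def, Real.volume_Icc_pi]
    simp
  rw [h1, one_smul, Real.exp_log hc]

theorem mM_X (i : Fin k) : mM (X i : MvPolynomial (Fin k) ℤ) = 1 :=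
  mM_of_norm_const one_pos fun t => by rw [tv_X, norm_zz]

theorem mM_C {a : ℤ} (ha : a ≠ 0) : mM (C a : MvPolynomial (Fin k) ℤ) = (a.natAbs : ℝ) := by
  apply mM_of_norm_const
  · exact_mod_cast Int.natAbs_pos.2 ha
  · intro t
    rw [tv_C, Complex.norm_intCast, Nat.cast_natAbs, Int.cast_abs]

theorem pair_of_relPrime {C : MvPolynomial (Fin k) ℤ} (hC : C ≠ 0)
    (h : IsRelPrime C (recip C)) : PairK C (recip C) :=
  ⟨hC, recip_ne_zero hC, h, fun t => (norm_tv_recip C t).symm⟩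

end J

/-- J1 -/
theorem pair_iff {k : ℕ} (C : MvPolynomial (Fin k) ℤ) :
    (∃ D, PairK C D) ↔ (C ≠ 0 ∧ IsRelPrime C (recip C)) := by
  constructor
  · rintro ⟨D, hC, hD, hCD, hn⟩
    refine ⟨hC, ?_⟩
    set d : Fin k →₀ ℕ := J.dg C + J.dg D with hd
    have hCd : J.sle C d := J.sle_iff.2 (le_self_add)
    have hDd : J.sle D d := J.sle_iff.2 (le_add_self)
    have hstar : C * J.rv d C = D * J.rv d D := by
      apply J.eq_of_tv_eq
      intro t
      rw [J.tv_mul, J.tv_mul, J.tv_rv hCd, J.tv_rv hDd]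
      have h1 : tv C t * (starRingEnd ℂ) (tv C t) = tv D t * (starRingEnd ℂ) (tv D t) := by
        rw [Complex.mul_conj, Complex.mul_conj, Complex.normSq_eq_norm_sq,
          Complex.normSq_eq_norm_sq, hn t]
      calc tv C t * ((∏ i, J.zz t i ^ d i) * (starRingEnd ℂ) (tv C t))
          = (∏ i, J.zz t i ^ d i) * (tv C t * (starRingEnd ℂ) (tv C t)) := by ring
        _ = (∏ i, J.zz t i ^ d i) * (tv D t * (starRingEnd ℂ) (tv D t)) := by rw [h1]
        _ = _ := by ring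
    obtain ⟨U, hU⟩ := hCD.dvd_of_dvd_mul_left ⟨_, hstar.symm⟩
    have hU2 : J.rv d C = D * U := by
      apply mul_left_cancel₀ hC
      rw [hstar, hU]; ring
    have hrC0 : J.rv d C ≠ 0 := J.rv_ne_zero hCd hC
    have hU0 : U ≠ 0 := by
      rintro rfl
      rw [mul_zero] at hU2
      exact hrC0 hU2
    have hdU : J.dg D + J.dg U ≤ d := by
      rw [← J.dg_mul hD hU0, ← hU2, ← J.sle_iff]
      exact J.sle_rv d C
    have hDle : J.dg D ≤ d := le_trans le_self_add hdU
    have hUle : J.dg U ≤ d - J.dg D := by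
      rw [add_comm] at hdU
      exact le_tsub_of_add_le_right hdU
    have h1 : C = recip D * J.rv (d - J.dg D) U := by
      have h2 := J.rv_mul (J.sle_dg D) (J.sle_iff.2 hUle)
      rw [add_tsub_cancel_of_le hDle, ← hU2, J.rv_rv hCd, ← J.recip_eq_rv] at h2
      exact h2
    have h3 : C * U = MvPolynomial.monomial (d - J.dg D) 1 * recip D := by
      rw [← hU, J.rv_eq_of_le hDle]
    have h4 : U * J.rv (d - J.dg D) U = MvPolynomial.monomial (d - J.dg D) 1 := by
      apply mul_left_cancel₀ hC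
      calc C * (U * J.rv (d - J.dg D) U) = (C * U) * J.rv (d - J.dg D) U := by ring
        _ = MvPolynomial.monomial (d - J.dg D) 1 * (recip D * J.rv (d - J.dg D) U) := by
            rw [h3]; ring
        _ = C * MvPolynomial.monomial (d - J.dg D) 1 := by rw [← h1]; ring
    intro p hpC hpR
    by_contra hu
    have hp0 : p ≠ 0 := by
      rintro rfl
      exact hC (zero_dvd_iff.1 hpC)
    obtain ⟨q, hq, hqp⟩ := WfDvdMonoid.exists_irreducible_factor hu hp0
    have hqC := hqp.trans hpC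
    have hqR := hqp.trans hpR
    have hq1 : q ∣ D * U := by
      rw [← hU2, J.rv_eq_of_le (J.sle_iff.1 hCd)]
      exact hqR.mul_left _
    rcases hq.prime.dvd_or_dvd hq1 with h5 | h5
    · exact hq.not_isUnit (hCD hqC h5)
    · obtain ⟨i, hi⟩ := J.associated_X_of_dvd_monomial hq (h5.trans ⟨_, h4.symm⟩)
      exact J.not_X_dvd_recip hC i (hi.symm.dvd.trans hqR)
  · rintro ⟨hC, h⟩
    exact ⟨recip C, J.pair_of_relPrime hC h⟩

/-- J3 -/
theorem not_associated_of_isRelPrime {k : ℕ} (P : MvPolynomial (Fin k) ℤ) (hP : P ≠ 0)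
    (h : IsRelPrime P (recip P)) (Q : MvPolynomial (Fin k) ℤ) (hQ : Irreducible Q) (hQP : Q ∣ P) :
    ¬ Associated (recip Q) Q := by
  intro hA
  exact hQ.not_isUnit (h hQP (hA.symm.dvd.trans (J.recip_dvd hP hQP)))

end

end Pool.Agent.H261R2.CM
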