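import Pool.Agent.H261R2.CM.I3
import Pool.Agent.H261R2.CM.J
import Pool.Agent.H261R2.CM.JTor

set_option autoImplicit false

namespace Pool.Agent.H261R2.CM

open Polynomial Filter MeasureTheory Matrix Topology

noncomputable section

theorem nonrecip_set_eq :
    {x : ℝ | ∃ k : ℕ, 1 ≤ k ∧ ∃ P : MvPolynomial (Fin k) ℤ, P ≠ 0 ∧
      (∀ Q : MvPolynomial (Fin k) ℤ, Irreducible Q → Q ∣ P →
        Q.totalDegree = 0 ∨ mM Q = 1 ∨ ¬ Associated (recip Q) Q) ∧ x = mM P} =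
    {x : ℝ | ∃ k : ℕ, 1 ≤ k ∧ ∃ C D : MvPolynomial (Fin k) ℤ, PairK C D ∧ x = mM C} := by
  ext x
  constructor
  · rintro ⟨k, hk, P, hP, h, rfl⟩
    obtain ⟨P', h1, h2, h3⟩ := exists_coprime_recip P hP h
    obtain ⟨D, hD⟩ := (pair_iff P').2 ⟨h1, h2⟩
    exact ⟨k + 1, by omega, P', D, hD, h3.symm⟩
  · rintro ⟨k, hk, C, D, hCD, rfl⟩
    obtain ⟨h1, h2⟩ := (pair_iff C).1 ⟨D, hCD⟩
    exact ⟨k, hk, C, h1, fun Q hQ hQC =>
      Or.inr (Or.inr (not_associated_of_isRelPrime C h1 h2 Q hQ hQC)), rfl⟩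

/-- The set of Mahler measures of integer polynomials without nonconstant self-reciprocal
irreducible factors of Mahler measure greater than one is closed. -/
theorem closed_nonrecip :
    IsClosed {x : ℝ | ∃ k : ℕ, 1 ≤ k ∧ ∃ P : MvPolynomial (Fin k) ℤ, P ≠ 0 ∧
      (∀ Q : MvPolynomial (Fin k) ℤ, Irreducible Q → Q ∣ P →
        Q.totalDegree = 0 ∨ mM Q = 1 ∨ ¬ Associated (recip Q) Q) ∧ x = mM P} := by
  rw [nonrecip_set_eq]
  exact closed_pairs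

end

end Pool.Agent.H261R2.CM
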