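import Pool.Agent.H261R2.CM.J4

/-!
# Boyd's conjecture is equivalent to its reciprocal case (task J5, helper196)
-/

set_option autoImplicit false

namespace Pool.Agent.H261R2.CM

open Filter Topology

noncomputable section

namespace J5

variable {k : ℕ}

theorem recip_associated {P Q : MvPolynomial (Fin k) ℤ} (hP : P ≠ 0) (h : Associated P Q) :
    Associated (recip P) (recip Q) := by
  obtain ⟨u, rfl⟩ := h
  rw [J.recip_mul hP u.isUnit.ne_zero]
  exact (associated_mul_unit_right _ _ (J.recip_isUnit u.isUnit))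

/-- splitting off the self-reciprocal irreducible factors -/
theorem factor (F : MvPolynomial (Fin k) ℤ) : F ≠ 0 →
    ∃ N R : MvPolynomial (Fin k) ℤ, N ≠ 0 ∧ R ≠ 0 ∧ F = N * R ∧
      (∀ Q : MvPolynomial (Fin k) ℤ, Irreducible Q → Q ∣ N → ¬ Associated (recip Q) Q) ∧
      Associated (recip R) R := by
  induction F using UniqueFactorizationMonoid.induction_on_prime with
  | h₁ => intro h; exact absurd rfl h
  | h₂ x hx =>
    intro hx0
    refine ⟨x, 1, hx0, one_ne_zero, (mul_one x).symm, ?_, ?_⟩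
    · intro Q hQ hQx _
      exact hQ.not_isUnit (isUnit_of_dvd_unit hQx hx)
    · rw [J.recip_one]
  | h₃ a p ha hp ih =>
    intro _
    obtain ⟨N, R, hN, hR, haNR, h1, h2⟩ := ih ha
    have hp0 := hp.ne_zero
    by_cases hpr : Associated (recip p) p
    · refine ⟨N, p * R, hN, mul_ne_zero hp0 hR, by rw [haNR]; ring, h1, ?_⟩
      rw [J.recip_mul hp0 hR]
      exact hpr.mul_mul h2
    · refine ⟨p * N, R, mul_ne_zero hp0 hN, hR, by rw [haNR]; ring, ?_, h2⟩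
      intro Q hQ hQd hQr
      rcases hQ.prime.dvd_or_dvd hQd with h3 | h3
      · have h4 : Associated Q p := hQ.associated_of_dvd hp.irreducible h3
        exact hpr ((recip_associated hQ.ne_zero h4).symm.trans (hQr.trans h4))
      · exact h1 Q hQ h3 hQr

/-- more variables -/
theorem more_vars {P : MvPolynomial (Fin k) ℤ} (hP : P ≠ 0) (m : ℕ) :
    ∃ P' : MvPolynomial (Fin (k + m)) ℤ, P' ≠ 0 ∧ mM P' = mM P := by
  induction m with
  | zero => exact ⟨P, hP, rfl⟩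
  | succ m ih =>
    obtain ⟨P', h1, h2⟩ := ih
    exact ⟨MvPolynomial.rename Fin.succ P', J.rename_ne_zero h1, by rw [J.mM_rename, h2]⟩

theorem mul_mem {k l : ℕ} {P : MvPolynomial (Fin k) ℤ} {Q : MvPolynomial (Fin l) ℤ}
    (hP : P ≠ 0) (hQ : Q ≠ 0) :
    ∃ F : MvPolynomial (Fin (k + l)) ℤ, F ≠ 0 ∧ mM F = mM P * mM Q := by
  obtain ⟨P', h1, h2⟩ := more_vars hP l
  obtain ⟨Q', h3, h4⟩ : ∃ Q' : MvPolynomial (Fin (k + l)) ℤ, Q' ≠ 0 ∧ mM Q' = mM Q := by
    rw [Nat.add_comm k l]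
    exact more_vars hQ k
  exact ⟨P' * Q', mul_ne_zero h1 h3, by rw [mM_mul _ _ h1 h3, h2, h4]⟩

end J5

/-- J5 -/
theorem boyd_iff_reciprocal :
    IsClosed {x : ℝ | ∃ k : ℕ, 1 ≤ k ∧ ∃ F : MvPolynomial (Fin k) ℤ, F ≠ 0 ∧ x = mM F} ↔
    closure {x : ℝ | ∃ k : ℕ, 1 ≤ k ∧ ∃ R : MvPolynomial (Fin k) ℤ, R ≠ 0 ∧
        Associated (recip R) R ∧ x = mM R} ⊆
      {x : ℝ | ∃ k : ℕ, 1 ≤ k ∧ ∃ F : MvPolynomial (Fin k) ℤ, F ≠ 0 ∧ x = mM F} := by
  constructor
  · intro h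
    refine closure_minimal ?_ h
    rintro x ⟨k, hk, R, hR, -, hx⟩
    exact ⟨k, hk, R, hR, hx⟩
  · intro h
    apply IsSeqClosed.isClosed
    intro x μ hx hlim
    choose k hk F hF hxF using hx
    have hfac := fun n => J5.factor (F n) (hF n)
    choose N R hN hR hNR hN1 hR1 using hfac
    have hprod : ∀ n, x n = mM (N n) * mM (R n) := by
      intro n
      rw [← mM_mul _ _ (hN n) (hR n), ← hNR n, hxF n]
    have hN2 : ∀ n, 1 ≤ mM (N n) := fun n => one_le_mM _ (hN n)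
    have hR2 : ∀ n, 1 ≤ mM (R n) := fun n => one_le_mM _ (hR n)
    obtain ⟨K, hK⟩ := hlim.bddAbove_range
    have hKn : ∀ n, x n ≤ K := fun n => hK ⟨n, rfl⟩
    have hbox : ∀ n, (mM (N n), mM (R n)) ∈ Set.Icc (1 : ℝ) K ×ˢ Set.Icc (1 : ℝ) K := by
      intro n
      have h1 := hprod n
      have h2 := hKn n
      refine ⟨⟨hN2 n, ?_⟩, ⟨hR2 n, ?_⟩⟩
      · nlinarith [hN2 n, hR2 n]
      · nlinarith [hN2 n, hR2 n]
    obtain ⟨⟨ν, ρ⟩, -, φ, hφ, hlim2⟩ :=
      (isCompact_Icc.prod isCompact_Icc).tendsto_subseq hbox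
    have hν : Tendsto (fun n => mM (N (φ n))) atTop (𝓝 ν) :=
      (continuous_fst.tendsto (ν, ρ)).comp hlim2
    have hρ : Tendsto (fun n => mM (R (φ n))) atTop (𝓝 ρ) :=
      (continuous_snd.tendsto (ν, ρ)).comp hlim2
    have hν' := closed_nonrecip.mem_of_tendsto hν (Eventually.of_forall fun n =>
      ⟨k (φ n), hk (φ n), N (φ n), hN (φ n), fun Q hQ hQd => Or.inr (Or.inr (hN1 _ Q hQ hQd)),
        rfl⟩)
    have hρ' := h (mem_closure_of_tendsto hρ (Eventually.of_forall fun n =>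
      ⟨k (φ n), hk (φ n), R (φ n), hR (φ n), hR1 (φ n), rfl⟩))
    have hμ : μ = ν * ρ := by
      have h1 : Tendsto (fun n => x (φ n)) atTop (𝓝 μ) := hlim.comp hφ.tendsto_atTop
      have h2 : Tendsto (fun n => x (φ n)) atTop (𝓝 (ν * ρ)) := by
        have h3 := hν.mul hρ
        refine h3.congr fun n => ?_
        rw [hprod (φ n)]
      exact tendsto_nhds_unique h1 h2
    obtain ⟨k1, hk1, P1, hP1, -, rfl⟩ := hν'
    obtain ⟨k2, hk2, P2, hP2, rfl⟩ := hρ'
    obtain ⟨F', hF', hFm⟩ := J5.mul_mem hP1 hP2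
    exact ⟨k1 + k2, by omega, F', hF', by rw [hμ, hFm]⟩

end

end Pool.Agent.H261R2.CM
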