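import Pool.Agent.H338R2.AS.T2

/-!
# Task K2a: uniform bound for `∫ log (1 + δ / |es|²)` (helper747)
-/

set_option autoImplicit false

namespace Pool.Agent.H261R2.CM

open Filter MeasureTheory Topology
open Pool.Agent.H338R2.AS (es)

noncomputable section

private lemma es_continuous {k : ℕ} (c : Fin k → ℂ) (a : Fin k → ℤ) :
    Continuous (fun t : ℝ => ‖es c a t‖) := by
  unfold es
  fun_prop

/-- `log (1 + x) ≤ x ^ ε / ε`. -/
private lemma log_one_add_le {x ε : ℝ} (hx : 0 ≤ x) (hε : 0 < ε) (hε1 : ε ≤ 1) :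
    Real.log (1 + x) ≤ x ^ ε / ε := by
  rw [le_div_iff₀ hε]
  have h1 : Real.log (1 + x) * ε = Real.log ((1 + x) ^ ε) := by
    rw [Real.log_rpow (by linarith)]; ring
  rw [h1]
  have h2 : (1 + x) ^ ε ≤ 1 + x ^ ε := by
    have := Real.rpow_add_le_add_rpow (zero_le_one) hx hε.le hε1
    simpa using this
  have h3 : Real.log ((1 + x) ^ ε) ≤ (1 + x) ^ ε - 1 :=
    Real.log_le_sub_one_of_pos (Real.rpow_pos_of_pos (by linarith) _)
  linarith

/-- the negative moment. -/
private lemma neg_moment (r : ℕ) (c : Fin (r + 1) → ℂ) (a : Fin (r + 1) → ℤ)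
    (ha : Function.Injective a) (hc : ∃ j, 1 ≤ ‖c j‖) :
    ∫⁻ t in Set.Icc (0:ℝ) 1, ENNReal.ofReal (‖es c a t‖ ^ (-(1 / (2 * ((r:ℝ) + 1)))))
      ≤ ENNReal.ofReal (1 + 40 * r) := by
  obtain ⟨j, hj⟩ := hc
  set q : ℝ := 1 / (2 * ((r:ℝ) + 1)) with hq
  have hq0 : 0 < q := by positivity
  have hcont := es_continuous c a
  have hmeas : Measurable (fun t : ℝ => ‖es c a t‖ ^ (-q)) := hcont.measurable.pow_const _
  rw [lintegral_eq_lintegral_meas_lt (μ := volume.restrict (Set.Icc (0:ℝ) 1))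
    (Eventually.of_forall fun t => by positivity) hmeas.aemeasurable]
  have hsplit : (Set.Ioi (0:ℝ)) = Set.Ioc 0 1 ∪ Set.Ioi 1 := by
    rw [Set.Ioc_union_Ioi_eq_Ioi zero_le_one]
  rw [hsplit]
  refine (lintegral_union_le _ _ _).trans ?_
  rw [ENNReal.ofReal_add zero_le_one (by positivity)]
  refine add_le_add ?_ ?_
  · calc ∫⁻ u in Set.Ioc (0:ℝ) 1, (volume.restrict (Set.Icc (0:ℝ) 1)) {t | u < ‖es c a t‖ ^ (-q)}
        ≤ ∫⁻ _u in Set.Ioc (0:ℝ) 1, 1 := by
          refine lintegral_mono fun u => ?_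
          refine (measure_mono (Set.subset_univ _)).trans ?_
          simp
      _ = ENNReal.ofReal 1 := by simp
  · have hbound : ∀ u ∈ Set.Ioi (1:ℝ), (volume.restrict (Set.Icc (0:ℝ) 1)) {t | u < ‖es c a t‖ ^ (-q)}
        ≤ ENNReal.ofReal (40 * r * u ^ (-2 : ℝ)) := by
      intro u hu
      have hu1 : (1:ℝ) < u := hu
      have hu0 : 0 < u := by linarith
      have hs := Pool.Agent.H338R2.AS.small_values c a ha j (2 * u ^ (-2 : ℝ)) (by positivity)
      have e1 : 20 * (r:ℝ) * (2 * u ^ (-2 : ℝ)) = 40 * r * u ^ (-2 : ℝ) := by ring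
      rw [e1] at hs
      rw [Measure.restrict_apply (measurableSet_lt measurable_const hmeas)]
      refine (measure_mono ?_).trans hs
      rintro t ⟨ht1, ht2⟩
      refine ⟨ht2, ?_⟩
      have ht1' : u < ‖es c a t‖ ^ (-q) := ht1
      have hg : 0 < ‖es c a t‖ := by
        rcases (norm_nonneg (es c a t)).lt_or_eq with h | h
        · exact h
        · rw [← h, Real.zero_rpow (by linarith)] at ht1'
          linarith
      -- g < u ^ (-(1/q))
      have h1 : ‖es c a t‖ ^ q < u⁻¹ := by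
        rw [Real.rpow_neg hg.le] at ht1'
        rw [lt_inv_comm₀ (by positivity) hu0]
        exact ht1'
      have h2 : ‖es c a t‖ < u⁻¹ ^ (1 / q) := by
        have := Real.rpow_lt_rpow (by positivity) h1 (show 0 < 1 / q by positivity)
        rwa [← Real.rpow_mul hg.le, mul_one_div_cancel hq0.ne', Real.rpow_one] at this
      have h3 : u⁻¹ ^ (1 / q) ≤ (2 * u ^ (-2 : ℝ) / 2) ^ r * ‖c j‖ := by
        have e2 : 2 * u ^ (-2 : ℝ) / 2 = u⁻¹ ^ 2 := by
          rw [Real.rpow_neg hu0.le, Real.rpow_two, inv_pow]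
          ring
        have e3 : u⁻¹ ^ (1 / q) = u⁻¹ ^ (2 * (r + 1)) := by
          rw [hq, one_div_one_div, ← Real.rpow_natCast]
          congr 1
          push_cast
          ring
        rw [e2, e3, ← pow_mul]
        have hu' : 0 < u⁻¹ := by positivity
        have hu'' : u⁻¹ ≤ 1 := inv_le_one_of_one_le₀ hu1.le
        calc u⁻¹ ^ (2 * (r + 1)) ≤ u⁻¹ ^ (2 * r) :=
              pow_le_pow_of_le_one hu'.le hu'' (by omega)
          _ ≤ u⁻¹ ^ (2 * r) * ‖c j‖ := le_mul_of_one_le_right (by positivity) hj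
      exact h2.trans_le h3
    refine (setLIntegral_mono' measurableSet_Ioi hbound).trans ?_
    rw [← ofReal_integral_eq_lintegral_ofReal]
    · rw [integral_const_mul, integral_Ioi_rpow_of_lt (by norm_num) zero_lt_one]
      refine ENNReal.ofReal_le_ofReal ?_
      norm_num
    · exact (integrableOn_Ioi_rpow_of_lt (by norm_num) zero_lt_one).const_mul _
    · refine (ae_restrict_mem measurableSet_Ioi).mono fun u hu => ?_
      have hu0 : (0:ℝ) < u := lt_trans zero_lt_one hu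
      simp only [Pi.zero_apply]
      positivity

/-- K2a -/
theorem log_defect (r : ℕ) : ∃ η : ℝ → ℝ, Tendsto η (𝓝[>] 0) (𝓝 0) ∧
    ∀ (c : Fin (r + 1) → ℂ) (a : Fin (r + 1) → ℤ), Function.Injective a → (∃ j, 1 ≤ ‖c j‖) →
      ∀ δ > 0, IntervalIntegrable (fun t => Real.log (1 + δ / ‖es c a t‖ ^ 2)) volume 0 1 ∧
        ∫ t in (0:ℝ)..1, Real.log (1 + δ / ‖es c a t‖ ^ 2) ≤ η δ := by
  set ε : ℝ := 1 / (4 * ((r:ℝ) + 1)) with hε
  have hε0 : 0 < ε := by positivity
  have hε1 : ε ≤ 1 := by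
    rw [hε, div_le_one (by positivity)]
    have : (0:ℝ) ≤ r := Nat.cast_nonneg r
    linarith
  refine ⟨fun δ => δ ^ ε / ε * (1 + 40 * r), ?_, ?_⟩
  · have h1 : Tendsto (fun δ : ℝ => δ ^ ε) (𝓝[>] 0) (𝓝 0) := by
      have h2 : Tendsto (fun δ : ℝ => δ ^ ε) (𝓝 0) (𝓝 ((0:ℝ) ^ ε)) :=
        (Real.continuousAt_rpow_const _ _ (Or.inr hε0.le)).tendsto
      rw [Real.zero_rpow hε0.ne'] at h2
      exact h2.mono_left nhdsWithin_le_nhds
    have h3 := (h1.div_const ε).mul_const (1 + 40 * (r:ℝ))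
    simpa using h3
  · intro c a ha hc δ hδ
    have hcont := es_continuous c a
    set q : ℝ := 1 / (2 * ((r:ℝ) + 1)) with hq
    have hqε : q = 2 * ε := by rw [hq, hε]; field_simp; ring
    have hmeas : Measurable (fun t : ℝ => ‖es c a t‖ ^ (-q)) := hcont.measurable.pow_const _
    have hmom := neg_moment r c a ha hc
    rw [← hq] at hmom
    have hint : Integrable (fun t : ℝ => ‖es c a t‖ ^ (-q)) (volume.restrict (Set.Icc (0:ℝ) 1)) := by
      refine ⟨hmeas.aestronglyMeasurable, ?_⟩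
      rw [hasFiniteIntegral_iff_ofReal (Eventually.of_forall fun t => by positivity)]
      exact hmom.trans_lt ENNReal.ofReal_lt_top
    have hintle : ∫ t in Set.Icc (0:ℝ) 1, ‖es c a t‖ ^ (-q) ≤ 1 + 40 * r := by
      rw [integral_eq_lintegral_of_nonneg_ae (Eventually.of_forall fun t => by positivity)
        hmeas.aestronglyMeasurable]
      exact ENNReal.toReal_le_of_le_ofReal (by positivity) hmom
    have hpt : ∀ t : ℝ, Real.log (1 + δ / ‖es c a t‖ ^ 2) ≤ δ ^ ε / ε * ‖es c a t‖ ^ (-q) := by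
      intro t
      have h0 := log_one_add_le (x := δ / ‖es c a t‖ ^ 2) (by positivity) hε0 hε1
      refine h0.trans (le_of_eq ?_)
      rw [Real.div_rpow hδ.le (by positivity), Real.rpow_neg (norm_nonneg _), hqε,
        Real.rpow_mul (norm_nonneg _), Real.rpow_two]
      ring
    have hnn : ∀ t : ℝ, 0 ≤ Real.log (1 + δ / ‖es c a t‖ ^ 2) := fun t =>
      Real.log_nonneg (by
        have : 0 ≤ δ / ‖es c a t‖ ^ 2 := by positivity
        linarith)
    have hfm : Measurable (fun t : ℝ => Real.log (1 + δ / ‖es c a t‖ ^ 2)) :=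
      Real.measurable_log.comp (measurable_const.add (measurable_const.div (hcont.measurable.pow_const 2)))
    have hfint : Integrable (fun t : ℝ => Real.log (1 + δ / ‖es c a t‖ ^ 2))
        (volume.restrict (Set.Icc (0:ℝ) 1)) := by
      refine (hint.const_mul (δ ^ ε / ε)).mono' hfm.aestronglyMeasurable
        (Eventually.of_forall fun t => ?_)
      rw [Real.norm_eq_abs, abs_of_nonneg (hnn t)]
      exact hpt t
    refine ⟨?_, ?_⟩
    · rw [intervalIntegrable_iff_integrableOn_Icc_of_le zero_le_one]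
      exact hfint
    · rw [intervalIntegral.integral_of_le zero_le_one, ← integral_Icc_eq_integral_Ioc]
      calc ∫ t in Set.Icc (0:ℝ) 1, Real.log (1 + δ / ‖es c a t‖ ^ 2)
          ≤ ∫ t in Set.Icc (0:ℝ) 1, δ ^ ε / ε * ‖es c a t‖ ^ (-q) :=
            integral_mono hfint (hint.const_mul _) hpt
        _ = δ ^ ε / ε * ∫ t in Set.Icc (0:ℝ) 1, ‖es c a t‖ ^ (-q) := integral_const_mul _ _
        _ ≤ δ ^ ε / ε * (1 + 40 * r) := mul_le_mul_of_nonneg_left hintle (by positivity)

end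

end Pool.Agent.H261R2.CM
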