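import Pool.Agent.H261R2.CM.Defs2
import Pool.Agent.H261R2.CM.D
import Pool.Agent.H261R2.CM.F
import Pool.Agent.H261R2.CM.H2a
import Pool.Agent.H261R2.CM.K2a
import Pool.Agent.H338R2.AS.Defs

/-!
# K2b: the defect of the regularised logarithm for specialisations
-/

set_option autoImplicit false

namespace Pool.Agent.H261R2.CM

open Polynomial Filter MeasureTheory Matrix Topology
open Pool.Agent.H338R2.AS (es)

noncomputable section

theorem K2b_spec_ne {k : ℕ} (C : MvPolynomial (Fin k) ℤ) (hC : C ≠ 0) (e : Fin k → ℕ)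
    (he : Set.InjOn (fun s : Fin k →₀ ℕ => ∑ i, s i * e i) (C.support : Set (Fin k →₀ ℕ))) :
    spec e C ≠ 0 := by
  classical
  obtain ⟨s, hs⟩ := Finset.nonempty_iff_ne_empty.2 (fun h => hC (MvPolynomial.support_eq_empty.1 h))
  intro h0
  have h1 := congrArg (fun P : ℤ[X] => P.coeff (∑ i, s i * e i)) h0
  simp only [F_spec_eq, Polynomial.finsetSum_coeff, Polynomial.coeff_C_mul_X_pow,
    Polynomial.coeff_zero] at h1
  rw [Finset.sum_eq_single_of_mem s hs] at h1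
  · rw [if_pos rfl] at h1
    exact (MvPolynomial.mem_support_iff.1 hs) h1
  · intro b hb hbs
    rw [if_neg]
    intro h2
    exact hbs (he hb hs h2.symm)

/-- K2b (file K2b.lean; uses K2a) -/
theorem spec_log_defect {k : ℕ} (C : MvPolynomial (Fin k) ℤ) (hC : C ≠ 0) :
    ∃ η : ℝ → ℝ, Tendsto η (𝓝[>] 0) (𝓝 0) ∧ ∀ e : Fin k → ℕ,
      Set.InjOn (fun s : Fin k →₀ ℕ => ∑ i, s i * e i) (C.support : Set (Fin k →₀ ℕ)) →
      ∀ δ > 0, IntervalIntegrable (fun t => Real.log (‖ev1 (spec e C) t‖ ^ 2 + δ) -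
          2 * Real.log ‖ev1 (spec e C) t‖) volume 0 1 ∧
        ∫ t in (0:ℝ)..1, (Real.log (‖ev1 (spec e C) t‖ ^ 2 + δ) -
          2 * Real.log ‖ev1 (spec e C) t‖) ≤ η δ := by
  classical
  have hne : C.support.Nonempty :=
    Finset.nonempty_iff_ne_empty.2 (fun h => hC (MvPolynomial.support_eq_empty.1 h))
  obtain ⟨r, hr⟩ : ∃ r, C.support.card = r + 1 :=
    ⟨C.support.card - 1, (Nat.succ_pred_eq_of_pos hne.card_pos).symm⟩
  let φ : C.support ≃ Fin (r + 1) := Finset.equivFinOfCardEq hr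
  obtain ⟨η, hη, H⟩ := log_defect r
  refine ⟨η, hη, fun e he δ hδ => ?_⟩
  let c : Fin (r + 1) → ℂ := fun j => ((C.coeff (φ.symm j).1 : ℤ) : ℂ)
  let a : Fin (r + 1) → ℤ := fun j => ∑ i, ((φ.symm j).1 i : ℤ) * (e i : ℤ)
  have ha : Function.Injective a := by
    intro j j' hjj
    have h1 : (∑ i, (φ.symm j).1 i * e i) = ∑ i, (φ.symm j').1 i * e i := by
      have : ((∑ i, (φ.symm j).1 i * e i : ℕ) : ℤ) = ((∑ i, (φ.symm j').1 i * e i : ℕ) : ℤ) := by
        push_cast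
        exact hjj
      exact_mod_cast this
    have h2 := he (φ.symm j).2 (φ.symm j').2 h1
    exact φ.symm.injective (Subtype.ext h2)
  have hc : ∃ j, 1 ≤ ‖c j‖ := by
    refine ⟨0, ?_⟩
    have h1 : C.coeff (φ.symm 0).1 ≠ 0 := MvPolynomial.mem_support_iff.1 (φ.symm 0).2
    show 1 ≤ ‖((C.coeff (φ.symm 0).1 : ℤ) : ℂ)‖
    rw [Complex.norm_intCast]
    exact_mod_cast Int.one_le_abs h1
  have hes : ∀ t, ev1 (spec e C) t = es c a t := by
    intro t
    rw [H2_ev]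
    unfold es H2_E
    rw [← Finset.sum_coe_sort, ← φ.symm.sum_comp]
  have hae : ∀ᵐ t : ℝ, Real.log (1 + δ / ‖es c a t‖ ^ 2) =
      Real.log (‖ev1 (spec e C) t‖ ^ 2 + δ) - 2 * Real.log ‖ev1 (spec e C) t‖ := by
    filter_upwards [D_ae_ne _ (K2b_spec_ne C hC e he)] with t ht
    rw [hes] at ht ⊢
    have hpos : 0 < ‖es c a t‖ := norm_pos_iff.2 ht
    have h2 : ‖es c a t‖ ^ 2 + δ = ‖es c a t‖ ^ 2 * (1 + δ / ‖es c a t‖ ^ 2) := by
      field_simp
    rw [h2, Real.log_mul (by positivity) (by positivity), Real.log_pow]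
    push_cast
    ring
  obtain ⟨hI, hle⟩ := H c a ha hc δ hδ
  constructor
  · exact hI.congr_ae (ae_restrict_of_ae hae)
  · rw [← intervalIntegral.integral_congr_ae (hae.mono fun t ht _ => ht)]
    exact hle

end

end Pool.Agent.H261R2.CM
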