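import Pool.Agent.H261R2.CM.D
import Pool.Agent.H261R2.CM.Defs2

/-!
# Task K3: outer approximation for a pair
-/

set_option autoImplicit false

namespace Pool.Agent.H261R2.CM

open Polynomial Filter MeasureTheory

noncomputable section

/-- the continuous weight `|A|² + |B|² + δ` -/
theorem K3_continuous_log (A B : ℤ[X]) {δ : ℝ} (hδ : 0 < δ) :
    Continuous fun t => Real.log (‖ev1 A t‖ ^ 2 + ‖ev1 B t‖ ^ 2 + δ) :=
  ((((D_continuous_ev1 A).norm.pow 2).add ((D_continuous_ev1 B).norm.pow 2)).add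
    continuous_const).log fun t =>
    (show 0 < ‖ev1 A t‖ ^ 2 + ‖ev1 B t‖ ^ 2 + δ by positivity).ne'

theorem K3_integrable (A B : ℤ[X]) (hA : A ≠ 0) :
    IntervalIntegrable (fun t => Real.log (‖ev1 A t‖ ^ 2 + ‖ev1 B t‖ ^ 2)) volume 0 1 := by
  have h := ((D_intervalIntegrable_log A).const_mul 2).abs.add
    ((K3_continuous_log A B one_pos).intervalIntegrable 0 1)
  refine h.mono_fun' ?_ ?_
  · have hm : Measurable fun t => Real.log (‖ev1 A t‖ ^ 2 + ‖ev1 B t‖ ^ 2) :=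
      Real.measurable_log.comp (((D_continuous_ev1 A).norm.pow 2).add
        ((D_continuous_ev1 B).norm.pow 2)).measurable
    exact hm.aestronglyMeasurable
  · refine ae_restrict_of_ae ?_
    filter_upwards [D_ae_ne A hA] with t ht
    have h1 : 0 < ‖ev1 A t‖ := norm_pos_iff.mpr ht
    have h2 : 2 * Real.log ‖ev1 A t‖ = Real.log (‖ev1 A t‖ ^ 2) := by
      rw [Real.log_pow]; push_cast; ring
    have h0 : 0 ≤ ‖ev1 B t‖ ^ 2 := sq_nonneg _
    have h3 : Real.log (‖ev1 A t‖ ^ 2) ≤ Real.log (‖ev1 A t‖ ^ 2 + ‖ev1 B t‖ ^ 2) :=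
      Real.log_le_log (by positivity) (by linarith)
    have h4 : Real.log (‖ev1 A t‖ ^ 2 + ‖ev1 B t‖ ^ 2) ≤
        Real.log (‖ev1 A t‖ ^ 2 + ‖ev1 B t‖ ^ 2 + 1) :=
      Real.log_le_log (by positivity) (by linarith)
    have h5 : 0 ≤ Real.log (‖ev1 A t‖ ^ 2 + ‖ev1 B t‖ ^ 2 + 1) :=
      Real.log_nonneg (by nlinarith [sq_nonneg ‖ev1 A t‖])
    rw [Real.norm_eq_abs, h2]
    have h8 := neg_abs_le (Real.log (‖ev1 A t‖ ^ 2))
    have h9 := abs_nonneg (Real.log (‖ev1 A t‖ ^ 2))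
    rw [abs_le]
    constructor
    · linarith
    · linarith

/-- K3 (file K3.lean; uses D) -/
theorem outer_approx_pair (A B : ℤ[X]) (hA : A ≠ 0) (κ : ℝ) (hκ : N21 A B < κ) :
    ∃ p : ℂ[X], mass (p * toC A) + mass (p * toC B) ≤ 2 ∧
      Real.exp ((Real.log 2 - κ) / 2) ≤ ‖p.coeff 0‖ := by
  obtain ⟨δ, hδ, hδx⟩ := m1_upper A hA (2 * Real.log (m1 A) + (κ - N21 A B)) (by linarith)
  -- step 1
  have hI : ∫ t in (0:ℝ)..1, Real.log (‖ev1 A t‖ ^ 2 + ‖ev1 B t‖ ^ 2 + δ) < κ := by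
    have h1 : (∫ t in (0:ℝ)..1, Real.log (‖ev1 A t‖ ^ 2 + ‖ev1 B t‖ ^ 2 + δ)) ≤
        ∫ t in (0:ℝ)..1, (Real.log (‖ev1 A t‖ ^ 2 + ‖ev1 B t‖ ^ 2) +
          (Real.log (‖ev1 A t‖ ^ 2 + δ) - 2 * Real.log ‖ev1 A t‖)) := by
      refine intervalIntegral.integral_mono_ae zero_le_one
        ((K3_continuous_log A B hδ).intervalIntegrable _ _)
        ((K3_integrable A B hA).add (((D_continuous_log A hδ).intervalIntegrable _ _).sub
          ((D_intervalIntegrable_log A).const_mul 2))) ?_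
      filter_upwards [D_ae_ne A hA] with t ht
      have h1 : 0 < ‖ev1 A t‖ := norm_pos_iff.mpr ht
      have h2 : 2 * Real.log ‖ev1 A t‖ = Real.log (‖ev1 A t‖ ^ 2) := by
        rw [Real.log_pow]; push_cast; ring
      have h0 : 0 ≤ ‖ev1 B t‖ ^ 2 := sq_nonneg _
      have ha : 0 < ‖ev1 A t‖ ^ 2 := by positivity
      rw [h2]
      have h3 : Real.log (‖ev1 A t‖ ^ 2 + ‖ev1 B t‖ ^ 2 + δ) + Real.log (‖ev1 A t‖ ^ 2) ≤
          Real.log (‖ev1 A t‖ ^ 2 + ‖ev1 B t‖ ^ 2) + Real.log (‖ev1 A t‖ ^ 2 + δ) := by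
        rw [← Real.log_mul (by positivity) (by positivity),
          ← Real.log_mul (by positivity) (by positivity)]
        refine Real.log_le_log (by positivity) ?_
        nlinarith [mul_nonneg hδ.le h0]
      linarith
    have h2 : (∫ t in (0:ℝ)..1, (Real.log (‖ev1 A t‖ ^ 2 + ‖ev1 B t‖ ^ 2) +
          (Real.log (‖ev1 A t‖ ^ 2 + δ) - 2 * Real.log ‖ev1 A t‖))) =
        N21 A B + ((∫ t in (0:ℝ)..1, Real.log (‖ev1 A t‖ ^ 2 + δ)) - 2 * Real.log (m1 A)) := by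
      rw [intervalIntegral.integral_add (K3_integrable A B hA)
        (((D_continuous_log A hδ).intervalIntegrable _ _).sub
          ((D_intervalIntegrable_log A).const_mul 2)),
        intervalIntegral.integral_sub ((D_continuous_log A hδ).intervalIntegrable _ _)
          ((D_intervalIntegrable_log A).const_mul 2),
        intervalIntegral.integral_const_mul, ← D_log_m1]
      rfl
    linarith
  set I : ℝ := ∫ t in (0:ℝ)..1, Real.log (‖ev1 A t‖ ^ 2 + ‖ev1 B t‖ ^ 2 + δ) with hIdef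
  set ε : ℝ := (κ - I) / 8 with hε
  have hεpos : 0 < ε := by rw [hε]; linarith
  set ψ : ℝ → ℝ := fun t =>
    -(1 / 2) * Real.log (‖ev1 A t‖ ^ 2 + ‖ev1 B t‖ ^ 2 + δ) + (Real.log 2 / 2 - ε) with hψ
  have hψc : Continuous ψ := ((K3_continuous_log A B hδ).const_mul _).add continuous_const
  have hper : Function.Periodic ψ 1 := by
    intro t
    have : ez (t + 1) = ez t := by
      simp only [ez]
      push_cast
      rw [mul_add, mul_one, Complex.exp_add, Complex.exp_two_pi_mul_I, mul_one]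
    simp only [hψ, ev1, this]
  obtain ⟨q, hq1, hq2⟩ := exp_poly_approx ψ hψc hper ε hεpos
  refine ⟨q, ?_, ?_⟩
  · unfold mass
    rw [parseval, parseval]
    have hc1 : Continuous fun t => ‖(q * toC A).eval (ez t)‖ ^ 2 :=
      (((q * toC A).continuous.comp D_continuous_ez).norm.pow 2)
    have hc2 : Continuous fun t => ‖(q * toC B).eval (ez t)‖ ^ 2 :=
      (((q * toC B).continuous.comp D_continuous_ez).norm.pow 2)
    rw [← intervalIntegral.integral_add (hc1.intervalIntegrable _ _)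
      (hc2.intervalIntegrable _ _)]
    have h3 : (∫ t in (0:ℝ)..1, (‖(q * toC A).eval (ez t)‖ ^ 2 +
        ‖(q * toC B).eval (ez t)‖ ^ 2)) ≤ ∫ _ in (0:ℝ)..1, (2 : ℝ) := by
      refine intervalIntegral.integral_mono_on zero_le_one
        ((hc1.add hc2).intervalIntegrable _ _) (by simp) fun t _ => ?_
      have h2 := (hq1 t).2
      have hpos : 0 < ‖ev1 A t‖ ^ 2 + ‖ev1 B t‖ ^ 2 + δ := by positivity
      have h4 : ‖q.eval (ez t)‖ ^ 2 ≤ 2 / (‖ev1 A t‖ ^ 2 + ‖ev1 B t‖ ^ 2 + δ) := by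
        have h5 : ‖q.eval (ez t)‖ ^ 2 ≤ Real.exp (ψ t + ε) ^ 2 :=
          pow_le_pow_left₀ (norm_nonneg _) h2 2
        have h6 : Real.exp (ψ t + ε) ^ 2 = 2 / (‖ev1 A t‖ ^ 2 + ‖ev1 B t‖ ^ 2 + δ) := by
          have h7 : 2 / (‖ev1 A t‖ ^ 2 + ‖ev1 B t‖ ^ 2 + δ) =
              Real.exp (Real.log 2 - Real.log (‖ev1 A t‖ ^ 2 + ‖ev1 B t‖ ^ 2 + δ)) := by
            rw [Real.exp_sub, Real.exp_log (by norm_num), Real.exp_log hpos]
          rw [h7, ← Real.exp_nat_mul]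
          congr 1
          simp only [hψ]
          push_cast
          ring
        exact h5.trans h6.le
      rw [eval_mul, eval_mul, norm_mul, norm_mul, mul_pow, mul_pow, ← mul_add]
      have h8 : ‖(toC A).eval (ez t)‖ ^ 2 + ‖(toC B).eval (ez t)‖ ^ 2 ≤
          ‖ev1 A t‖ ^ 2 + ‖ev1 B t‖ ^ 2 + δ := by
        simp only [ev1]
        linarith
      calc ‖q.eval (ez t)‖ ^ 2 * (‖(toC A).eval (ez t)‖ ^ 2 + ‖(toC B).eval (ez t)‖ ^ 2)
          ≤ 2 / (‖ev1 A t‖ ^ 2 + ‖ev1 B t‖ ^ 2 + δ) * (‖ev1 A t‖ ^ 2 + ‖ev1 B t‖ ^ 2 + δ) :=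
            mul_le_mul h4 h8 (by positivity) (by positivity)
        _ = 2 := div_mul_cancel₀ _ hpos.ne'
    refine h3.trans ?_
    simp
  · refine le_trans ?_ hq2
    have h2 : (∫ t in (0:ℝ)..1, ψ t) = -(1 / 2) * I + (Real.log 2 / 2 - ε) := by
      simp only [hψ]
      rw [intervalIntegral.integral_add
        (((K3_continuous_log A B hδ).const_mul _).intervalIntegrable _ _) (by simp),
        intervalIntegral.integral_const_mul, ← hIdef, intervalIntegral.integral_const]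
      simp
    rw [h2]
    refine Real.exp_le_exp.mpr ?_
    rw [hε]
    linarith

end

end Pool.Agent.H261R2.CM
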