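import Pool.Agent.H261R2.CM.K1
import Pool.Agent.H261R2.CM.I2
import Pool.Agent.H261R2.CM.K3
import Pool.Agent.H261R2.CM.K2c

set_option autoImplicit false

namespace Pool.Agent.H261R2.CM

open Polynomial Filter MeasureTheory Matrix Topology

noncomputable section

/-! ### integrability -/

theorem K4_int1 (θ : ℝ → ℝ → ℝ) (hθ : Continuous fun q : ℝ × ℝ => θ q.1 q.2)
    (hge : ∀ x y, x ^ 2 ≤ θ x y) (A B : ℤ[X]) (hA : A ≠ 0) :
    IntervalIntegrable (fun t => Real.log (θ ‖ev1 A t‖ ‖ev1 B t‖)) volume 0 1 := by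
  have hcont : Continuous fun t => θ ‖ev1 A t‖ ‖ev1 B t‖ :=
    hθ.comp ((D_continuous_ev1 A).norm.prodMk (D_continuous_ev1 B).norm)
  obtain ⟨K, hK⟩ := (isCompact_Icc (a := (0:ℝ)) (b := 1)).exists_bound_of_continuousOn
    hcont.continuousOn
  rw [intervalIntegrable_iff_integrableOn_Ioc_of_le zero_le_one]
  have h1 := (D_intervalIntegrable_log A).const_mul 2
  rw [intervalIntegrable_iff_integrableOn_Ioc_of_le zero_le_one] at h1
  refine Integrable.mono' (h1.abs.add (integrable_const (Real.log (|K| + 1)))) ?_ ?_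
  · exact (Real.measurable_log.comp hcont.measurable).aestronglyMeasurable
  · rw [ae_restrict_iff' measurableSet_Ioc]
    filter_upwards [D_ae_ne A hA] with t ht htI
    have h2 : 0 < ‖ev1 A t‖ := norm_pos_iff.mpr ht
    have h3 : 2 * Real.log ‖ev1 A t‖ = Real.log (‖ev1 A t‖ ^ 2) := by
      rw [Real.log_pow]; push_cast; ring
    have h4 : 0 < ‖ev1 A t‖ ^ 2 := by positivity
    have h5 := hge ‖ev1 A t‖ ‖ev1 B t‖
    have h6 : Real.log (‖ev1 A t‖ ^ 2) ≤ Real.log (θ ‖ev1 A t‖ ‖ev1 B t‖) :=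
      Real.log_le_log h4 h5
    have h7 := hK t ⟨htI.1.le, htI.2⟩
    rw [Real.norm_eq_abs] at h7
    have h8 : θ ‖ev1 A t‖ ‖ev1 B t‖ ≤ |K| + 1 := by
      have := le_abs_self (θ ‖ev1 A t‖ ‖ev1 B t‖)
      have := le_abs_self K
      linarith
    have h9 : Real.log (θ ‖ev1 A t‖ ‖ev1 B t‖) ≤ Real.log (|K| + 1) :=
      Real.log_le_log (by linarith) h8
    have h10 : 0 ≤ Real.log (|K| + 1) := Real.log_nonneg (by linarith [abs_nonneg K])
    simp only [Pi.add_apply]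
    rw [Real.norm_eq_abs, abs_le]
    have h11 := neg_abs_le (2 * Real.log ‖ev1 A t‖)
    have h12 := abs_nonneg (2 * Real.log ‖ev1 A t‖)
    constructor
    · linarith
    · linarith

theorem K4_intk {k : ℕ} (θ : ℝ → ℝ → ℝ) (hθ : Continuous fun q : ℝ × ℝ => θ q.1 q.2)
    (hge : ∀ x y, x ^ 2 ≤ θ x y) (C D : MvPolynomial (Fin k) ℤ) (hC : C ≠ 0) :
    IntegrableOn (fun t => Real.log (θ ‖tv C t‖ ‖tv D t‖)) (Set.Icc (0 : Fin k → ℝ) 1) := by
  have hcont : Continuous fun t => θ ‖tv C t‖ ‖tv D t‖ :=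
    hθ.comp ((F_continuous_tv C).norm.prodMk (F_continuous_tv D).norm)
  obtain ⟨K, hK⟩ := (isCompact_Icc (a := (0 : Fin k → ℝ)) (b := 1)).exists_bound_of_continuousOn
    hcont.continuousOn
  have h1 := (F_integrable hC).const_mul 2
  refine Integrable.mono' (h1.abs.add (integrable_const (Real.log (|K| + 1)))) ?_ ?_
  · exact (Real.measurable_log.comp hcont.measurable).aestronglyMeasurable
  · filter_upwards [F_zero_null hC, ae_restrict_mem measurableSet_Icc] with t ht htI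
    have h2 : 0 < ‖tv C t‖ := norm_pos_iff.mpr ht
    have h3 : 2 * Real.log ‖tv C t‖ = Real.log (‖tv C t‖ ^ 2) := by
      rw [Real.log_pow]; push_cast; ring
    have h4 : 0 < ‖tv C t‖ ^ 2 := by positivity
    have h5 := hge ‖tv C t‖ ‖tv D t‖
    have h6 : Real.log (‖tv C t‖ ^ 2) ≤ Real.log (θ ‖tv C t‖ ‖tv D t‖) :=
      Real.log_le_log h4 h5
    have h7 := hK t htI
    rw [Real.norm_eq_abs] at h7
    have h8 : θ ‖tv C t‖ ‖tv D t‖ ≤ |K| + 1 := by
      have := le_abs_self (θ ‖tv C t‖ ‖tv D t‖)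
      have := le_abs_self K
      linarith
    have h9 : Real.log (θ ‖tv C t‖ ‖tv D t‖) ≤ Real.log (|K| + 1) :=
      Real.log_le_log (by linarith) h8
    have h10 : 0 ≤ Real.log (|K| + 1) := Real.log_nonneg (by linarith [abs_nonneg K])
    simp only [Pi.add_apply]
    rw [Real.norm_eq_abs, abs_le]
    have h11 := neg_abs_le (2 * Real.log ‖tv C t‖)
    have h12 := abs_nonneg (2 * Real.log ‖tv C t‖)
    constructor
    · linarith
    · linarith

/-- the function `x² + y²` -/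
def thS : ℝ → ℝ → ℝ := fun x y => x ^ 2 + y ^ 2

theorem thS_cont : Continuous fun q : ℝ × ℝ => thS q.1 q.2 := by unfold thS; fun_prop

theorem thS_ge : ∀ x y, x ^ 2 ≤ thS x y := fun x y => by unfold thS; nlinarith [sq_nonneg y]

/-- the function `max(x, y)²` (for nonnegative arguments) -/
def thM : ℝ → ℝ → ℝ := fun x y => max (x ^ 2) (y ^ 2)

theorem thM_cont : Continuous fun q : ℝ × ℝ => thM q.1 q.2 := by unfold thM; fun_prop

theorem thM_ge : ∀ x y, x ^ 2 ≤ thM x y := fun _ _ => le_max_left _ _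

theorem thM_log {x y : ℝ} (hx : 0 ≤ x) (hy : 0 ≤ y) :
    Real.log (thM x y) = 2 * Real.log (max x y) := by
  have : thM x y = max x y ^ 2 := by
    unfold thM
    rcases le_total x y with h | h
    · rw [max_eq_right h, max_eq_right (pow_le_pow_left₀ hx h 2)]
    · rw [max_eq_left h, max_eq_left (pow_le_pow_left₀ hy h 2)]
  rw [this, Real.log_pow]
  push_cast
  ring

/-- effect of a common factor on `∫ log θ`, when `θ` is homogeneous of degree two -/
theorem K4_factor (θ : ℝ → ℝ → ℝ) (hθ : Continuous fun q : ℝ × ℝ => θ q.1 q.2)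
    (hge : ∀ x y, x ^ 2 ≤ θ x y) (hhom : ∀ c x y, 0 ≤ c → θ (c * x) (c * y) = c ^ 2 * θ x y)
    (Q A B : ℤ[X]) (hQ : Q ≠ 0) (hA : A ≠ 0) :
    ∫ t in (0:ℝ)..1, Real.log (θ ‖ev1 (Q * A) t‖ ‖ev1 (Q * B) t‖) =
      2 * Real.log (m1 Q) + ∫ t in (0:ℝ)..1, Real.log (θ ‖ev1 A t‖ ‖ev1 B t‖) := by
  rw [D_log_m1, ← intervalIntegral.integral_const_mul, ← intervalIntegral.integral_add
    ((D_intervalIntegrable_log Q).const_mul 2) (K4_int1 θ hθ hge A B hA)]
  refine intervalIntegral.integral_congr_ae ?_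
  filter_upwards [D_ae_ne Q hQ, D_ae_ne A hA] with t h1 h2 _
  have h3 : 0 < ‖ev1 Q t‖ := norm_pos_iff.mpr h1
  have h4 : 0 < ‖ev1 A t‖ := norm_pos_iff.mpr h2
  have h5 : 0 < θ ‖ev1 A t‖ ‖ev1 B t‖ := lt_of_lt_of_le (by positivity) (hge _ _)
  rw [I1_ev1_mul, I1_ev1_mul, norm_mul, norm_mul, hhom _ _ _ h3.le,
    Real.log_mul (by positivity) h5.ne', Real.log_pow]
  push_cast
  ring

theorem thS_hom : ∀ c x y : ℝ, 0 ≤ c → thS (c * x) (c * y) = c ^ 2 * thS x y := by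
  intro c x y _
  unfold thS
  ring

theorem thM_hom : ∀ c x y : ℝ, 0 ≤ c → thM (c * x) (c * y) = c ^ 2 * thM x y := by
  intro c x y _
  unfold thM
  rw [mul_pow, mul_pow, mul_max_of_nonneg _ _ (sq_nonneg c)]

theorem N21_mul (Q A B : ℤ[X]) (hQ : Q ≠ 0) (hA : A ≠ 0) :
    N21 (Q * A) (Q * B) = 2 * Real.log (m1 Q) + N21 A B :=
  K4_factor thS thS_cont thS_ge thS_hom Q A B hQ hA

theorem N21_lim {k : ℕ} (𝓕 : Filter ℕ) (e : ℕ → Fin k → ℕ) (he : AsympIndep 𝓕 e)
    (C D : MvPolynomial (Fin k) ℤ) (hC : C ≠ 0) :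
    Tendsto (fun n => N21 (spec (e n) C) (spec (e n) D)) 𝓕 (𝓝 (N2 C D)) :=
  lim_theta 𝓕 e he thS thS_cont thS_ge C D hC

theorem mx1_eq (A B : ℤ[X]) :
    2 * mx1 A B = ∫ t in (0:ℝ)..1, Real.log (thM ‖ev1 A t‖ ‖ev1 B t‖) := by
  unfold mx1
  rw [← intervalIntegral.integral_const_mul]
  refine intervalIntegral.integral_congr fun t _ => ?_
  exact (thM_log (norm_nonneg _) (norm_nonneg _)).symm

theorem mx_eq {k : ℕ} (C D : MvPolynomial (Fin k) ℤ) :
    2 * mx C D = ∫ t in Set.Icc (0 : Fin k → ℝ) 1, Real.log (thM ‖tv C t‖ ‖tv D t‖) := by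
  unfold mx
  rw [← integral_const_mul]
  refine integral_congr_ae (Eventually.of_forall fun t => ?_)
  exact (thM_log (norm_nonneg _) (norm_nonneg _)).symm

theorem mx1_mul (Q A B : ℤ[X]) (hQ : Q ≠ 0) (hA : A ≠ 0) :
    mx1 (Q * A) (Q * B) = Real.log (m1 Q) + mx1 A B := by
  have h1 := K4_factor thM thM_cont thM_ge thM_hom Q A B hQ hA
  rw [← mx1_eq, ← mx1_eq] at h1
  linarith

theorem mx1_lim {k : ℕ} (𝓕 : Filter ℕ) (e : ℕ → Fin k → ℕ) (he : AsympIndep 𝓕 e)
    (C D : MvPolynomial (Fin k) ℤ) (hC : C ≠ 0) :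
    Tendsto (fun n => mx1 (spec (e n) C) (spec (e n) D)) 𝓕 (𝓝 (mx C D)) := by
  have h1 := lim_theta 𝓕 e he thM thM_cont thM_ge C D hC
  rw [← mx_eq] at h1
  simp only [← mx1_eq] at h1
  have h2 := h1.const_mul (1 / 2)
  have h3 : 1 / 2 * (2 * mx C D) = mx C D := by ring
  rw [h3] at h2
  refine h2.congr fun n => ?_
  ring

/-- Boyd's limit formula. -/
theorem m1_lim {k : ℕ} (𝓕 : Filter ℕ) (e : ℕ → Fin k → ℕ) (he : AsympIndep 𝓕 e)
    (C : MvPolynomial (Fin k) ℤ) (hC : C ≠ 0) :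
    Tendsto (fun n => m1 (spec (e n) C)) 𝓕 (𝓝 (mM C)) := by
  have h1 := lim_theta 𝓕 e he (fun x _ => x ^ 2) (by fun_prop) (fun _ _ => le_rfl) C 0 hC
  have h2 : (∫ t in Set.Icc (0 : Fin k → ℝ) 1, Real.log (‖tv C t‖ ^ 2)) = 2 * Real.log (mM C) := by
    rw [F_two_log]
    refine integral_congr_ae (Eventually.of_forall fun t => ?_)
    simp only
    rw [Real.log_pow]
    push_cast
    ring
  rw [h2] at h1
  have h3 := (Real.continuous_exp.tendsto _).comp (h1.const_mul (1 / 2))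
  have h4 : Real.exp (1 / 2 * (2 * Real.log (mM C))) = mM C := by
    rw [show (1 / 2 * (2 * Real.log (mM C)) : ℝ) = Real.log (mM C) by ring, Real.exp_log]
    exact Real.exp_pos _
  rw [h4] at h3
  refine h3.congr' ?_
  filter_upwards [spec_ne_zero 𝓕 e he C hC] with n hn
  have h5 : 0 < m1 (spec (e n) C) := lt_of_lt_of_le one_pos (I1_one_le_m1 hn)
  simp only [Function.comp]
  have h6 : (∫ t in (0:ℝ)..1, Real.log (‖ev1 (spec (e n) C) t‖ ^ 2)) =
      2 * Real.log (m1 (spec (e n) C)) := by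
    rw [D_log_m1, ← intervalIntegral.integral_const_mul]
    refine intervalIntegral.integral_congr fun t _ => ?_
    rw [Real.log_pow]
    push_cast
    ring
  rw [h6, show (1 / 2 * (2 * Real.log (m1 (spec (e n) C))) : ℝ) =
    Real.log (m1 (spec (e n) C)) by ring, Real.exp_log h5]

/-- In the limit the common factor has Mahler measure one. -/
theorem limit_general {k : ℕ} (C D : MvPolynomial (Fin k) ℤ) (hC : C ≠ 0) (hD : D ≠ 0)
    (hCD : IsRelPrime C D) (𝒰 : Ultrafilter ℕ) (e : ℕ → Fin k → ℕ)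
    (he : AsympIndep (𝒰 : Filter ℕ) e) (A B : ℕ → ℤ[X]) (hA : ∀ n, A n ≠ 0) (hB : ∀ n, B n ≠ 0)
    (hAB : ∀ n, IsRelPrime (A n) (B n))
    (hrel : ∀ᶠ n in (𝒰 : Filter ℕ), spec (e n) D * A n = spec (e n) C * B n) :
    ∃ Q : ℕ → ℤ[X], (∀ᶠ n in (𝒰 : Filter ℕ), Q n ≠ 0 ∧ spec (e n) C = Q n * A n ∧
      spec (e n) D = Q n * B n) ∧
      Tendsto (fun n => Real.log (m1 (Q n))) (𝒰 : Filter ℕ) (𝓝 0) := by
  classical
  have hquot : ∀ᶠ n in (𝒰 : Filter ℕ), ∃ Q : ℤ[X], Q ≠ 0 ∧ spec (e n) C = Q * A n ∧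
      spec (e n) D = Q * B n := by
    filter_upwards [hrel, spec_ne_zero _ e he C hC] with n hn hn0
    exact I1_quot (hA n) hn0 (hAB n) hn
  have hex : ∀ n, ∃ Q : ℤ[X], (∃ Q : ℤ[X], Q ≠ 0 ∧ spec (e n) C = Q * A n ∧
      spec (e n) D = Q * B n) → Q ≠ 0 ∧ spec (e n) C = Q * A n ∧ spec (e n) D = Q * B n := by
    intro n
    by_cases h : ∃ Q : ℤ[X], Q ≠ 0 ∧ spec (e n) C = Q * A n ∧ spec (e n) D = Q * B n
    · obtain ⟨Q, hQ⟩ := h
      exact ⟨Q, fun _ => hQ⟩
    · exact ⟨0, fun h' => absurd h' h⟩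
  choose Q hQ using hex
  have hQ' : ∀ᶠ n in (𝒰 : Filter ℕ), Q n ≠ 0 ∧ spec (e n) C = Q n * A n ∧
      spec (e n) D = Q n * B n := hquot.mono fun n hn => hQ n hn
  refine ⟨Q, hQ', ?_⟩
  rw [tendsto_order]
  constructor
  · intro y hy
    filter_upwards [hQ'] with n hn
    have h1 := Real.log_nonneg (I1_one_le_m1 hn.1)
    linarith
  · intro y hy
    by_contra hcon
    rw [← Ultrafilter.eventually_not] at hcon
    have hN := N21_lim (𝒰 : Filter ℕ) e he C D hC
    have hev : ∀ᶠ n in (𝒰 : Filter ℕ), N21 (A n) (B n) < N2 C D - y := by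
      filter_upwards [hcon, hQ', hN.eventually_lt_const (show N2 C D < N2 C D + y by linarith)]
        with n h1 h2 h3
      have h4 := N21_mul (Q n) (A n) (B n) h2.1 (hA n)
      rw [← h2.2.1, ← h2.2.2] at h4
      rw [not_lt] at h1
      linarith
    set κ : ℝ := N2 C D - y with hκ
    have hexp : ∀ n, ∃ p : ℂ[X], mass (p * toC (A n)) + mass (p * toC (B n)) ≤ 2 ∧
        (N21 (A n) (B n) < κ → Real.exp ((Real.log 2 - κ) / 2) ≤ ‖p.coeff 0‖) := by
      intro n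
      by_cases hn : N21 (A n) (B n) < κ
      · obtain ⟨p, h1, h2⟩ := outer_approx_pair (A n) (B n) (hA n) κ hn
        exact ⟨p, h1, fun _ => h2⟩
      · exact ⟨0, by simp [mass], fun h => absurd h hn⟩
    choose p hp1 hp2 using hexp
    have hfin := final_ineq_mass C D hC hD hCD (𝒰 : Filter ℕ) e he A B hA hB hrel p
      (Real.exp ((Real.log 2 - κ) / 2)) (Real.exp_pos _) (hev.mono fun n hn => hp2 n hn) hp1
      (N2 C D) ?_
    · rw [Real.log_exp] at hfin
      rw [hκ] at hfin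
      linarith
    · intro δ hδ
      unfold N2
      refine setIntegral_mono_ae_restrict (K4_intk thS thS_cont thS_ge C D hC) ?_ ?_
      · have hcont : Continuous fun t : Fin k → ℝ => Real.log (‖tv C t‖ ^ 2 + ‖tv D t‖ ^ 2 + δ) := by
          refine Continuous.log ?_ fun t => (show 0 < ‖tv C t‖ ^ 2 + ‖tv D t‖ ^ 2 + δ by positivity).ne'
          have h1 := F_continuous_tv C
          have h2 := F_continuous_tv D
          fun_prop
        exact hcont.continuousOn.integrableOn_compact isCompact_Icc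
      · filter_upwards [F_zero_null hC] with t ht
        have h3 : 0 < ‖tv C t‖ := norm_pos_iff.mpr ht
        exact Real.log_le_log (by positivity) (by linarith)

end

end Pool.Agent.H261R2.CM
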