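import Pool.Agent.H261R2.CM.K6
import Pool.Agent.H338R2.AS.T6

/-!
# A Lehmer gap for pairs of bounded height
-/

set_option autoImplicit false

namespace Pool.Agent.H261R2.CM

open Polynomial Filter MeasureTheory Topology

noncomputable section

/-- the specialisation has at most as many monomials as the polynomial -/
theorem card_support_spec {k : ℕ} (e : Fin k → ℕ) (C : MvPolynomial (Fin k) ℤ) :
    (spec e C).support.card ≤ C.support.card := by
  have h1 : spec e C = ∑ s ∈ C.support, (monomial (∑ i, s i * e i)) (C.coeff s) := by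
    unfold spec
    rw [MvPolynomial.aeval_def, MvPolynomial.eval₂_eq']
    refine Finset.sum_congr rfl fun s _ => ?_
    have h2 : ∀ i : Fin k, ((X : ℤ[X]) ^ (e i)) ^ (s i) = X ^ (s i * e i) := by
      intro i
      rw [← pow_mul, mul_comm]
    simp only [h2]
    rw [Finset.prod_pow_eq_pow_sum, ← C_mul_X_pow_eq_monomial]
    simp
  have h3 : (spec e C).support ⊆ C.support.image (fun s => ∑ i, s i * e i) := by
    intro m hm
    rw [h1, mem_support_iff, finsetSum_coeff] at hm
    obtain ⟨s, hs, hne⟩ := Finset.exists_ne_zero_of_sum_ne_zero hm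
    rw [coeff_monomial] at hne
    have h4 : (∑ i, s i * e i) = m := by
      by_contra h
      rw [if_neg h] at hne
      exact hne rfl
    exact Finset.mem_image.mpr ⟨s, hs, h4⟩
  exact (Finset.card_le_card h3).trans Finset.card_image_le

/-- lower bound for the Mahler measure of all specialisations of a given polynomial -/
theorem spec_gap {k : ℕ} (C : MvPolynomial (Fin k) ℤ) (hC : C ≠ 0) :
    ∃ c : ℝ, 1 < c ∧ ∀ e : Fin k → ℕ, 1 < m1 (spec e C) → c ≤ m1 (spec e C) := by
  obtain ⟨c, hc, h⟩ := Pool.Agent.H338R2.AS.monomial_gap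
  set N : ℝ := (C.support.card : ℝ) with hN
  have hN1 : 1 ≤ N := by
    have h1 : 0 < C.support.card := Finset.card_pos.mpr (MvPolynomial.support_nonempty.mpr hC)
    rw [hN]
    exact_mod_cast h1
  have hlog : 0 < Real.log (2 * N) := Real.log_pos (by linarith)
  refine ⟨Real.exp (c / (N ^ 6 * (Real.log (2 * N)) ^ 3)), ?_, fun e he => ?_⟩
  · rw [Real.one_lt_exp_iff]
    positivity
  · have h1 : Pool.Agent.H338R2.AS.lm (spec e C) = Real.log (m1 (spec e C)) :=
      logMahlerMeasure_eq_log_MahlerMeasure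
    have h2 := h (spec e C) (by rw [h1]; exact Real.log_pos he)
    rw [h1] at h2
    have hn0 : spec e C ≠ 0 := by
      intro h0
      rw [h0] at he
      simp [m1, toC] at he
      linarith
    have hm1 : (1 : ℝ) ≤ ((spec e C).support.card : ℝ) := by
      have h3 : 0 < (spec e C).support.card := Finset.card_pos.mpr (support_nonempty.mpr hn0)
      exact_mod_cast h3
    have hm2 : ((spec e C).support.card : ℝ) ≤ N := by
      rw [hN]
      exact_mod_cast card_support_spec e C
    have hl1 : 0 < Real.log (2 * ((spec e C).support.card : ℝ)) := Real.log_pos (by linarith)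
    have hl2 : Real.log (2 * ((spec e C).support.card : ℝ)) ≤ Real.log (2 * N) :=
      Real.log_le_log (by linarith) (by linarith)
    have h4 : c / (N ^ 6 * (Real.log (2 * N)) ^ 3) ≤ Real.log (m1 (spec e C)) := by
      refine le_trans ?_ h2
      refine div_le_div_of_nonneg_left hc.le (by positivity) ?_
      gcongr
    rw [Real.le_log_iff_exp_le (by linarith)] at h4
    exact h4

/-- the gap for coprime pairs in one variable -/
theorem gap_one (K : ℝ) : ∃ c : ℝ, 1 < c ∧ ∀ A B : ℤ[X], A ≠ 0 → B ≠ 0 → IsRelPrime A B →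
    mx1 A B ≤ K → m1 A = 1 ∨ c ≤ m1 A := by
  by_contra hcon
  push Not at hcon
  have h0 : ∀ n : ℕ, ∃ A B : ℤ[X], A ≠ 0 ∧ B ≠ 0 ∧ IsRelPrime A B ∧ mx1 A B ≤ K ∧
      m1 A ≠ 1 ∧ m1 A < 1 + 1 / ((n : ℝ) + 1) := by
    intro n
    obtain ⟨A, B, h1, h2, h3, h4, h5, h6⟩ := hcon (1 + 1 / ((n : ℝ) + 1)) (by
      have : (0 : ℝ) < 1 / ((n : ℝ) + 1) := by positivity
      linarith)
    exact ⟨A, B, h1, h2, h3, h4, h5, h6⟩
  choose A B hA hB hAB hK hne hlt using h0
  have hgt : ∀ n, 1 < m1 (A n) := fun n =>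
    lt_of_le_of_ne (I1_one_le_m1 (hA n)) (Ne.symm (hne n))
  have hlim : Tendsto (fun n => m1 (A n)) atTop (𝓝 1) := by
    refine tendsto_of_tendsto_of_tendsto_of_le_of_le (g := fun _ : ℕ => (1 : ℝ))
      (h := fun n : ℕ => 1 + 1 / ((n : ℝ) + 1)) tendsto_const_nhds ?_ (fun n => (hgt n).le)
      (fun n => (hlt n).le)
    have h1 := tendsto_one_div_add_atTop_nhds_zero_nat (𝕜 := ℝ)
    simpa using h1.const_add (1 : ℝ)
  obtain ⟨k, e, C, D, hk, hC, hD, hCD, he, hrel, _, _⟩ :=
    pairs_compact_general A B hA hB hAB K hK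
  obtain ⟨Q, hQ, hQlim⟩ := limit_general C D hC hD hCD (hyperfilter ℕ) e he A B hA hB hAB hrel
  obtain ⟨c, hc, hgap⟩ := spec_gap C hC
  have hle : (hyperfilter ℕ : Filter ℕ) ≤ atTop := by
    rw [← Nat.cofinite_eq_atTop]
    exact hyperfilter_le_cofinite
  have h1 : ∀ᶠ n in (hyperfilter ℕ : Filter ℕ), Real.log c ≤ Real.log (m1 (Q n)) +
      Real.log (m1 (A n)) := by
    filter_upwards [hQ] with n hn
    have h2 : m1 (spec (e n) C) = m1 (Q n) * m1 (A n) := by rw [hn.2.1, I1_m1_mul]
    have h3 : 1 ≤ m1 (Q n) := I1_one_le_m1 hn.1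
    have h4 := hgt n
    have h5 : 1 < m1 (spec (e n) C) := by
      rw [h2]
      nlinarith
    have h6 := hgap (e n) h5
    rw [← Real.log_mul (by positivity) (by positivity), ← h2]
    exact Real.log_le_log (by linarith) h6
  have h2 : Tendsto (fun n => Real.log (m1 (Q n)) + Real.log (m1 (A n)))
      (hyperfilter ℕ : Filter ℕ) (𝓝 (0 + Real.log 1)) := by
    refine hQlim.add ?_
    exact (Real.continuousAt_log one_ne_zero).tendsto.comp (hlim.mono_left hle)
  have h3 := ge_of_tendsto h2 h1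
  rw [Real.log_one, add_zero] at h3
  have h4 := Real.log_pos hc
  linarith

/-- the gap for coprime pairs in several variables -/
theorem gap_all (K : ℝ) : ∃ c : ℝ, 1 < c ∧ ∀ (k : ℕ) (F G : MvPolynomial (Fin k) ℤ), F ≠ 0 →
    G ≠ 0 → IsRelPrime F G → mx F G ≤ K → mM F = 1 ∨ c ≤ mM F := by
  obtain ⟨c, hc, h⟩ := gap_one (K + 1)
  refine ⟨c, hc, fun k F G hF hG hFG hK => ?_⟩
  by_contra hcon
  push Not at hcon
  have h1 := one_le_mM F hF
  have h2 : 1 < mM F := lt_of_le_of_ne h1 (Ne.symm hcon.1)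
  obtain ⟨A, B, hA, hB, hAB, h3, h4⟩ := approx_pair F G hF hG hFG
    (min 1 (min (mM F - 1) (c - mM F))) (by
      refine lt_min one_pos (lt_min (by linarith) (by linarith [hcon.2])))
  rw [abs_lt] at h3 h4
  have h5 : min 1 (min (mM F - 1) (c - mM F)) ≤ 1 := min_le_left _ _
  have h6 : min 1 (min (mM F - 1) (c - mM F)) ≤ mM F - 1 :=
    (min_le_right _ _).trans (min_le_left _ _)
  have h7 : min 1 (min (mM F - 1) (c - mM F)) ≤ c - mM F :=
    (min_le_right _ _).trans (min_le_right _ _)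
  rcases h A B hA hB hAB (by linarith [h4.2]) with h8 | h8
  · rw [h8] at h3
    linarith [h3.1]
  · linarith [h3.2]

end

end Pool.Agent.H261R2.CM
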