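import Pool.Agent.H261R2.CM.L1

/-!
# Integer polynomials with bounded `∫ log⁺ |f|`
-/

set_option autoImplicit false

namespace Pool.Agent.H261R2.CM

open Polynomial Filter MeasureTheory Topology

noncomputable section

/-- sum of the absolute values of the coefficients -/
def len (P : ℤ[X]) : ℤ := ∑ i ∈ P.support, |P.coeff i|

theorem len_eq (P : ℤ[X]) (N : ℕ) (h : P.natDegree < N) :
    len P = ∑ i ∈ Finset.range N, |P.coeff i| := by
  unfold len
  refine Finset.sum_subset ?_ ?_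
  · intro i hi
    rw [Finset.mem_range]
    exact lt_of_le_of_lt (le_natDegree_of_mem_supp i hi) h
  · intro i _ hi
    rw [notMem_support_iff.mp hi, abs_zero]

theorem len_add_le (P Q : ℤ[X]) : len (P + Q) ≤ len P + len Q := by
  set N := max (max P.natDegree Q.natDegree) (P + Q).natDegree + 1 with hN
  rw [len_eq P N (by omega), len_eq Q N (by omega), len_eq (P + Q) N (by omega),
    ← Finset.sum_add_distrib]
  refine Finset.sum_le_sum fun i _ => ?_
  rw [coeff_add]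
  exact abs_add_le _ _

theorem len_zero : len 0 = 0 := by simp [len]

theorem len_sum_le {ι : Type*} (s : Finset ι) (f : ι → ℤ[X]) :
    len (∑ i ∈ s, f i) ≤ ∑ i ∈ s, len (f i) := by
  classical
  induction s using Finset.induction_on with
  | empty => simp [len_zero]
  | insert a s ha ih =>
    rw [Finset.sum_insert ha, Finset.sum_insert ha]
    exact (len_add_le _ _).trans (by linarith)

theorem len_monomial_le (n : ℕ) (c : ℤ) : len (monomial n c) ≤ |c| := by
  by_cases hc : c = 0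
  · simp [hc, len_zero]
  · unfold len
    rw [support_monomial n hc, Finset.sum_singleton, coeff_monomial, if_pos rfl]

theorem len_spec_le {k : ℕ} (e : Fin k → ℕ) (C : MvPolynomial (Fin k) ℤ) :
    len (spec e C) ≤ ∑ s ∈ C.support, |C.coeff s| := by
  have h1 : spec e C = ∑ s ∈ C.support, (monomial (∑ i, s i * e i)) (C.coeff s) := by
    unfold spec
    rw [MvPolynomial.aeval_def, MvPolynomial.eval₂_eq']
    refine Finset.sum_congr rfl fun s _ => ?_
    have h2 : ∀ i : Fin k, ((X : ℤ[X]) ^ (e i)) ^ (s i) = X ^ (s i * e i) := by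
      intro i
      rw [← pow_mul, mul_comm]
    simp only [h2]
    rw [Finset.prod_pow_eq_pow_sum, ← C_mul_X_pow_eq_monomial]
    simp
  rw [h1]
  exact (len_sum_le _ _).trans (Finset.sum_le_sum fun s _ => len_monomial_le _ _)

theorem norm_ev1_le (P : ℤ[X]) (t : ℝ) : ‖ev1 P t‖ ≤ len P := by
  unfold ev1 len
  rw [eval_eq_sum, sum_def]
  refine (norm_sum_le _ _).trans ?_
  have hs : (toC P).support ⊆ P.support := support_map_subset _ _
  push_cast
  refine (Finset.sum_le_sum_of_subset_of_nonneg hs fun _ _ _ => norm_nonneg _).trans ?_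
  refine Finset.sum_le_sum fun i _ => ?_
  rw [norm_mul, norm_pow, K8.norm_ez, one_pow, mul_one, toC, coeff_map, eq_intCast,
    Complex.norm_intCast]

theorem ev1_one (t : ℝ) : ev1 1 t = 1 := by simp [ev1, toC]

theorem mx1_intervalIntegrable (A B : ℤ[X]) (hA : A ≠ 0) :
    IntervalIntegrable (fun t => Real.log (max ‖ev1 A t‖ ‖ev1 B t‖)) volume 0 1 := by
  have h7 := K4_int1 thM thM_cont thM_ge A B hA
  have h8 : ∀ t : ℝ, Real.log (max ‖ev1 A t‖ ‖ev1 B t‖) =
      1 / 2 * Real.log (thM ‖ev1 A t‖ ‖ev1 B t‖) := by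
    intro t
    rw [thM_log (norm_nonneg _) (norm_nonneg _)]
    ring
  simp only [h8]
  exact h7.const_mul (1 / 2)

theorem mx1_le_of_len (A B : ℤ[X]) (hA : A ≠ 0) (N : ℝ) (h1 : (len A : ℝ) ≤ N)
    (h2 : (len B : ℝ) ≤ N) (hN1 : 1 ≤ N) : mx1 A B ≤ Real.log N := by
  have h3 : (∫ _ in (0:ℝ)..1, Real.log N) = Real.log N := by simp
  unfold mx1
  rw [← h3]
  refine intervalIntegral.integral_mono_on zero_le_one (mx1_intervalIntegrable A B hA)
    intervalIntegrable_const fun t _ => ?_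
  have h4 : max ‖ev1 A t‖ ‖ev1 B t‖ ≤ N :=
    max_le ((norm_ev1_le A t).trans h1) ((norm_ev1_le B t).trans h2)
  by_cases h5 : max ‖ev1 A t‖ ‖ev1 B t‖ = 0
  · rw [h5, Real.log_zero]
    exact Real.log_nonneg hN1
  · exact Real.log_le_log (lt_of_le_of_ne (le_max_of_le_left (norm_nonneg _)) (Ne.symm h5)) h4

/-- inverse theorem for polynomials with bounded `∫ log⁺ |f|` -/
theorem logplus_structure (K : ℝ) : ∃ N : ℕ, ∀ f : ℤ[X], f ≠ 0 → mx1 f 1 ≤ K →
    ∃ Φ : ℤ[X], Φ ≠ 0 ∧ m1 Φ = 1 ∧ len Φ ≤ N ∧ len (f * Φ) ≤ N := by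
  by_contra hcon
  push Not at hcon
  choose f hf hK hno using hcon
  have hlim0 := pairs_compact_general f (fun _ => 1) hf (fun _ => one_ne_zero)
    (fun n => isRelPrime_one_right) K hK
  obtain ⟨k, e, C, D, hk, hC, hD, hCD, he, hrel, _, _⟩ := hlim0
  obtain ⟨Q, hQ, hQlim⟩ := limit_general C D hC hD hCD (hyperfilter ℕ) e he f (fun _ => 1) hf
    (fun _ => one_ne_zero) (fun n => isRelPrime_one_right) hrel
  obtain ⟨c, hc, hgap⟩ := spec_gap D hD
  have hle : (hyperfilter ℕ : Filter ℕ) ≤ atTop := by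
    rw [← Nat.cofinite_eq_atTop]
    exact hyperfilter_le_cofinite
  set L1 : ℤ := ∑ s ∈ C.support, |C.coeff s| with hL1
  set L2 : ℤ := ∑ s ∈ D.support, |D.coeff s| with hL2
  have hbig : ∀ᶠ n : ℕ in (hyperfilter ℕ : Filter ℕ), max L1 L2 ≤ (n : ℤ) := by
    have h1 : ∀ᶠ n : ℕ in atTop, max L1 L2 ≤ (n : ℤ) := by
      filter_upwards [eventually_ge_atTop (max L1 L2).toNat] with n hn
      have := Int.self_le_toNat (max L1 L2)
      omega
    exact hle h1
  have hsmall : ∀ᶠ n in (hyperfilter ℕ : Filter ℕ), Real.log (m1 (Q n)) < Real.log c :=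
    hQlim.eventually_lt_const (Real.log_pos hc)
  obtain ⟨n, h1, h2, h3⟩ := (hQ.and (hbig.and hsmall)).exists
  obtain ⟨hQ0, hCn, hDn⟩ := h1
  rw [mul_one] at hDn
  have hQ1 : 1 ≤ m1 (Q n) := I1_one_le_m1 hQ0
  have hm : m1 (Q n) = 1 := by
    by_contra hne
    have h4 : 1 < m1 (spec (e n) D) := by
      rw [hDn]
      exact lt_of_le_of_ne hQ1 (Ne.symm hne)
    have h5 := hgap (e n) h4
    rw [hDn] at h5
    have h6 := Real.log_le_log (by linarith) h5
    linarith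
  have h7 : len (Q n) ≤ n := by
    rw [← hDn]
    exact (len_spec_le _ _).trans ((le_max_right _ _).trans h2)
  have h8 : len (f n * Q n) ≤ n := by
    rw [mul_comm, ← hCn]
    exact (len_spec_le _ _).trans ((le_max_left _ _).trans h2)
  exact absurd h8 (not_le.mpr (hno n (Q n) hQ0 hm h7))

/-- converse -/
theorem logplus_converse (N : ℕ) (f Φ : ℤ[X]) (hf : f ≠ 0) (hΦ : Φ ≠ 0) (hm : m1 Φ = 1)
    (h1 : len Φ ≤ N) (h2 : len (f * Φ) ≤ N) : mx1 f 1 ≤ Real.log N := by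
  have h3 := mx1_mul Φ f 1 hΦ hf
  rw [hm, Real.log_one, zero_add] at h3
  rw [← h3]
  have hN1 : (1 : ℤ) ≤ N := by
    refine le_trans ?_ h1
    obtain ⟨i, hi⟩ := support_nonempty.mpr hΦ
    unfold len
    refine le_trans ?_ (Finset.single_le_sum (f := fun s => |Φ.coeff s|)
      (fun s _ => abs_nonneg _) hi)
    exact Int.one_le_abs (mem_support_iff.mp hi)
  have hN2 : (1 : ℝ) ≤ N := by exact_mod_cast hN1
  refine mx1_le_of_len _ _ (mul_ne_zero hΦ hf) _ ?_ ?_ hN2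
  · rw [mul_comm]
    exact_mod_cast h2
  · rw [mul_one]
    exact_mod_cast h1

/-- Lehmer gap for `∫ |f| ^ p ≤ K` -/
theorem mx1_le_of_lp (f : ℤ[X]) (hf : f ≠ 0) (p : ℝ) (hp : 0 < p) :
    mx1 f 1 ≤ (∫ t in (0:ℝ)..1, ‖ev1 f t‖ ^ p) / p := by
  rw [← intervalIntegral.integral_div]
  unfold mx1
  refine intervalIntegral.integral_mono_on zero_le_one (mx1_intervalIntegrable f 1 hf) ?_
    fun t _ => ?_
  · refine Continuous.intervalIntegrable ?_ _ _
    exact ((D_continuous_ev1 f).norm.rpow_const fun t => Or.inr hp.le).div_const _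
  · rw [ev1_one, norm_one]
    rcases le_total ‖ev1 f t‖ 1 with h | h
    · rw [max_eq_right h, Real.log_one]
      positivity
    · rw [max_eq_left h]
      exact Real.log_le_rpow_div (norm_nonneg _) hp

theorem gap_logplus (K : ℝ) : ∃ c : ℝ, 1 < c ∧ ∀ f : ℤ[X], f ≠ 0 → mx1 f 1 ≤ K →
    m1 f = 1 ∨ c ≤ m1 f := by
  obtain ⟨c, hc, h⟩ := gap_one K
  exact ⟨c, hc, fun f hf hK => h f 1 hf one_ne_zero isRelPrime_one_right hK⟩

theorem gap_lp (p : ℝ) (hp : 0 < p) (K : ℝ) : ∃ c : ℝ, 1 < c ∧ ∀ f : ℤ[X], f ≠ 0 →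
    (∫ t in (0:ℝ)..1, ‖ev1 f t‖ ^ p) ≤ K → m1 f = 1 ∨ c ≤ m1 f := by
  obtain ⟨c, hc, h⟩ := gap_logplus (K / p)
  refine ⟨c, hc, fun f hf hK => h f hf ((mx1_le_of_lp f hf p hp).trans ?_)⟩
  exact div_le_div_of_nonneg_right hK hp.le

/-- minimum of the elements `> 1` of `L K` -/
theorem LL_min (K : ℝ) (h : ∃ x ∈ LL K, 1 < x) : ∃ m ∈ LL K, 1 < m ∧ ∀ x ∈ LL K, 1 < x → m ≤ x := by
  obtain ⟨c, hc, hgap⟩ := gap_all K
  have h1 : ∀ x ∈ LL K, 1 < x → c ≤ x := by
    rintro x ⟨k, hk, F, G, hF, hG, hFG, hK, hx⟩ hx1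
    rcases hgap k F G hF hG hFG hK with h2 | h2
    · rw [hx, h2] at hx1
      exact absurd hx1 (lt_irrefl _)
    · rw [hx]
      exact h2
  obtain ⟨x0, hx0, hx01⟩ := h
  set S : Set ℝ := LL K ∩ Set.Icc c x0 with hS
  have hcomp : IsCompact S := by
    rw [hS, Set.inter_comm]
    exact isCompact_Icc.inter_right (closed_LL K)
  have hne : S.Nonempty := ⟨x0, hx0, h1 x0 hx0 hx01, le_rfl⟩
  obtain ⟨m, hm, hmin⟩ := hcomp.exists_isLeast hne
  refine ⟨m, hm.1, lt_of_lt_of_le hc hm.2.1, fun x hx hx1 => ?_⟩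
  rcases le_total x x0 with h2 | h2
  · exact hmin ⟨hx, h1 x hx hx1, h2⟩
  · exact hm.2.2.trans h2

end

end Pool.Agent.H261R2.CM
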